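import Pool.Agent.W868.KP.Fixp

/-!
# Choice in the two models
-/

set_option autoImplicit false
set_option linter.unreachableTactic false
set_option linter.unusedTactic false
set_option linter.unusedSectionVars false

namespace Pool.Agent.W868.KP

open ZFSet (pair)

/-- A functional relation with ordinals on the left. -/
def Fnl (F : ZFSet.{0}) : Prop :=
  (∀ p ∈ F, ∃ α y, p = pair α y ∧ α.IsOrdinal) ∧
    ∀ α y y', pair α y ∈ F → pair α y' ∈ F → y = y'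

theorem Vl_trans {M : Set ZFSet.{0}} (hM : IsZF M) (v : ZFSet.{0}) :
    ∀ y ∈ Vl M v, ∀ z ∈ y, z ∈ Vl M v := by
  induction v using ZFSet.inductionOn with
  | _ v ih =>
  intro y hy z hz
  obtain ⟨v', hv', h1, h2⟩ := mem_Vl.1 hy
  exact mem_Vl.2 ⟨v', hv', hM.trans _ h1 _ hz, fun w hw => ih v' hv' z (h2 hz) w hw⟩

section basic

variable {W : Set ZFSet.{0}} {k : ZFSet.{0}} {u : Bool → ZFSet.{0}} (h2 : Two W k u)

include h2

theorem cu_sub {i : Bool} {H H' : ZFSet.{0}} (hH : H ∈ W) (hH' : H' ∈ W)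
    (h : ∀ ξ ∈ k, ap H ξ ⊆ ap H' ξ) : cu W k (u i) H ⊆ cu W k (u i) H' := by
  intro y hy
  obtain ⟨g, hg, h3, rfl⟩ := (h2.mem_cu hH).1 hy
  exact (h2.mem_cu hH').2 ⟨g, hg, (h2.meas i).mono (h2.sepmem hg hH') h3
    fun ξ hξ h4 => h ξ hξ h4, rfl⟩

theorem cu_fnl {i : Bool} {H : ZFSet.{0}} (hH : H ∈ W) (h : ∀ ξ ∈ k, Fnl (ap H ξ)) :
    Fnl (cu W k (u i) H) := by
  have hW := h2.zf
  have hB := hW.base
  have hk := h2.kW
  have hfsW : ∀ g ∈ W, gr (fun ξ => fs (ap g ξ)) k ∈ W := fun g hg =>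
    h2.grW hk (hW.fs' (hW.ap' (DfnF.const hg) (DfnF.proj 0)))
  have hsnW : ∀ g ∈ W, gr (fun ξ => sn (ap g ξ)) k ∈ W := fun g hg =>
    h2.grW hk (hW.sn' (hW.ap' (DfnF.const hg) (DfnF.proj 0)))
  have key : ∀ g ∈ W, (Ae k (u i) fun ξ => ap g ξ ∈ ap H ξ) →
      cu W k (u i) g = pair (cu W k (u i) (gr (fun ξ => fs (ap g ξ)) k))
        (cu W k (u i) (gr (fun ξ => sn (ap g ξ)) k)) := by
    intro g hg h3
    refine cu_pair h2 (hfsW g hg) (hsnW g hg) hg ?_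
    refine (h2.meas i).mono (h2.sep ?_) h3 fun ξ hξ h4 => ?_
    · refine Dfn.eq (hW.ap' (DfnF.const hg) (DfnF.proj 0)) (hB.pair' ?_ ?_)
      · exact hW.ap' (DfnF.const (hfsW g hg)) (DfnF.proj 0)
      · exact hW.ap' (DfnF.const (hsnW g hg)) (DfnF.proj 0)
    · obtain ⟨α, y, h5, -⟩ := (h ξ hξ).1 _ h4
      rw [ap_gr hξ, ap_gr hξ, h5, fs_pair, sn_pair]
  constructor
  · intro p hp
    obtain ⟨g, hg, h3, rfl⟩ := (h2.mem_cu hH).1 hp
    refine ⟨_, _, key g hg h3, isOrdinal_cu h2 _ (hfsW g hg) ?_⟩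
    refine (h2.meas i).mono (h2.sep ?_) h3 fun ξ hξ h4 => ?_
    · exact hB.isOrdinal' (hW.ap' (DfnF.const (hfsW g hg)) (DfnF.proj 0))
    · obtain ⟨α, y, h5, h6⟩ := (h ξ hξ).1 _ h4
      rw [ap_gr hξ, h5, fs_pair]
      exact h6
  · intro α y y' hy hy'
    obtain ⟨g, hg, h3, h4⟩ := (h2.mem_cu hH).1 hy
    obtain ⟨g', hg', h3', h4'⟩ := (h2.mem_cu hH).1 hy'
    rw [key g hg h3] at h4
    rw [key g' hg' h3'] at h4'
    obtain ⟨e1, rfl⟩ := ZFSet.pair_inj.1 h4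
    obtain ⟨e2, rfl⟩ := ZFSet.pair_inj.1 h4'
    rw [e1, h2.eq_iff (hfsW g hg) (hfsW g' hg')] at e2
    rw [h2.eq_iff (hsnW g hg) (hsnW g' hg')]
    refine (h2.meas i).mono (h2.sepeq (hsnW g hg) (hsnW g' hg'))
      ((h2.meas i).and e2 ((h2.meas i).and h3 h3')) fun ξ hξ h5 => ?_
    obtain ⟨h5, h6, h7⟩ := h5
    rw [ap_gr hξ, ap_gr hξ] at h5
    rw [ap_gr hξ, ap_gr hξ]
    obtain ⟨a, b, h8, -⟩ := (h ξ hξ).1 _ h6
    obtain ⟨a', b', h8', -⟩ := (h ξ hξ).1 _ h7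
    rw [h8] at h6
    rw [h8'] at h7
    rw [h8, h8', fs_pair, fs_pair] at h5
    subst h5
    rw [h8, h8', sn_pair, sn_pair]
    exact (h ξ hξ).2 _ _ _ h6 h7

/-- The elements of the models are in transitive sets of progressing elements. -/
theorem exists_prog {i : Bool} {x : ZFSet.{0}} (hx : x ∈ MM W k u i) :
    ∃ A : Bool → ZFSet.{0}, (∀ j, A j ∈ W) ∧ Prog W k u (fun j => {y | y ∈ A j}) ∧
      ∀ y ∈ x, y ∈ A i := by
  obtain ⟨δ, hδ, h3, h4, h5⟩ := coind_aux h2 (MM W k u) (dfn_MM h2) (MM_subset h2)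
    (fun i x hx => MM_rep h2 hx) i x hx
  exact ⟨_, h4, h5, fun y hy => ZFSet.mem_sep.2 ⟨Vl_trans h2.zf δ x h3 y hy,
    trans_MM h2 i x hx y hy⟩⟩

end basic

/-! ### The threads -/

/-- The thread of a set of pairs. -/
noncomputable def th (Φ : Bool → ZFSet.{0}) (j : Bool) (e ξ : ZFSet.{0}) : ZFSet.{0} :=
  im (fun p => pair (fs p) (ap (ap (Φ j) (sn p)) ξ)) e

/-- The functional relations with fixed ordinals on the left and values in `A j`. -/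
def Ok (W : Set ZFSet.{0}) (k : ZFSet.{0}) (u A : Bool → ZFSet.{0}) (j : Bool)
    (e : ZFSet.{0}) : Prop :=
  (∀ p ∈ e, ∃ α y, p = pair α y ∧ FixO W k u α ∧ y ∈ A j) ∧
    ∀ α y y', pair α y ∈ e → pair α y' ∈ e → y = y'

/-- The choice of the representing functions. -/
structure Rp (W : Set ZFSet.{0}) (k : ZFSet.{0}) (u A Φ : Bool → ZFSet.{0}) : Prop where
  AW : ∀ j, A j ∈ W
  ΦW : ∀ j, Φ j ∈ W
  val : ∀ j, ∀ y ∈ A j, ∀ ξ ∈ k, ap (ap (Φ j) y) ξ ∈ A (!j)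
  cu : ∀ j, ∀ y ∈ A j, cu W k (u j) (ap (Φ j) y) = y

/-- The code of a boolean. -/
noncomputable def cb (j : Bool) : ZFSet.{0} := if j = true then nat 1 else ∅

open Classical in
/-- The code of the next triple. -/
noncomputable def nx (Φ : Bool → ZFSet.{0}) (z ξ : ZFSet.{0}) : ZFSet.{0} :=
  pair (ZFSet.sUnion (fs z)) (pair (if fs (sn z) = ∅ then nat 1 else ∅)
    (if fs (sn z) = ∅ then th Φ false (sn (sn z)) ξ else th Φ true (sn (sn z)) ξ))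

open Classical in
/-- The set of the next triples. -/
noncomputable def prT (k : ZFSet.{0}) (Φ : Bool → ZFSet.{0}) (z : ZFSet.{0}) : ZFSet.{0} :=
  if ZFSet.sUnion (fs z) ∈ fs z then im (nx Φ z) k else ∅

open Classical in
/-- The recursion step. -/
noncomputable def stT (W : Set ZFSet.{0}) (k : ZFSet.{0}) (u Φ : Bool → ZFSet.{0})
    (z g : ZFSet.{0}) : ZFSet.{0} :=
  if ZFSet.sUnion (fs z) ∈ fs z then
    (if fs (sn z) = ∅ then cu W k (u false) (gr (fun ξ => ap g (nx Φ z ξ)) k)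
      else cu W k (u true) (gr (fun ξ => ap g (nx Φ z ξ)) k))
  else sn (sn z)

theorem wf_prT (k : ZFSet.{0}) (Φ : Bool → ZFSet.{0}) :
    WellFounded fun y z => y ∈ prT k Φ z := by
  refine Subrelation.wf (r := InvImage (· ∈ ·) fs) ?_ (InvImage.wf fs ZFSet.mem_wf)
  intro y z h
  show fs y ∈ fs z
  by_cases hz : ZFSet.sUnion (fs z) ∈ fs z
  · rw [prT, if_pos hz, mem_im] at h
    obtain ⟨ξ, -, rfl⟩ := h
    rw [nx, fs_pair]
    exact hz
  · rw [prT, if_neg hz] at h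
    exact absurd h (ZFSet.notMem_empty _)

/-- The extensions of the relations. -/
noncomputable def En (W : Set ZFSet.{0}) (k : ZFSet.{0}) (u Φ : Bool → ZFSet.{0}) :
    ZFSet.{0} → ZFSet.{0} :=
  wfF (prT k Φ) (wf_prT k Φ) (stT W k u Φ)

/-- The union of the extensions. -/
noncomputable def Gm (W : Set ZFSet.{0}) (k : ZFSet.{0}) (u Φ : Bool → ZFSet.{0}) (j : Bool)
    (e : ZFSet.{0}) : ZFSet.{0} :=
  ZFSet.sUnion (im (fun n => En W k u Φ (pair n (pair (cb j) e))) ZFSet.omega)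

theorem sUnion_nat (n : ℕ) : (ZFSet.sUnion (nat (n + 1)) : ZFSet.{0}) = nat n := by
  ext z
  rw [ZFSet.mem_sUnion]
  constructor
  · rintro ⟨y, hy, hz⟩
    rcases ZFSet.mem_insert_iff.1 hy with rfl | hy
    · exact hz
    · have h : (nat n).IsOrdinal := by
        rw [nat_eq]
        exact ZFSet.isOrdinal_toZFSet _
      exact h.mem_trans hz hy
  · exact fun hz => ⟨nat n, ZFSet.mem_insert _ _, hz⟩

theorem cb_true : cb true ≠ ∅ := by
  rw [cb, if_pos rfl]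
  intro h
  exact ZFSet.notMem_empty (nat 0) (h ▸ ZFSet.mem_insert _ _)

section rec

variable {W : Set ZFSet.{0}} {k : ZFSet.{0}} {u : Bool → ZFSet.{0}} (h2 : Two W k u)
  {A Φ : Bool → ZFSet.{0}}

theorem En_zero {j : Bool} {e : ZFSet.{0}} : En W k u Φ (pair (nat 0) (pair (cb j) e)) = e := by
  have h : ¬ ZFSet.sUnion (fs (pair (nat 0) (pair (cb j) e))) ∈
      fs (pair (nat 0) (pair (cb j) e)) := by
    rw [fs_pair]
    exact ZFSet.notMem_empty _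
  rw [En, wfF_eq, stT, if_neg h, sn_pair, sn_pair]

theorem nx_eq {n : ℕ} {j : Bool} {e ξ : ZFSet.{0}} :
    nx Φ (pair (nat (n + 1)) (pair (cb j) e)) ξ = pair (nat n) (pair (cb (!j)) (th Φ j e ξ)) := by
  rw [nx, fs_pair, sn_pair, fs_pair, sn_pair, sUnion_nat]
  cases j
  · have h : cb false = ∅ := if_neg (by decide)
    rw [h, if_pos rfl, if_pos rfl]
    rfl
  · rw [if_neg cb_true, if_neg cb_true]
    have h : cb (!true) = ∅ := if_neg (by decide)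
    rw [h]

theorem En_succ {n : ℕ} {j : Bool} {e : ZFSet.{0}} :
    En W k u Φ (pair (nat (n + 1)) (pair (cb j) e)) = cu W k (u j)
      (gr (fun ξ => En W k u Φ (pair (nat n) (pair (cb (!j)) (th Φ j e ξ)))) k) := by
  have h : ZFSet.sUnion (fs (pair (nat (n + 1)) (pair (cb j) e))) ∈
      fs (pair (nat (n + 1)) (pair (cb j) e)) := by
    rw [fs_pair, sUnion_nat]
    exact ZFSet.mem_insert _ _
  have h1 : gr (fun ξ => ap (gr (En W k u Φ) (prT k Φ (pair (nat (n + 1)) (pair (cb j) e))))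
      (nx Φ (pair (nat (n + 1)) (pair (cb j) e)) ξ)) k =
      gr (fun ξ => En W k u Φ (pair (nat n) (pair (cb (!j)) (th Φ j e ξ)))) k := by
    refine im_congr fun ξ hξ => ?_
    have h3 : nx Φ (pair (nat (n + 1)) (pair (cb j) e)) ξ ∈
        prT k Φ (pair (nat (n + 1)) (pair (cb j) e)) := by
      rw [prT, if_pos h]
      exact mem_im.2 ⟨ξ, hξ, rfl⟩
    beta_reduce
    rw [ap_gr h3, nx_eq]
  rw [En, wfF_eq, ← En, stT, if_pos h, h1, sn_pair, fs_pair]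
  cases j
  · have h : cb false = ∅ := if_neg (by decide)
    rw [h, if_pos rfl]
  · rw [if_neg cb_true]

include h2

theorem thD (hR : Rp W k u A Φ) (j : Bool) {m : ℕ} {F G : (Fin m → ZFSet.{0}) → ZFSet.{0}}
    (hF : DfnF W W F) (hG : DfnF W W G) : DfnF W W fun v => th Φ j (F v) (G v) := by
  have hW := h2.zf
  have hB := hW.base
  refine hW.im' (h := fun p v => pair (fs p) (ap (ap (Φ j) (sn p)) (G v))) hF ?_
  refine hB.pair' (hW.fs' (DfnF.proj 0)) (hW.ap' (hW.ap' (DfnF.const (hR.ΦW j))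
    (hW.sn' (DfnF.proj 0))) hG.tail)

theorem nxD (hR : Rp W k u A Φ) {m : ℕ} {F G : (Fin m → ZFSet.{0}) → ZFSet.{0}}
    (hF : DfnF W W F) (hG : DfnF W W G) : DfnF W W fun v => nx Φ (F v) (G v) := by
  have hW := h2.zf
  have hB := hW.base
  have h1 : nat 1 ∈ W := hW.nat_mem 1
  have hz : Dfn W W fun v => fs (sn (F v)) = ∅ :=
    Dfn.eq (hW.fs' (hW.sn' hF)) (DfnF.const hW.empty_mem)
  refine hB.pair' (hB.sUnion' (hW.fs' hF)) (hB.pair' ?_ ?_)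
  · exact DfnF.ite (Q := fun v => fs (sn (F v)) = ∅) hz (DfnF.const h1)
      (DfnF.const hW.empty_mem)
  · exact DfnF.ite (Q := fun v => fs (sn (F v)) = ∅) hz
      (thD h2 hR false (hW.sn' (hW.sn' hF)) hG) (thD h2 hR true (hW.sn' (hW.sn' hF)) hG)

theorem EnD (hR : Rp W k u A Φ) {m : ℕ} {F : (Fin m → ZFSet.{0}) → ZFSet.{0}}
    (hF : DfnF W W F) : DfnF W W fun v => En W k u Φ (F v) := by
  have hW := h2.zf
  have hB := hW.base
  have hk := h2.kW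
  refine DfnF.comp1 (f := En W k u Φ) ?_ hF
  have hc : ∀ {m : ℕ} {F : (Fin m → ZFSet.{0}) → ZFSet.{0}}, DfnF W W F →
      Dfn W W fun v => ZFSet.sUnion (fs (F v)) ∈ fs (F v) := fun hF =>
    Dfn.mem (hB.sUnion' (hW.fs' hF)) (hW.fs' hF)
  refine hW.wfrec (pr := prT k Φ) (G := stT W k u Φ) (wf_prT k Φ) ?_ ?_ fun z => ?_
  · refine DfnF.ite (Q := fun v : Fin 1 → ZFSet.{0} => ZFSet.sUnion (fs (v 0)) ∈ fs (v 0))
      (hc (DfnF.proj 0)) (hW.im' (h := fun ξ v => nx Φ (v 0) ξ) (DfnF.const hk) ?_)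
      (DfnF.const hW.empty_mem)
    exact nxD h2 hR (DfnF.proj 1) (DfnF.proj 0)
  · have hg : DfnF W W fun v : Fin 2 → ZFSet.{0} => gr (fun ξ => ap (v 1) (nx Φ (v 0) ξ)) k := by
      refine hW.im' (h := fun ξ v => pair ξ (ap (v 1) (nx Φ (v 0) ξ))) (DfnF.const hk) ?_
      exact hB.pair' (DfnF.proj 0) (hW.ap' (DfnF.proj 2) (nxD h2 hR (DfnF.proj 1) (DfnF.proj 0)))
    refine DfnF.ite (Q := fun v : Fin 2 → ZFSet.{0} => ZFSet.sUnion (fs (v 0)) ∈ fs (v 0))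
      (hc (DfnF.proj 0)) ?_ (hW.sn' (hW.sn' (DfnF.proj 0)))
    refine DfnF.ite (Q := fun v : Fin 2 → ZFSet.{0} => fs (sn (v 0)) = ∅) ?_
      (h2.cuD false hg) (h2.cuD true hg)
    exact Dfn.eq (hW.fs' (hW.sn' (DfnF.proj 0))) (DfnF.const hW.empty_mem)
  · rw [En, wfF_eq]

theorem cbW (j : Bool) : cb j ∈ W := by
  cases j
  · have h : cb false = ∅ := if_neg (by decide)
    rw [h]
    exact h2.zf.empty_mem
  · have h : cb true = nat 1 := if_pos rfl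
    rw [h]
    exact h2.zf.nat_mem 1

theorem EnD' (hR : Rp W k u A Φ) (j : Bool) {m : ℕ} {F G : (Fin m → ZFSet.{0}) → ZFSet.{0}}
    (hF : DfnF W W F) (hG : DfnF W W G) :
    DfnF W W fun v => En W k u Φ (pair (F v) (pair (cb j) (G v))) :=
  EnD h2 hR (h2.zf.base.pair' hF (h2.zf.base.pair' (DfnF.const (cbW h2 j)) hG))

theorem GmD (hR : Rp W k u A Φ) (j : Bool) {m : ℕ} {F : (Fin m → ZFSet.{0}) → ZFSet.{0}}
    (hF : DfnF W W F) : DfnF W W fun v => Gm W k u Φ j (F v) := by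
  have hW := h2.zf
  have hB := hW.base
  refine hB.sUnion' (hW.im' (h := fun n v => En W k u Φ (pair n (pair (cb j) (F v))))
    (DfnF.const hW.infinity) ?_)
  exact EnD' h2 hR j (DfnF.proj 0) hF.tail

theorem thW (hR : Rp W k u A Φ) {j : Bool} {e ξ : ZFSet.{0}} (he : e ∈ W) (hξ : ξ ∈ k) :
    th Φ j e ξ ∈ W :=
  (thD h2 hR j (DfnF.const he) (DfnF.const (h2.zf.trans _ h2.kW _ hξ))).1 Fin.elim0
    fun i => i.elim0

theorem th_ok (hR : Rp W k u A Φ) {j : Bool} {e ξ : ZFSet.{0}} (he : Ok W k u A j e)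
    (hξ : ξ ∈ k) : Ok W k u A (!j) (th Φ j e ξ) := by
  constructor
  · intro p hp
    obtain ⟨q, hq, rfl⟩ := mem_im.1 hp
    obtain ⟨α, y, rfl, h3, h4⟩ := he.1 q hq
    rw [fs_pair, sn_pair]
    exact ⟨α, _, rfl, h3, hR.val j y h4 ξ hξ⟩
  · intro α y y' hy hy'
    obtain ⟨q, hq, h3⟩ := mem_im.1 hy
    obtain ⟨q', hq', h3'⟩ := mem_im.1 hy'
    obtain ⟨β, z, rfl, -, -⟩ := he.1 q hq
    obtain ⟨β', z', rfl, -, -⟩ := he.1 q' hq'
    rw [fs_pair, sn_pair] at h3 h3'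
    obtain ⟨rfl, rfl⟩ := ZFSet.pair_inj.1 h3
    obtain ⟨rfl, rfl⟩ := ZFSet.pair_inj.1 h3'
    rw [he.2 _ _ _ hq hq']

theorem EnW (hR : Rp W k u A Φ) (n : ℕ) {j : Bool} {e : ZFSet.{0}} (he : e ∈ W) :
    En W k u Φ (pair (nat n) (pair (cb j) e)) ∈ W :=
  (EnD' h2 hR j (DfnF.const (h2.zf.nat_mem n)) (DfnF.const he)).1 Fin.elim0 fun i => i.elim0

theorem HnW (hR : Rp W k u A Φ) (n : ℕ) {j : Bool} {e : ZFSet.{0}} (he : e ∈ W) :
    gr (fun ξ => En W k u Φ (pair (nat n) (pair (cb (!j)) (th Φ j e ξ)))) k ∈ W :=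
  h2.grW h2.kW (EnD' h2 hR (!j) (DfnF.const (h2.zf.nat_mem n))
    (thD h2 hR j (DfnF.const he) (DfnF.proj 0)))

theorem Ok.fnl {j : Bool} {e : ZFSet.{0}} (h : Ok W k u A j e) : Fnl e :=
  ⟨fun p hp => by
    obtain ⟨α, y, h3, h4, -⟩ := h.1 p hp
    exact ⟨α, y, h3, h4.1⟩, h.2⟩

theorem En_fnl (hR : Rp W k u A Φ) (n : ℕ) : ∀ {j : Bool} {e : ZFSet.{0}}, e ∈ W →
    Ok W k u A j e → Fnl (En W k u Φ (pair (nat n) (pair (cb j) e))) := by
  induction n with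
  | zero =>
    intro j e he h
    rw [En_zero]
    exact Ok.fnl h2 h
  | succ n ih =>
    intro j e he h
    rw [En_succ]
    refine cu_fnl h2 (HnW h2 hR n he) fun ξ hξ => ?_
    rw [ap_gr hξ]
    exact ih (thW h2 hR he hξ) (th_ok h2 hR h hξ)

theorem En_sub (hR : Rp W k u A Φ) (n : ℕ) : ∀ {j : Bool} {e : ZFSet.{0}}, e ∈ W →
    Ok W k u A j e → En W k u Φ (pair (nat n) (pair (cb j) e)) ⊆
      En W k u Φ (pair (nat (n + 1)) (pair (cb j) e)) := by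
  have hW := h2.zf
  have hB := hW.base
  have hk := h2.kW
  induction n with
  | zero =>
    intro j e he h
    rw [En_succ, En_zero]
    intro p hp
    obtain ⟨α, y, rfl, h3, h4⟩ := h.1 p hp
    have hαW := (hW.of_pair_mem (hW.trans _ he _ hp)).1
    have hyW := (hW.of_pair_mem (hW.trans _ he _ hp)).2
    have hf := h2.apW (hR.ΦW j) hyW
    have hg : gr (fun ξ => pair α (ap (ap (Φ j) y) ξ)) k ∈ W :=
      h2.grW hk (hB.pair' (DfnF.const hαW) (hW.ap' (DfnF.const hf) (DfnF.proj 0)))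
    have h5 := cu_pair h2 (i := j) (h2.cW hαW) hf hg ((h2.meas j).all fun ξ hξ => by
      rw [ap_gr hξ, ap_const h2 hξ])
    have h6 : cu W k (u j) (gr (fun _ => α) k) = α := h3.em h2 j
    rw [h6, hR.cu j y h4] at h5
    rw [← h5, h2.mem_iff hg (HnW h2 hR 0 he)]
    refine (h2.meas j).all fun ξ hξ => ?_
    rw [ap_gr hξ, ap_gr hξ, En_zero]
    refine mem_im.2 ⟨_, hp, ?_⟩
    rw [fs_pair, sn_pair]
  | succ n ih =>
    intro j e he h
    rw [En_succ, En_succ]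
    refine cu_sub h2 (HnW h2 hR n he) (HnW h2 hR (n + 1) he) fun ξ hξ => ?_
    rw [ap_gr hξ, ap_gr hξ]
    exact ih (thW h2 hR he hξ) (th_ok h2 hR h hξ)

theorem mem_Gm {j : Bool} {e p : ZFSet.{0}} : p ∈ Gm W k u Φ j e ↔
    ∃ n : ℕ, p ∈ En W k u Φ (pair (nat n) (pair (cb j) e)) := by
  rw [Gm, ZFSet.mem_sUnion]
  constructor
  · rintro ⟨y, hy, hp⟩
    obtain ⟨n, hn, rfl⟩ := mem_im.1 hy
    obtain ⟨m, rfl⟩ := mem_omega_iff.1 hn
    exact ⟨m, hp⟩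
  · rintro ⟨n, hn⟩
    exact ⟨_, mem_im.2 ⟨nat n, nat_mem_omega n, rfl⟩, hn⟩

theorem En_mono (hR : Rp W k u A Φ) {m n : ℕ} (hmn : m ≤ n) {j : Bool} {e : ZFSet.{0}}
    (he : e ∈ W) (h : Ok W k u A j e) : En W k u Φ (pair (nat m) (pair (cb j) e)) ⊆
      En W k u Φ (pair (nat n) (pair (cb j) e)) := by
  induction hmn with
  | refl => exact fun _ h => h
  | step _ ih => exact fun _ h' => En_sub h2 hR _ he h (ih h')

theorem Gm_fnl (hR : Rp W k u A Φ) {j : Bool} {e : ZFSet.{0}} (he : e ∈ W)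
    (h : Ok W k u A j e) : Fnl (Gm W k u Φ j e) := by
  constructor
  · intro p hp
    obtain ⟨n, hn⟩ := (mem_Gm h2).1 hp
    exact (En_fnl h2 hR n he h).1 p hn
  · intro α y y' hy hy'
    obtain ⟨n, hn⟩ := (mem_Gm h2).1 hy
    obtain ⟨m, hm⟩ := (mem_Gm h2).1 hy'
    exact (En_fnl h2 hR (max n m) he h).2 α y y'
      (En_mono h2 hR (le_max_left _ _) he h hn) (En_mono h2 hR (le_max_right _ _) he h hm)

theorem Gm_cu (hR : Rp W k u A Φ) {j : Bool} {e : ZFSet.{0}} (he : e ∈ W)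
    (h : Ok W k u A j e) :
    cu W k (u j) (gr (fun ξ => Gm W k u Φ (!j) (th Φ j e ξ)) k) = Gm W k u Φ j e := by
  have hW := h2.zf
  have hk := h2.kW
  have hGW : gr (fun ξ => Gm W k u Φ (!j) (th Φ j e ξ)) k ∈ W :=
    h2.grW hk (GmD h2 hR (!j) (thD h2 hR j (DfnF.const he) (DfnF.proj 0)))
  apply ZFSet.ext
  intro p
  constructor
  · intro hp
    obtain ⟨g, hg, h3, rfl⟩ := (h2.mem_cu hGW).1 hp
    have hRd : Dfn W W fun w : Fin 2 → ZFSet.{0} =>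
        ap g (w 1) ∈ En W k u Φ (pair (w 0) (pair (cb (!j)) (th Φ j e (w 1)))) := by
      refine Dfn.mem (hW.ap' (DfnF.const hg) (DfnF.proj 1)) ?_
      exact EnD' h2 hR (!j) (DfnF.proj 0) (thD h2 hR j (DfnF.const he) (DfnF.proj 1))
    obtain ⟨n, hn, h4⟩ := sigma h2 (i := j)
      (R := fun n ξ => ap g ξ ∈ En W k u Φ (pair n (pair (cb (!j)) (th Φ j e ξ)))) hRd
      (h3.congr fun ξ hξ => by
        rw [ap_gr hξ, mem_Gm h2]
        constructor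
        · rintro ⟨n, hn⟩
          exact ⟨nat n, nat_mem_omega n, hn⟩
        · rintro ⟨n, hn, h5⟩
          obtain ⟨m, rfl⟩ := mem_omega_iff.1 hn
          exact ⟨m, h5⟩)
    obtain ⟨m, rfl⟩ := mem_omega_iff.1 hn
    refine (mem_Gm h2).2 ⟨m + 1, ?_⟩
    rw [En_succ, h2.mem_iff hg (HnW h2 hR m he)]
    exact h4.congr fun ξ hξ => by rw [ap_gr hξ]
  · intro hp
    obtain ⟨n, hn⟩ := (mem_Gm h2).1 hp
    have h3 := En_sub h2 hR n he h hn
    rw [En_succ] at h3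
    refine cu_sub h2 (HnW h2 hR n he) hGW (fun ξ hξ => ?_) h3
    rw [ap_gr hξ, ap_gr hξ]
    exact fun q hq => (mem_Gm h2).2 ⟨n, hq⟩

theorem Gm_MM (hR : Rp W k u A Φ) {i : Bool} {e : ZFSet.{0}} (he : e ∈ W)
    (h : Ok W k u A i e) : Gm W k u Φ i e ∈ MM W k u i := by
  have hW := h2.zf
  have hB := hW.base
  have hk := h2.kW
  refine coind h2 (fun j => {x | ∃ e ∈ W, Ok W k u A j e ∧ x = Gm W k u Φ j e}) (fun j => ?_)
    (fun j => ?_) (fun j x hx => ?_) i ⟨e, he, h, rfl⟩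
  · have hAj := hR.AW j
    have h3 : Dfn W W fun w : Fin 1 → ZFSet.{0} => ∃ e ∈ W,
        ((∀ p ∈ e, ∃ α ∈ W, ∃ y ∈ W, p = pair α y ∧ FixO W k u α ∧ y ∈ A j) ∧
        ∀ α ∈ W, ∀ y ∈ W, ∀ y' ∈ W, pair α y ∈ e → pair α y' ∈ e → y = y') ∧
        w 0 = Gm W k u Φ j e := by
      (repeat' first
        | exact DfnF.proj _
        | exact DfnF.const (by assumption)
        | exact GmD h2 hR j (DfnF.proj _)
        | exact h2.fixD (DfnF.proj _)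
        | apply Dfn.not | apply Dfn.and | apply Dfn.or | apply Dfn.imp | apply Dfn.iff
        | apply hB.bex | apply hB.ball | apply Dfn.ex | apply Dfn.all
        | apply Dfn.eq | apply Dfn.mem | apply hB.pair')
    refine h3.congr fun w hw => ?_
    constructor
    · rintro ⟨e, he, ⟨h4, h5⟩, h6⟩
      refine ⟨e, he, ⟨fun p hp => ?_, fun α y y' hy hy' => ?_⟩, h6⟩
      · obtain ⟨α, -, y, -, h7⟩ := h4 p hp
        exact ⟨α, y, h7⟩
      · obtain ⟨h7, h8⟩ := hW.of_pair_mem (hW.trans _ he _ hy)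
        obtain ⟨-, h9⟩ := hW.of_pair_mem (hW.trans _ he _ hy')
        exact h5 α h7 y h8 y' h9 hy hy'
    · rintro ⟨e, he, ⟨h4, h5⟩, h6⟩
      refine ⟨e, he, ⟨fun p hp => ?_, fun α _ y _ y' _ hy hy' => h5 α y y' hy hy'⟩, h6⟩
      obtain ⟨α, y, h7, h8⟩ := h4 p hp
      subst h7
      obtain ⟨h9, h10⟩ := hW.of_pair_mem (hW.trans _ he _ hp)
      exact ⟨α, h9, y, h10, rfl, h8⟩
  · rintro x ⟨e, he, -, rfl⟩
    exact (GmD h2 hR j (DfnF.const he)).1 Fin.elim0 fun i => i.elim0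
  · obtain ⟨e, he, h, rfl⟩ := hx
    have hgr : gr (fun ξ => Gm W k u Φ (!j) (th Φ j e ξ)) k ∈ W :=
      h2.grW hk (GmD h2 hR (!j) (thD h2 hR j (DfnF.const he) (DfnF.proj 0)))
    refine ⟨gr (fun ξ => Gm W k u Φ (!j) (th Φ j e ξ)) k, hgr, fun ξ hξ => ?_,
      Gm_cu h2 hR he h⟩
    rw [ap_gr hξ]
    exact ⟨th Φ j e ξ, thW h2 hR he hξ, th_ok h2 hR h hξ, rfl⟩

/-- The existence of the representing functions. -/
theorem exists_Rp {A : Bool → ZFSet.{0}} (hA : ∀ j, A j ∈ W)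
    (hp : Prog W k u fun j => {y | y ∈ A j}) : ∃ Φ : Bool → ZFSet.{0}, Rp W k u A Φ := by
  have hW := h2.zf
  have hB := hW.base
  have hk := h2.kW
  have h3 : ∀ j, ∃ Φ ∈ W, ∀ y ∈ A j, (∀ ξ ∈ k, ap (ap Φ y) ξ ∈ A (!j)) ∧
      cu W k (u j) (ap Φ y) = y := by
    intro j
    have hRd : Dfn W W fun w : Fin 2 → ZFSet.{0} => (∀ ξ ∈ k, ap (w 0) ξ ∈ A (!j)) ∧
        cu W k (u j) (w 0) = w 1 := by
      refine (hB.ball (DfnF.const hk) ?_).and ?_
      · exact Dfn.mem (hW.ap' (DfnF.proj 1) (DfnF.proj 0)) (DfnF.const (hA _))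
      · exact Dfn.eq (h2.cuD j (DfnF.proj 0)) (DfnF.proj 1)
    obtain ⟨Φ, hΦ, -, -, h4⟩ := h2.zfc.choose (hA j) (Q := fun f y =>
      (∀ ξ ∈ k, ap f ξ ∈ A (!j)) ∧ cu W k (u j) f = y) hRd fun y hy => by
        obtain ⟨f, hf, h5, h6⟩ := hp j y hy
        exact ⟨f, hf, h5, h6⟩
    exact ⟨Φ, hΦ, h4⟩
  choose Φ hΦ h4 using h3
  exact ⟨Φ, hA, hΦ, fun j y hy => (h4 j y hy).1, fun j y hy => (h4 j y hy).2⟩

end rec

/-! ### Choice -/

section choice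

variable {W : Set ZFSet.{0}} {k : ZFSet.{0}} {u : Bool → ZFSet.{0}} (h2 : Two W k u)
  {V : Set ZFSet.{0}} (hT : Twin W k u V)

include h2 hT

/-- Every set of the model is enumerated by a functional relation of the model with ordinals on
the left. -/
theorem exists_enum_MM {i : Bool} {x : ZFSet.{0}} (hx : x ∈ MM W k u i) :
    ∃ e ∈ MM W k u i, Fnl e ∧ ∀ y ∈ x, ∃ α, pair α y ∈ e := by
  obtain ⟨A, hA, hp, h3⟩ := exists_prog h2 hx
  obtain ⟨Φ, hR⟩ := exists_Rp h2 hA hp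
  obtain ⟨e, he, h4, h5, h6⟩ := exists_enum h2 hT (MM_subset h2 i hx)
  have hok : Ok W k u A i e := ⟨fun p hp => by
    obtain ⟨α, y, h7, h8, h9⟩ := h4 p hp
    exact ⟨α, y, h7, h8, h3 y h9⟩, h5⟩
  refine ⟨_, Gm_MM h2 hR he hok, Gm_fnl h2 hR he hok, fun y hy => ?_⟩
  obtain ⟨α, hα⟩ := h6 y hy
  refine ⟨α, (mem_Gm h2).2 ⟨0, ?_⟩⟩
  rwa [En_zero]

theorem isZFC_MM (i : Bool) : IsZFC (MM W k u i) where
  toIsZF := isZF_MM h2 i
  choice x hx hne hdis := by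
    have hM := isZF_MM h2 i
    have hB := hM.base
    have hx' := hM.union _ hx
    obtain ⟨e, he, h3, h4⟩ := exists_enum_MM h2 hT hx'
    refine ⟨ZFSet.sep (fun z => ∃ y ∈ x, z ∈ y ∧ ∃ α ∈ MM W k u i, pair α z ∈ e ∧
      ∀ β ∈ α, ∀ z' ∈ y, pair β z' ∉ e) (ZFSet.sUnion x), ?_, fun y hy => ?_⟩
    · refine hM.sep_mem (Q := fun z => ∃ y ∈ x, z ∈ y ∧ ∃ α ∈ MM W k u i, pair α z ∈ e ∧
        ∀ β ∈ α, ∀ z' ∈ y, pair β z' ∉ e) ?_ hx'
      (repeat' first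
        | exact DfnF.proj _
        | exact DfnF.const (by assumption)
        | apply Dfn.not | apply Dfn.and | apply Dfn.or | apply Dfn.imp | apply Dfn.iff
        | apply hB.bex | apply hB.ball | apply Dfn.ex | apply Dfn.all
        | apply Dfn.eq | apply Dfn.mem | apply hB.pair')
    · obtain ⟨z0, hz0⟩ := hne y hy
      obtain ⟨α0, hα0⟩ := h4 z0 (ZFSet.mem_sUnion.2 ⟨y, hy, hz0⟩)
      obtain ⟨α, ⟨z, hz, hαz⟩, hmin⟩ := ZFSet.mem_wf.has_min {α | ∃ z ∈ y, pair α z ∈ e}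
        ⟨α0, z0, hz0, hα0⟩
      have hαM := (hM.of_pair_mem (hM.trans _ he _ hαz)).1
      have hmin' : ∀ β ∈ α, ∀ z' ∈ y, pair β z' ∉ e := fun β hβ z' hz' h5 =>
        hmin β ⟨z', hz', h5⟩ hβ
      refine ⟨z, ⟨hz, ZFSet.mem_sep.2 ⟨ZFSet.mem_sUnion.2 ⟨y, hy, hz⟩, y, hy, hz, α, hαM, hαz,
        hmin'⟩⟩, ?_⟩
      rintro z1 ⟨hz1, hz1'⟩
      obtain ⟨-, y1, hy1, hzy1, α1, hα1, h5, h6⟩ := ZFSet.mem_sep.1 hz1'
      obtain rfl := hdis y hy y1 hy1 z1 hz1 hzy1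
      have ho : ∀ α z, pair α z ∈ e → α.IsOrdinal := by
        intro α z h
        obtain ⟨β, w, h7, h8⟩ := h3.1 _ h
        rw [(ZFSet.pair_inj.1 h7).1]
        exact h8
      have h7 : α1 = α := by
        rcases (ho _ _ h5).mem_trichotomous (ho _ _ hαz) with h | h | h
        · exact absurd h5 (hmin' _ h z1 hz1)
        · exact h
        · exact absurd hαz (h6 _ h z hz)
      rw [h7] at h5
      exact h3.2 _ _ _ h5 hαz

end choice

end Pool.Agent.W868.KP
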