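import Pool.Agent.W868.KP.Los

/-!
# Closure of the two models under definable operations; ordinals; ZF
-/

set_option autoImplicit false
set_option linter.unreachableTactic false
set_option linter.unusedTactic false
set_option linter.unusedSectionVars false

namespace Pool.Agent.W868.KP

open ZFSet (pair)

section basic

variable {W : Set ZFSet.{0}} {k : ZFSet.{0}} {u : Bool → ZFSet.{0}} (h2 : Two W k u)

include h2

theorem Two.or {i : Bool} {R S : ZFSet.{0} → Prop} (hR : ZFSet.sep R k ∈ W)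
    (hS : ZFSet.sep S k ∈ W) (h : Ae k (u i) fun ξ => R ξ ∨ S ξ) : Ae k (u i) R ∨ Ae k (u i) S := by
  by_contra h1
  push Not at h1
  obtain ⟨h3, h4⟩ := h1
  rw [(h2.meas i).not hR] at h3
  rw [(h2.meas i).not hS] at h4
  obtain ⟨ξ, -, h5, h6, h7⟩ := (h2.meas i).ex h2.zf ((h2.meas i).and h ((h2.meas i).and h3 h4))
  rcases h5 with h5 | h5
  exacts [h6 h5, h7 h5]

theorem Two.sepeq {f g : ZFSet.{0}} (hf : f ∈ W) (hg : g ∈ W) :
    ZFSet.sep (fun ξ => ap f ξ = ap g ξ) k ∈ W :=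
  sepW h2.zf (h2.meas true) (dfn_apeq h2.zf (h2.meas true) (h2.wf true) hf hg)

theorem Two.sepmem {f g : ZFSet.{0}} (hf : f ∈ W) (hg : g ∈ W) :
    ZFSet.sep (fun ξ => ap f ξ ∈ ap g ξ) k ∈ W :=
  sepW h2.zf (h2.meas true) (dfn_apmem h2.zf (h2.meas true) (h2.wf true) hf hg)

theorem Two.sep {R : ZFSet.{0} → Prop}
    (hR : Dfn W W fun w : Fin 1 → ZFSet.{0} => R (w 0)) : ZFSet.sep R k ∈ W :=
  sepW h2.zf (h2.meas true) hR

theorem Two.eq_iff {i : Bool} {f g : ZFSet.{0}} (hf : f ∈ W) (hg : g ∈ W) :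
    cu W k (u i) f = cu W k (u i) g ↔ Ae k (u i) fun ξ => ap f ξ = ap g ξ :=
  cu_eq_iff h2.zfc (h2.meas i) (h2.wf i) hf hg

theorem Two.mem_iff {i : Bool} {f g : ZFSet.{0}} (hf : f ∈ W) (hg : g ∈ W) :
    cu W k (u i) f ∈ cu W k (u i) g ↔ Ae k (u i) fun ξ => ap f ξ ∈ ap g ξ :=
  cu_mem_iff h2.zfc (h2.meas i) (h2.wf i) hf hg

theorem Two.mem_cu {i : Bool} {f y : ZFSet.{0}} (hf : f ∈ W) : y ∈ cu W k (u i) f ↔
    ∃ g ∈ W, (Ae k (u i) fun ξ => ap g ξ ∈ ap f ξ) ∧ y = cu W k (u i) g :=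
  KP.mem_cu h2.zf (h2.meas i) (h2.wf i) hf

theorem cu_upair {i : Bool} {a b c : ZFSet.{0}} (ha : a ∈ W) (hb : b ∈ W) (hc : c ∈ W)
    (h : Ae k (u i) fun ξ => ap c ξ = {ap a ξ, ap b ξ}) :
    cu W k (u i) c = {cu W k (u i) a, cu W k (u i) b} := by
  have hm := h2.meas i
  ext y
  rw [h2.mem_cu hc, ZFSet.mem_pair]
  constructor
  · rintro ⟨g, hg, h3, rfl⟩
    have h4 : Ae k (u i) fun ξ => ap g ξ = ap a ξ ∨ ap g ξ = ap b ξ := by
      have hs : ZFSet.sep (fun ξ => ap g ξ = ap a ξ ∨ ap g ξ = ap b ξ) k ∈ W :=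
        h2.sep ((dfn_apeq h2.zf hm (h2.wf i) hg ha).or (dfn_apeq h2.zf hm (h2.wf i) hg hb))
      refine hm.mono hs (hm.and h h3) ?_
      rintro ξ - ⟨h5, h6⟩
      rw [h5] at h6
      exact ZFSet.mem_pair.1 h6
    rcases h2.or (h2.sepeq hg ha) (h2.sepeq hg hb) h4 with h5 | h5
    · exact Or.inl ((h2.eq_iff hg ha).2 h5)
    · exact Or.inr ((h2.eq_iff hg hb).2 h5)
  · rintro (rfl | rfl)
    · refine ⟨a, ha, hm.mono (h2.sepmem ha hc) h fun ξ _ h5 => ?_, rfl⟩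
      rw [h5]
      exact ZFSet.mem_pair.2 (Or.inl rfl)
    · refine ⟨b, hb, hm.mono (h2.sepmem hb hc) h fun ξ _ h5 => ?_, rfl⟩
      rw [h5]
      exact ZFSet.mem_pair.2 (Or.inr rfl)

theorem cu_pair {i : Bool} {a b c : ZFSet.{0}} (ha : a ∈ W) (hb : b ∈ W) (hc : c ∈ W)
    (h : Ae k (u i) fun ξ => ap c ξ = pair (ap a ξ) (ap b ξ)) :
    cu W k (u i) c = pair (cu W k (u i) a) (cu W k (u i) b) := by
  have hm := h2.meas i
  have hW := h2.zf
  have hB := hW.base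
  have hk := h2.kW
  have h3 : gr (fun ξ => {ap a ξ, ap a ξ}) k ∈ W := h2.grW hk (hB.upair'
    (hW.ap' (DfnF.const ha) (DfnF.proj 0)) (hW.ap' (DfnF.const ha) (DfnF.proj 0)))
  have h4 : gr (fun ξ => {ap a ξ, ap b ξ}) k ∈ W := h2.grW hk (hB.upair'
    (hW.ap' (DfnF.const ha) (DfnF.proj 0)) (hW.ap' (DfnF.const hb) (DfnF.proj 0)))
  have hs : Dfn W W fun w : Fin 1 → ZFSet.{0} => ap c (w 0) =
      {ap (gr (fun ξ => {ap a ξ, ap a ξ}) k) (w 0), ap (gr (fun ξ => {ap a ξ, ap b ξ}) k) (w 0)} := by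
    refine Dfn.eq (hW.ap' (DfnF.const hc) (DfnF.proj 0)) (hB.upair' ?_ ?_)
    · exact hW.ap' (DfnF.const h3) (DfnF.proj 0)
    · exact hW.ap' (DfnF.const h4) (DfnF.proj 0)
  have h5 : Ae k (u i) fun ξ => ap c ξ = {ap (gr (fun ξ => {ap a ξ, ap a ξ}) k) ξ,
      ap (gr (fun ξ => {ap a ξ, ap b ξ}) k) ξ} := by
    refine hm.mono (h2.sep (R := fun ξ => ap c ξ = {ap (gr (fun ξ => {ap a ξ, ap a ξ}) k) ξ,
      ap (gr (fun ξ => {ap a ξ, ap b ξ}) k) ξ}) hs) h fun ξ hξ h5 => ?_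
    rw [h5, ap_gr hξ, ap_gr hξ, ZFSet.pair_eq_singleton]
    rfl
  rw [cu_upair h2 h3 h4 hc h5, cu_upair h2 ha ha h3 (hm.all fun ξ hξ => ap_gr hξ),
    cu_upair h2 ha hb h4 (hm.all fun ξ hξ => ap_gr hξ), ZFSet.pair_eq_singleton]
  rfl

/-! ### Ordinals -/

theorem isOrdinal_cu {i : Bool} : ∀ f ∈ W, (Ae k (u i) fun ξ => (ap f ξ).IsOrdinal) →
    (cu W k (u i) f).IsOrdinal := by
  intro f
  have hm := h2.meas i
  induction f using (h2.wf i).induction with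
  | _ f ih =>
    intro hf h
    have hord : ∀ g ∈ W, ZFSet.sep (fun ξ => (ap g ξ).IsOrdinal) k ∈ W := fun g hg =>
      h2.sep (h2.zf.base.isOrdinal' (h2.zf.ap' (DfnF.const hg) (DfnF.proj 0)))
    have h3 : ∀ y ∈ cu W k (u i) f, y.IsOrdinal ∧ ∀ z ∈ y, z ∈ cu W k (u i) f := by
      intro y hy
      obtain ⟨g, hg, h4, rfl⟩ := (h2.mem_cu hf).1 hy
      have h5 : Ae k (u i) fun ξ => (ap g ξ).IsOrdinal :=
        hm.mono (hord g hg) (hm.and h h4) fun ξ _ h6 => h6.1.mem h6.2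
      refine ⟨ih g ⟨hg, hf, h4⟩ hg h5, fun z hz => ?_⟩
      obtain ⟨e, he, h6, rfl⟩ := (h2.mem_cu hg).1 hz
      rw [h2.mem_iff he hf]
      exact hm.mono (h2.sepmem he hf) (hm.and h (hm.and h4 h6)) fun ξ _ h7 =>
        h7.1.mem_trans h7.2.2 h7.2.1
    refine ⟨fun y hy z hz => (h3 y hy).2 z hz, fun {x y z} hx hy hz => ?_⟩
    exact (h3 z hz).1.mem_trans hx hy

theorem ap_const {a ξ : ZFSet.{0}} (hξ : ξ ∈ k) : ap (gr (fun _ => a) k) ξ = a := ap_gr hξ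

theorem Two.cW {a : ZFSet.{0}} (ha : a ∈ W) : gr (fun _ => a) k ∈ W :=
  h2.grW h2.kW (DfnF.const ha)

theorem subset_const {i : Bool} {α : ZFSet.{0}} (hα : α ∈ W) (ho : α.IsOrdinal) :
    α ⊆ cu W k (u i) (gr (fun _ => α) k) := by
  have hm := h2.meas i
  induction α using ZFSet.inductionOn with
  | _ α ih =>
  intro β hβ
  have hβW := h2.zf.trans _ hα _ hβ
  have hβo := ho.mem hβ
  have h3 : cu W k (u i) (gr (fun _ => β) k) ∈ cu W k (u i) (gr (fun _ => α) k) := by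
    rw [h2.mem_iff (h2.cW hβW) (h2.cW hα)]
    refine hm.all fun ξ hξ => ?_
    rwa [ap_const h2 hξ, ap_const h2 hξ]
  have h4 : (cu W k (u i) (gr (fun _ => α) k)).IsOrdinal := by
    refine isOrdinal_cu h2 _ (h2.cW hα) (hm.all fun ξ hξ => ?_)
    rwa [ap_const h2 hξ]
  have h5 := ih β hβ hβW hβo
  have h6 := h4.mem h3
  rcases (ZFSet.IsOrdinal.subset_iff_eq_or_mem hβo h6).1 h5 with h7 | h7
  · rwa [h7]
  · exact h4.mem_trans h7 h3

/-- Every ordinal is represented by a function whose values are ordinals. -/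
theorem ord_rep {i : Bool} {α : ZFSet.{0}} (hα : α ∈ W) (ho : α.IsOrdinal) :
    ∃ f ∈ W, (∀ ξ ∈ k, (ap f ξ).IsOrdinal) ∧ cu W k (u i) f = α := by
  classical
  have hm := h2.meas i
  have hW := h2.zf
  have hB := hW.base
  have h4 : (cu W k (u i) (gr (fun _ => α) k)).IsOrdinal := by
    refine isOrdinal_cu h2 _ (h2.cW hα) (hm.all fun ξ hξ => ?_)
    rwa [ap_const h2 hξ]
  rcases (ZFSet.IsOrdinal.subset_iff_eq_or_mem ho h4).1 (subset_const h2 hα ho) with h7 | h7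
  · exact ⟨_, h2.cW hα, fun ξ hξ => by rwa [ap_const h2 hξ], h7.symm⟩
  · obtain ⟨g, hg, h5, h6⟩ := (h2.mem_cu (h2.cW hα)).1 h7
    let F : ZFSet.{0} → ZFSet.{0} := fun ξ => if (ap g ξ).IsOrdinal then ap g ξ else ∅
    have hF : DfnF W W fun w : Fin 1 → ZFSet.{0} => F (w 0) := by
      refine DfnF.ite (Q := fun w : Fin 1 → ZFSet.{0} => (ap g (w 0)).IsOrdinal) ?_ ?_ ?_
      · exact hB.isOrdinal' (hW.ap' (DfnF.const hg) (DfnF.proj 0))
      · exact hW.ap' (DfnF.const hg) (DfnF.proj 0)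
      · exact DfnF.const hW.empty_mem
    refine ⟨gr F k, h2.grW h2.kW hF, fun ξ hξ => ?_, ?_⟩
    · rw [ap_gr hξ]
      by_cases h8 : (ap g ξ).IsOrdinal
      · simpa only [F, if_pos h8] using h8
      · simpa only [F, if_neg h8] using ZFSet.isOrdinal_empty
    · rw [h6, h2.eq_iff (h2.grW h2.kW hF) hg]
      refine hm.mono (h2.sepeq (h2.grW h2.kW hF) hg) h5 fun ξ hξ h8 => ?_
      rw [ap_const h2 hξ] at h8
      rw [ap_gr hξ]
      exact if_pos (ho.mem h8)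

theorem ord_MM {i : Bool} {α : ZFSet.{0}} (hα : α ∈ W) (ho : α.IsOrdinal) : α ∈ MM W k u i := by
  refine coind h2 (fun _ => {x | x ∈ W ∧ x.IsOrdinal}) (fun i => ?_) (fun i x hx => hx.1)
    (fun i x hx => ?_) i ⟨hα, ho⟩
  · have h3 : Dfn W W fun w : Fin 1 → ZFSet.{0} => (w 0).IsOrdinal :=
      h2.zf.base.isOrdinal' (DfnF.proj 0)
    exact h3.congr fun w hw => ⟨fun h => ⟨hw 0, h⟩, fun h => h.2⟩
  · obtain ⟨f, hf, h3, h4⟩ := ord_rep h2 (i := i) hx.1 hx.2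
    exact ⟨f, hf, fun ξ hξ => ⟨h2.apW hf (h2.zf.trans _ h2.kW _ hξ), h3 ξ hξ⟩, h4⟩

end basic

/-! ### The closure lemma -/

section closure

variable {W : Set ZFSet.{0}} {k : ZFSet.{0}} {u : Bool → ZFSet.{0}} (h2 : Two W k u)

/-- The set of the elements of the model with a given property, when the parameters are
interpreted by `p`. -/
noncomputable def Sset (W : Set ZFSet.{0}) (k : ZFSet.{0}) (u : Bool → ZFSet.{0}) (i : Bool)
    (ψ : Fml ZFSet.{0} 1) (p : ZFSet.{0}) : ZFSet.{0} :=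
  ZFSet.sep (fun w => w ∈ MM W k u i ∧ Sat (MM W k u i) (fun a => ap p a) ψ ![w])
    (Vl W (lo W fun δ => ∀ w ∈ W, (w ∈ MM W k u i ∧ Sat (MM W k u i) (fun a => ap p a) ψ ![w]) →
      w ∈ Vl W δ))

/-- The property is bounded. -/
def Bdd (W : Set ZFSet.{0}) (k : ZFSet.{0}) (u : Bool → ZFSet.{0}) (P : ZFSet.{0})
    (ψ : Fml ZFSet.{0} 1) : Prop :=
  ∀ i, ∀ p ∈ W, (∀ a ∈ P, ap p a ∈ MM W k u i) → ∃ Y ∈ W, ∀ w ∈ MM W k u i,
    Sat (MM W k u i) (fun a => ap p a) ψ ![w] → w ∈ Y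

include h2

theorem Two.satD (i : Bool) (ψ : Fml ZFSet.{0} 1) (hψ : ψ.Over W) {m : ℕ}
    {F G : (Fin m → ZFSet.{0}) → ZFSet.{0}} (hF : DfnF W W F) (hG : DfnF W W G) :
    Dfn W W fun v => Sat (MM W k u i) (fun a => ap (F v) a) ψ ![G v] := by
  have h3 := dfn_satI (dfn_MM h2 i) (MM_subset h2 i) ψ hψ (m := m) (fun a v => ap (F v) a)
    (fun a ha => h2.zf.ap' hF (DfnF.const ha)) (fun _ => G) (fun _ => hG)
  refine h3.congr fun w _ => ?_
  have h4 : (fun _ : Fin 1 => G w) = ![G w] := by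
    funext j
    fin_cases j
    rfl
  rw [h4]

theorem mem_Sset {P : ZFSet.{0}} {ψ : Fml ZFSet.{0} 1} (hψ : ψ.Over W) (hb : Bdd W k u P ψ)
    {i : Bool} {p : ZFSet.{0}} (hp : p ∈ W) (hpP : ∀ a ∈ P, ap p a ∈ MM W k u i) {w : ZFSet.{0}} :
    w ∈ Sset W k u i ψ p ↔ w ∈ MM W k u i ∧ Sat (MM W k u i) (fun a => ap p a) ψ ![w] := by
  obtain ⟨Y, hY, h3⟩ := hb i p hp hpP
  obtain ⟨δ, hδ, hδo, h4⟩ := h2.zf.exists_Vl hY
  obtain ⟨δ', hδ', -, h5⟩ := mem_Vl.1 h4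
  have h6 := lo_spec (M := W) (P := fun δ => ∀ w ∈ W, (w ∈ MM W k u i ∧
    Sat (MM W k u i) (fun a => ap p a) ψ ![w]) → w ∈ Vl W δ)
    ⟨δ', h2.zf.trans _ hδ _ hδ', hδo.mem hδ', fun w _ hw => h5 (h3 w hw.1 hw.2)⟩
  rw [Sset, ZFSet.mem_sep]
  constructor
  · exact fun h => h.2
  · exact fun h => ⟨h6.2.2 w (MM_subset h2 i h.1) h, h⟩

theorem dfn_Sset (i : Bool) {ψ : Fml ZFSet.{0} 1} (hψ : ψ.Over W) {m : ℕ}
    {F : (Fin m → ZFSet.{0}) → ZFSet.{0}} (hF : DfnF W W F) :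
    DfnF W W fun v => Sset W k u i ψ (F v) := by
  have hW := h2.zf
  have hVl : ∀ {m : ℕ} {F : (Fin m → ZFSet.{0}) → ZFSet.{0}}, DfnF W W F →
      DfnF W W fun v => Vl W (F v) := fun hF => DfnF.comp1 (f := Vl W) hW.dfn_Vl hF
  refine hW.sep' (Q := fun w v => w ∈ MM W k u i ∧ Sat (MM W k u i) (fun a => ap (F v) a) ψ ![w])
    (hVl (hW.lo' (Q := fun δ v => ∀ w ∈ W, (w ∈ MM W k u i ∧
      Sat (MM W k u i) (fun a => ap (F v) a) ψ ![w]) → w ∈ Vl W δ) ?_)) ?_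
  · apply Dfn.all
    refine ((h2.MMd i (DfnF.proj 0)).and (h2.satD i ψ hψ hF.tail.tail (DfnF.proj 0))).imp ?_
    exact Dfn.mem (DfnF.proj 0) (hVl (DfnF.proj 1))
  · exact (h2.MMd i (DfnF.proj 0)).and (h2.satD i ψ hψ hF.tail (DfnF.proj 0))

/-- The closure lemma. -/
theorem closure {P : ZFSet.{0}} (hP : P ∈ W) {ψ : Fml ZFSet.{0} 1} (hψ : ψ.Over {a | a ∈ P})
    (hb : Bdd W k u P ψ) (i : Bool) {p : ZFSet.{0}} (hp : p ∈ W)
    (hpP : ∀ a ∈ P, ap p a ∈ MM W k u i) : ∃ y ∈ MM W k u i, ∀ w, w ∈ y ↔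
      w ∈ MM W k u i ∧ Sat (MM W k u i) (fun a => ap p a) ψ ![w] := by
  have hW := h2.zf
  have hB := hW.base
  have hk := h2.kW
  have hPW : {a | a ∈ P} ⊆ W := fun a ha => hW.trans _ hP _ ha
  have hψW : ψ.Over W := Fml.Over.mono hPW hψ
  refine ⟨Sset W k u i ψ p, ?_, fun w => mem_Sset h2 hψW hb hp hpP⟩
  refine coind h2 (fun i => {y | ∃ p ∈ W, (∀ a ∈ P, ap p a ∈ MM W k u i) ∧ y = Sset W k u i ψ p})
    (fun i => ?_) (fun i => ?_) (fun i y hy => ?_) i ⟨p, hp, hpP, rfl⟩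
  · have h3 : Dfn W W fun w : Fin 1 → ZFSet.{0} => ∃ p ∈ W, (∀ a ∈ P, ap p a ∈ MM W k u i) ∧
        w 0 = Sset W k u i ψ p := by
      apply Dfn.ex
      refine (hB.ball (DfnF.const hP) (h2.MMd i (hW.ap' (DfnF.proj 1) (DfnF.proj 0)))).and ?_
      exact Dfn.eq (DfnF.proj 1) (dfn_Sset h2 i hψW (DfnF.proj 0))
    exact h3
  · rintro y ⟨p, hp, -, rfl⟩
    exact (dfn_Sset h2 i hψW (DfnF.const hp)).1 Fin.elim0 fun j => j.elim0
  · obtain ⟨p, hp, hpP, rfl⟩ := hy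
    have hR : Dfn W W fun w : Fin 2 → ZFSet.{0} => (∀ ξ ∈ k, ap (w 0) ξ ∈ MM W k u (!i)) ∧
        cu W k (u i) (w 0) = ap p (w 1) := by
      refine (hB.ball (DfnF.const hk) (h2.MMd _ (hW.ap' (DfnF.proj 1) (DfnF.proj 0)))).and ?_
      exact Dfn.eq (h2.cuD i (DfnF.proj 0)) (hW.ap' (DfnF.const hp) (DfnF.proj 1))
    obtain ⟨h, hh, -, -, h3⟩ := h2.zfc.choose hP (Q := fun f a =>
      (∀ ξ ∈ k, ap f ξ ∈ MM W k u (!i)) ∧ cu W k (u i) f = ap p a) hR fun a ha => by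
        obtain ⟨f, hf, h4, h5⟩ := MM_rep h2 (hpP a ha)
        exact ⟨f, hf, h4, h5⟩
    let e : ZFSet.{0} → ZFSet.{0} := fun ξ => gr (fun a => ap (ap h a) ξ) P
    have he : DfnF W W fun w : Fin 1 → ZFSet.{0} => e (w 0) := by
      refine hW.im' (h := fun a w => pair a (ap (ap h a) (w 0))) (DfnF.const hP) ?_
      exact hB.pair' (DfnF.proj 0) (hW.ap' (hW.ap' (DfnF.const hh) (DfnF.proj 0)) (DfnF.proj 1))
    have heW : ∀ ξ ∈ k, e ξ ∈ W := fun ξ hξ => he.1 ![ξ] fun j => by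
      fin_cases j
      exact hW.trans _ hk _ hξ
    have heP : ∀ ξ ∈ k, ∀ a ∈ P, ap (e ξ) a = ap (ap h a) ξ := fun ξ _ a ha => ap_gr ha
    have heM : ∀ ξ ∈ k, ∀ a ∈ P, ap (e ξ) a ∈ MM W k u (!i) := fun ξ hξ a ha => by
      rw [heP ξ hξ a ha]
      exact (h3 a ha).1 ξ hξ
    have hFd : DfnF W W fun w : Fin 1 → ZFSet.{0} => Sset W k u (!i) ψ (e (w 0)) :=
      dfn_Sset h2 _ hψW he
    have hFW := h2.grW (F := fun ξ => Sset W k u (!i) ψ (e ξ)) hk hFd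
    refine ⟨gr (fun ξ => Sset W k u (!i) ψ (e ξ)) k, hFW, fun ξ hξ => ?_, ?_⟩
    · rw [ap_gr hξ]
      exact ⟨e ξ, heW ξ hξ, heM ξ hξ, rfl⟩
    · have hpar : ∀ a ∈ {a | a ∈ P}, Ae k (u i) fun ξ => ap (ap h a) ξ ∈ MM W k u (!i) :=
        fun a ha => (h2.meas i).all (h3 a ha).1
      have key : ∀ g ∈ W, (Ae k (u i) fun ξ => ap g ξ ∈ MM W k u (!i)) →
          ((Ae k (u i) fun ξ => ap g ξ ∈ Sset W k u (!i) ψ (e ξ)) ↔
            Sat (MM W k u i) (fun a => ap p a) ψ ![cu W k (u i) g]) := by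
        intro g hg hgM
        have h5 := los h2 i hh hPW hpar ψ hψ ![g] fun j => by
          fin_cases j
          exact ⟨hg, hgM⟩
        have h6 : (fun j => cu W k (u i) ((![g] : Fin 1 → ZFSet.{0}) j)) =
            ![cu W k (u i) g] := by
          funext j
          fin_cases j
          rfl
        have h7 : ∀ ξ, (fun j => ap ((![g] : Fin 1 → ZFSet.{0}) j) ξ) = ![ap g ξ] := by
          intro ξ
          funext j
          fin_cases j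
          rfl
        simp only [h6, h7] at h5
        rw [← sat_congrI (I := fun a => cu W k (u i) (ap h a)) (J := fun a => ap p a)
          (S := {a | a ∈ P}) (fun a ha => (h3 a ha).2) ψ hψ, h5]
        have h8 : ∀ ξ ∈ k, (ap g ξ ∈ Sset W k u (!i) ψ (e ξ) ↔ ap g ξ ∈ MM W k u (!i) ∧
            Sat (MM W k u (!i)) (fun a => ap (ap h a) ξ) ψ ![ap g ξ]) := by
          intro ξ hξ
          rw [mem_Sset h2 hψW hb (heW ξ hξ) (heM ξ hξ)]
          refine and_congr_right fun _ => ?_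
          exact sat_congrI (S := {a | a ∈ P}) (fun a ha => heP ξ hξ a ha) ψ hψ _
        have hdS : ZFSet.sep (fun ξ => Sat (MM W k u (!i)) (fun a => ap (ap h a) ξ) ψ
            ![ap g ξ]) k ∈ W := by
          refine h2.sep ?_
          have h9 := dfn_satI (dfn_MM h2 (!i)) (MM_subset h2 (!i)) ψ hψW (m := 1)
            (fun a w => ap (ap h a) (w 0)) (fun a ha => hW.ap' (DfnF.const (h2.apW hh ha))
            (DfnF.proj 0)) (fun _ w => ap g (w 0)) (fun _ => hW.ap' (DfnF.const hg) (DfnF.proj 0))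
          refine h9.congr fun w _ => ?_
          have h10 : (fun _ : Fin 1 => ap g (w 0)) = ![ap g (w 0)] := by
            funext j
            fin_cases j
            rfl
          rw [h10]
        constructor
        · exact fun h9 => (h2.meas i).mono hdS h9 fun ξ hξ h10 => ((h8 ξ hξ).1 h10).2
        · intro h9
          exact ((h2.meas i).and hgM h9).congr fun ξ hξ => (h8 ξ hξ).symm
      ext w
      rw [h2.mem_cu hFW, mem_Sset h2 hψW hb hp hpP]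
      constructor
      · rintro ⟨g, hg, h5, rfl⟩
        have h6 : Ae k (u i) fun ξ => ap g ξ ∈ Sset W k u (!i) ψ (e ξ) := h5.congr fun ξ hξ => by
          rw [ap_gr hξ]
        have h7 : Ae k (u i) fun ξ => ap g ξ ∈ MM W k u (!i) := by
          refine (h2.meas i).mono (h2.sep (h2.MMd _ (hW.ap' (DfnF.const hg) (DfnF.proj 0)))) h6
            fun ξ hξ h8 => ?_
          exact ((mem_Sset h2 hψW hb (heW ξ hξ) (heM ξ hξ)).1 h8).1
        exact ⟨cu_MM h2 hg h7, (key g hg h7).1 h6⟩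
      · rintro ⟨h5, h6⟩
        obtain ⟨g, hg, h7, rfl⟩ := MM_rep h2 h5
        refine ⟨g, hg, ?_, rfl⟩
        exact ((key g hg ((h2.meas i).all h7)).2 h6).congr fun ξ hξ => by rw [ap_gr hξ]

end closure

end Pool.Agent.W868.KP
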