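import Pool.Agent.W868.KP.Ult

/-!
# The two coinductive models
-/

set_option autoImplicit false
set_option linter.unreachableTactic false
set_option linter.unusedTactic false
set_option linter.unusedSectionVars false

namespace Pool.Agent.W868.KP

open ZFSet (pair)

/-- Two normal ultrafilters of the model `W`, with well-founded ultrapowers. -/
structure Two (W : Set ZFSet.{0}) (k : ZFSet.{0}) (u : Bool → ZFSet.{0}) : Prop where
  zfc : IsZFC W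
  meas : ∀ i, IsMeas W k (u i)
  wf : ∀ i, WellFounded (Er W k (u i))

/-- Every element of `D i` is the collapse of a function into `D (!i)`. -/
def Prog (W : Set ZFSet.{0}) (k : ZFSet.{0}) (u : Bool → ZFSet.{0})
    (D : Bool → Set ZFSet.{0}) : Prop :=
  ∀ i, ∀ x ∈ D i, ∃ f ∈ W, (∀ ξ ∈ k, ap f ξ ∈ D (!i)) ∧ cu W k (u i) f = x

/-- The two models. -/
def MM (W : Set ZFSet.{0}) (k : ZFSet.{0}) (u : Bool → ZFSet.{0}) (i : Bool) :
    Set ZFSet.{0} :=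
  {x | ∃ A : Bool → ZFSet.{0}, (∀ j, A j ∈ W) ∧ Prog W k u (fun j => {y | y ∈ A j}) ∧ x ∈ A i}

section

variable {W : Set ZFSet.{0}} {k : ZFSet.{0}} {u : Bool → ZFSet.{0}} (h2 : Two W k u)

include h2

theorem Two.zf : IsZF W := h2.zfc.toIsZF

theorem Two.kW : k ∈ W := (h2.meas true).kW

theorem Two.cuD {n : ℕ} {F : (Fin n → ZFSet.{0}) → ZFSet.{0}} (i : Bool) (hF : DfnF W W F) :
    DfnF W W fun v => cu W k (u i) (F v) := cu' h2.zf (h2.meas i) (h2.wf i) hF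

theorem Two.cuW {f : ZFSet.{0}} (i : Bool) (hf : f ∈ W) : cu W k (u i) f ∈ W :=
  cu_mem h2.zf (h2.meas i) (h2.wf i) hf

theorem Two.apW {f a : ZFSet.{0}} (hf : f ∈ W) (ha : a ∈ W) : ap f a ∈ W :=
  ap_mem h2.zf (h2.meas true) hf ha

theorem MM_subset (i : Bool) : MM W k u i ⊆ W := by
  rintro x ⟨A, hA, -, hx⟩
  exact h2.zf.trans _ (hA i) _ hx

theorem dfn_MM (i : Bool) : Dfn W W fun w : Fin 1 → ZFSet.{0} => w 0 ∈ MM W k u i := by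
  have hW := h2.zf
  have hB := hW.base
  have hk := h2.kW
  have h : Dfn W W fun w : Fin 1 → ZFSet.{0} => ∃ A ∈ W, ∃ B ∈ W,
      (∀ x ∈ A, ∃ f ∈ W, (∀ ξ ∈ k, ap f ξ ∈ B) ∧ cu W k (u i) f = x) ∧
      (∀ x ∈ B, ∃ f ∈ W, (∀ ξ ∈ k, ap f ξ ∈ A) ∧ cu W k (u (!i)) f = x) ∧ w 0 ∈ A := by
    (repeat' first
      | exact DfnF.proj _
      | exact DfnF.const (by assumption)
      | apply Dfn.not | apply Dfn.and | apply Dfn.or | apply Dfn.imp | apply Dfn.iff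
      | apply hB.bex | apply hB.ball | apply Dfn.ex | apply Dfn.all
      | apply Dfn.eq | apply Dfn.mem | apply hW.ap' | apply h2.cuD)
  refine h.congr fun w _ => ?_
  constructor
  · rintro ⟨A, hA, B, hB, h3, h4, h5⟩
    refine ⟨fun j => if j = i then A else B, fun j => ?_, fun j x hx => ?_, ?_⟩
    · by_cases hj : j = i
      · simpa [hj] using hA
      · simpa [hj] using hB
    · by_cases hj : j = i
      · subst hj
        simp only [if_true, Set.mem_setOf_eq] at hx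
        obtain ⟨f, hf, h6, h7⟩ := h3 x hx
        refine ⟨f, hf, fun ξ hξ => ?_, h7⟩
        have : ¬ (!j) = j := by cases j <;> decide
        simpa [this] using h6 ξ hξ
      · have hji : j = !i := by cases i <;> cases j <;> simp_all
        subst hji
        simp only [hj, if_false, Set.mem_setOf_eq] at hx
        obtain ⟨f, hf, h6, h7⟩ := h4 x hx
        refine ⟨f, hf, fun ξ hξ => ?_, h7⟩
        simpa using h6 ξ hξ
    · simpa using h5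
  · rintro ⟨A, hA, h3, h4⟩
    refine ⟨A i, hA i, A (!i), hA _, fun x hx => h3 i x hx, fun x hx => ?_, h4⟩
    have := h3 (!i) x hx
    simpa using this

/-- Coinduction, with sets. -/
theorem coind_aux (D : Bool → Set ZFSet.{0})
    (hD : ∀ i, Dfn W W fun w : Fin 1 → ZFSet.{0} => w 0 ∈ D i) (hDW : ∀ i, D i ⊆ W)
    (hp : Prog W k u D) (i : Bool) (x : ZFSet.{0}) (hx : x ∈ D i) : ∃ δ ∈ W, x ∈ Vl W δ ∧
      (∀ j, ZFSet.sep (fun y => y ∈ D j) (Vl W δ) ∈ W) ∧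
      Prog W k u fun j => {y | y ∈ ZFSet.sep (fun y => y ∈ D j) (Vl W δ)} := by
  have hW := h2.zf
  have hB := hW.base
  have hk := h2.kW
  let Q : ZFSet.{0} → ZFSet.{0} → Prop := fun δ α => ∀ i : Bool, ∀ x ∈ Vl W α, x ∈ D i →
    ∃ f ∈ W, (∀ ξ ∈ k, ap f ξ ∈ D (!i) ∧ ap f ξ ∈ Vl W δ) ∧ cu W k (u i) f = x
  have hVl : ∀ {m : ℕ} {F : (Fin m → ZFSet.{0}) → ZFSet.{0}}, DfnF W W F →
      DfnF W W fun v => Vl W (F v) := fun hF => DfnF.comp1 (f := Vl W) hW.dfn_Vl hF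
  have hDn : ∀ (i : Bool) {m : ℕ} {F : (Fin m → ZFSet.{0}) → ZFSet.{0}}, DfnF W W F →
      Dfn W W fun v => F v ∈ D i := fun i _ _ hF => Dfn.comp1 (Q := fun x => x ∈ D i) (hD i) hF
  have hQd : ∀ i : Bool, Dfn W W fun w : Fin 2 → ZFSet.{0} => ∀ x ∈ Vl W (w 1), x ∈ D i →
      ∃ f ∈ W, (∀ ξ ∈ k, ap f ξ ∈ D (!i) ∧ ap f ξ ∈ Vl W (w 0)) ∧ cu W k (u i) f = x := by
    intro i
    refine hB.ball (hVl (DfnF.proj 1)) ((hDn i (DfnF.proj 0)).imp ?_)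
    apply Dfn.ex
    apply Dfn.and
    · refine hB.ball (DfnF.const hk) ?_
      refine (hDn _ (hW.ap' (DfnF.proj 1) (DfnF.proj 0))).and ?_
      exact Dfn.mem (hW.ap' (DfnF.proj 1) (DfnF.proj 0)) (hVl (DfnF.proj 3))
    · exact Dfn.eq (h2.cuD i (DfnF.proj 0)) (DfnF.proj 1)
  have hQ : Dfn W W fun w : Fin 2 → ZFSet.{0} => Q (w 0) (w 1) := by
    refine ((hQd false).and (hQd true)).congr fun w _ => ?_
    constructor
    · rintro ⟨h3, h4⟩ i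
      cases i
      exacts [h3, h4]
    · exact fun h3 => ⟨h3 false, h3 true⟩
  have hmono : ∀ α δ δ', δ ⊆ δ' → Q δ α → Q δ' α := by
    intro α δ δ' hδ h3 i x hx hxD
    obtain ⟨f, hf, h4, h5⟩ := h3 i x hx hxD
    exact ⟨f, hf, fun ξ hξ => ⟨(h4 ξ hξ).1, Vl_mono hδ (h4 ξ hξ).2⟩, h5⟩
  have hone : ∀ α ∈ W, ∀ i : Bool, ∃ δ ∈ W, δ.IsOrdinal ∧ ∀ x ∈ Vl W α, x ∈ D i →
      ∃ f ∈ W, (∀ ξ ∈ k, ap f ξ ∈ D (!i) ∧ ap f ξ ∈ Vl W δ) ∧ cu W k (u i) f = x := by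
    intro α hα i
    have hX : ZFSet.sep (fun x => x ∈ D i) (Vl W α) ∈ W :=
      hW.sep_mem (hDn i (DfnF.proj 0)) (hW.Vl_mem hα)
    have hR : Dfn W W fun w : Fin 2 → ZFSet.{0} => (∀ ξ ∈ k, ap (w 0) ξ ∈ D (!i)) ∧
        cu W k (u i) (w 0) = w 1 := by
      apply Dfn.and
      · exact hB.ball (DfnF.const hk) (hDn _ (hW.ap' (DfnF.proj 1) (DfnF.proj 0)))
      · exact Dfn.eq (h2.cuD i (DfnF.proj 0)) (DfnF.proj 1)
    obtain ⟨Y, hY, h3⟩ := hW.collect hX (Q := fun f x => (∀ ξ ∈ k, ap f ξ ∈ D (!i)) ∧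
      cu W k (u i) f = x) hR fun x hx => by
        obtain ⟨f, hf, h4, h5⟩ := hp i x (ZFSet.mem_sep.1 hx).2
        exact ⟨f, hf, h4, h5⟩
    have hZ : ZFSet.sUnion (im (fun f => im (fun ξ => ap f ξ) k) Y) ∈ W := by
      refine hW.union _ (hW.im_mem hY (hW.im' (h := fun ξ v => ap (v 0) ξ) (DfnF.const hk) ?_))
      exact hW.ap' (DfnF.proj 1) (DfnF.proj 0)
    obtain ⟨ζ, hζ, hζo, h4⟩ := hW.exists_Vl hZ
    obtain ⟨δ, hδ, -, h5⟩ := mem_Vl.1 h4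
    refine ⟨δ, hW.trans _ hζ _ hδ, hζo.mem hδ, fun x hx hxD => ?_⟩
    obtain ⟨f, hf, h6, h7⟩ := h3 x (ZFSet.mem_sep.2 ⟨hx, hxD⟩)
    refine ⟨f, hW.trans _ hY _ hf, fun ξ hξ => ⟨h6 ξ hξ, h5 ?_⟩, h7⟩
    exact ZFSet.mem_sUnion.2 ⟨_, mem_im.2 ⟨f, hf, rfl⟩, mem_im.2 ⟨ξ, hξ, rfl⟩⟩
  have hex : ∀ α ∈ W, ∃ δ ∈ W, δ.IsOrdinal ∧ Q δ α := by
    intro α hα
    obtain ⟨δ, hδ, hδo, h3⟩ := hone α hα false
    obtain ⟨δ', hδ', hδo', h4⟩ := hone α hα true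
    refine ⟨δ ∪ δ', hW.union_mem hδ hδ', isOrdinal_union hδo hδo', fun i x hx hxD => ?_⟩
    cases i
    · obtain ⟨f, hf, h5, h6⟩ := h3 x hx hxD
      exact ⟨f, hf, fun ξ hξ => ⟨(h5 ξ hξ).1,
        Vl_mono (fun z hz => ZFSet.mem_union.2 (Or.inl hz)) (h5 ξ hξ).2⟩, h6⟩
    · obtain ⟨f, hf, h5, h6⟩ := h4 x hx hxD
      exact ⟨f, hf, fun ξ hξ => ⟨(h5 ξ hξ).1,
        Vl_mono (fun z hz => ZFSet.mem_union.2 (Or.inr hz)) (h5 ξ hξ).2⟩, h6⟩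
  let T : ZFSet.{0} → ZFSet.{0} := fun α => lo W fun δ => Q δ α
  have hT : DfnF W W fun w : Fin 1 → ZFSet.{0} => T (w 0) :=
    hW.lo' (Q := fun δ w => Q δ (w 0)) hQ
  have hTs : ∀ α ∈ W, Q (T α) α := fun α hα => (lo_spec (hex α hα)).2.2
  obtain ⟨α0, hα0, hα0o, hx0⟩ := hW.exists_Vl (hDW i hx)
  have hδW : itr T α0 ZFSet.omega ∈ W := itr_mem_M hW hα0 hW.infinity hT
  refine ⟨_, hδW, Vl_mono itr_base hx0, fun j =>
    hW.sep_mem (hDn j (DfnF.proj 0)) (hW.Vl_mem hδW), fun j y hy => ?_⟩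
  obtain ⟨hy1, hy2⟩ := ZFSet.mem_sep.1 hy
  obtain ⟨v, hv, hyW, h3⟩ := mem_Vl.1 hy1
  obtain ⟨n, hn⟩ := mem_itr_omega hv
  have h4 : y ∈ Vl W (itr T α0 (nat n)) := mem_Vl.2 ⟨v, hn, hyW, h3⟩
  obtain ⟨f, hf, h5, h6⟩ := hTs _ (itr_mem_M hW hα0 (hW.nat_mem n) hT) j y h4 hy2
  refine ⟨f, hf, fun ξ hξ => ZFSet.mem_sep.2 ⟨?_, (h5 ξ hξ).1⟩, h6⟩
  exact Vl_mono (itr_step (nat_mem_omega n)) (h5 ξ hξ).2

/-- Coinduction. -/
theorem coind (D : Bool → Set ZFSet.{0})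
    (hD : ∀ i, Dfn W W fun w : Fin 1 → ZFSet.{0} => w 0 ∈ D i) (hDW : ∀ i, D i ⊆ W)
    (hp : Prog W k u D) : ∀ i, D i ⊆ MM W k u i := by
  intro i x hx
  obtain ⟨δ, hδ, h3, h4, h5⟩ := coind_aux h2 D hD hDW hp i x hx
  exact ⟨_, h4, h5, ZFSet.mem_sep.2 ⟨h3, hx⟩⟩

theorem MM_iff {i : Bool} {x : ZFSet.{0}} : x ∈ MM W k u i ↔
    ∃ f ∈ W, (∀ ξ ∈ k, ap f ξ ∈ MM W k u (!i)) ∧ cu W k (u i) f = x := by
  have hW := h2.zf
  have hB := hW.base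
  have hk := h2.kW
  have key : ∀ i, ∀ x ∈ MM W k u i,
      ∃ f ∈ W, (∀ ξ ∈ k, ap f ξ ∈ MM W k u (!i)) ∧ cu W k (u i) f = x := by
    rintro i x ⟨A, hA, hp, hx⟩
    obtain ⟨f, hf, h3, h4⟩ := hp i x hx
    exact ⟨f, hf, fun ξ hξ => ⟨A, hA, hp, h3 ξ hξ⟩, h4⟩
  constructor
  · exact key i x
  · intro hx
    refine coind h2 (fun i => {x | ∃ f ∈ W, (∀ ξ ∈ k, ap f ξ ∈ MM W k u (!i)) ∧
      cu W k (u i) f = x}) (fun i => ?_) (fun i => ?_) (fun i x hx => ?_) i hx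
    · have h3 : Dfn W W fun w : Fin 1 → ZFSet.{0} => ∃ f ∈ W,
          (∀ ξ ∈ k, ap f ξ ∈ MM W k u (!i)) ∧ cu W k (u i) f = w 0 := by
        apply Dfn.ex
        apply Dfn.and
        · refine hB.ball (DfnF.const hk) ?_
          exact Dfn.comp1 (Q := fun x => x ∈ MM W k u (!i)) (dfn_MM h2 _)
            (hW.ap' (DfnF.proj 1) (DfnF.proj 0))
        · exact Dfn.eq (h2.cuD i (DfnF.proj 0)) (DfnF.proj 1)
      exact h3
    · rintro x ⟨f, hf, -, rfl⟩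
      exact h2.cuW i hf
    · obtain ⟨f, hf, h3, h4⟩ := hx
      exact ⟨f, hf, fun ξ hξ => key _ _ (h3 ξ hξ), h4⟩

/-- The collapse of a function with values in a model almost everywhere. -/
theorem cu_MM {i : Bool} {f : ZFSet.{0}} (hf : f ∈ W)
    (h : Ae k (u i) fun ξ => ap f ξ ∈ MM W k u (!i)) : cu W k (u i) f ∈ MM W k u i := by
  classical
  have hW := h2.zf
  have hB := hW.base
  have hk := h2.kW
  obtain ⟨ξ0, hξ0, h3⟩ := (h2.meas i).ex hW h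
  let F : ZFSet.{0} → ZFSet.{0} := fun ξ => if ap f ξ ∈ MM W k u (!i) then ap f ξ else ap f ξ0
  have hF : DfnF W W fun w : Fin 1 → ZFSet.{0} => F (w 0) := by
    refine DfnF.ite (Q := fun w : Fin 1 → ZFSet.{0} => ap f (w 0) ∈ MM W k u (!i)) ?_ ?_ ?_
    · exact Dfn.comp1 (Q := fun x => x ∈ MM W k u (!i)) (dfn_MM h2 _)
        (hW.ap' (DfnF.const hf) (DfnF.proj 0))
    · exact hW.ap' (DfnF.const hf) (DfnF.proj 0)
    · exact DfnF.const (MM_subset h2 _ h3)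
  have hgr : gr F k ∈ W := hW.im_mem (h := fun u => pair u (F u)) hk
    (hB.pair' (DfnF.proj 0) hF)
  rw [MM_iff h2]
  refine ⟨gr F k, hgr, fun ξ hξ => ?_, ?_⟩
  · rw [ap_gr hξ]
    by_cases h4 : ap f ξ ∈ MM W k u (!i)
    · simpa only [F, if_pos h4] using h4
    · simpa only [F, if_neg h4] using h3
  · rw [cu_eq_iff h2.zfc (h2.meas i) (h2.wf i) hgr hf]
    refine (h2.meas i).mono (sepW hW (h2.meas i) (dfn_apeq hW (h2.meas i) (h2.wf i) hgr hf))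
      h fun ξ hξ h4 => ?_
    rw [ap_gr hξ]
    exact if_pos h4

/-- Every element of a model is the collapse of a function into the other model. -/
theorem MM_rep {i : Bool} {x : ZFSet.{0}} (hx : x ∈ MM W k u i) :
    ∃ f ∈ W, (∀ ξ ∈ k, ap f ξ ∈ MM W k u (!i)) ∧ cu W k (u i) f = x := (MM_iff h2).1 hx

theorem trans_MM (i : Bool) : ∀ x ∈ MM W k u i, ∀ y ∈ x, y ∈ MM W k u i := by
  have hW := h2.zf
  have hB := hW.base
  have hk := h2.kW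
  have hMd : ∀ (i : Bool) {m : ℕ} {F : (Fin m → ZFSet.{0}) → ZFSet.{0}}, DfnF W W F →
      Dfn W W fun v => F v ∈ MM W k u i := fun i _ _ hF =>
    Dfn.comp1 (Q := fun x => x ∈ MM W k u i) (dfn_MM h2 i) hF
  intro x hx y hy
  refine coind h2 (fun i => {y | y ∈ MM W k u i ∨ ∃ x ∈ W, x ∈ MM W k u i ∧ y ∈ x})
    (fun i => ?_) (fun i => ?_) (fun i y hy => ?_) i (Or.inr ⟨x, MM_subset h2 i hx, hx, hy⟩)
  · have h3 : Dfn W W fun w : Fin 1 → ZFSet.{0} => w 0 ∈ MM W k u i ∨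
        ∃ x ∈ W, x ∈ MM W k u i ∧ w 0 ∈ x := by
      refine (hMd i (DfnF.proj 0)).or ?_
      apply Dfn.ex
      exact (hMd i (DfnF.proj 0)).and (Dfn.mem (DfnF.proj 1) (DfnF.proj 0))
    exact h3
  · rintro y (hy | ⟨x, hx, -, hy⟩)
    · exact MM_subset h2 i hy
    · exact hW.trans _ hx _ hy
  · rcases hy with hy | ⟨x, hx, hxM, hy⟩
    · obtain ⟨f, hf, h3, h4⟩ := MM_rep h2 hy
      exact ⟨f, hf, fun ξ hξ => Or.inl (h3 ξ hξ), h4⟩
    · classical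
      obtain ⟨f, hf, h3, rfl⟩ := MM_rep h2 hxM
      obtain ⟨g, hg, h4, rfl⟩ := (mem_cu hW (h2.meas i) (h2.wf i) hf).1 hy
      let F : ZFSet.{0} → ZFSet.{0} := fun ξ => if ap g ξ ∈ ap f ξ then ap g ξ else ap f ξ
      have hF : DfnF W W fun w : Fin 1 → ZFSet.{0} => F (w 0) := by
        refine DfnF.ite (Q := fun w : Fin 1 → ZFSet.{0} => ap g (w 0) ∈ ap f (w 0)) ?_ ?_ ?_
        · exact dfn_apmem hW (h2.meas i) (h2.wf i) hg hf
        · exact hW.ap' (DfnF.const hg) (DfnF.proj 0)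
        · exact hW.ap' (DfnF.const hf) (DfnF.proj 0)
      have hgr : gr F k ∈ W := hW.im_mem (h := fun u => pair u (F u)) hk
        (hB.pair' (DfnF.proj 0) hF)
      refine ⟨gr F k, hgr, fun ξ hξ => ?_, ?_⟩
      · rw [ap_gr hξ]
        have hξW := hW.trans _ hk _ hξ
        by_cases h5 : ap g ξ ∈ ap f ξ
        · have h6 : F ξ = ap g ξ := if_pos h5
          rw [h6]
          exact Or.inr ⟨ap f ξ, h2.apW hf hξW, h3 ξ hξ, h5⟩
        · have h6 : F ξ = ap f ξ := if_neg h5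
          rw [h6]
          exact Or.inl (h3 ξ hξ)
      · rw [cu_eq_iff h2.zfc (h2.meas i) (h2.wf i) hgr hg]
        refine (h2.meas i).mono (sepW hW (h2.meas i) (dfn_apeq hW (h2.meas i) (h2.wf i) hgr hg))
          h4 fun ξ hξ h5 => ?_
        rw [ap_gr hξ]
        exact if_pos h5

end

end Pool.Agent.W868.KP
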