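import Mathlib

/-!
# Normal ultrafilters, the product forcing with Easton supports, and the tail forcing
-/

set_option autoImplicit false

namespace Pool.Agent.W868.KP

open Filter

/-- A normal ultrafilter on the well-ordered set `K`: it contains all end segments, and every
regressive function is constant on a set of the ultrafilter. -/
structure Normal {K : Type} [LinearOrder K] (U : Ultrafilter K) : Prop where
  large : ∀ c : K, ∀ᶠ a in (U : Filter K), c < a
  press : ∀ f : K → K, (∀ᶠ a in (U : Filter K), f a < a) → ∃ c, ∀ᶠ a in (U : Filter K), f a = c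

section normal

variable {K : Type} [LinearOrder K] {U : Ultrafilter K} (hU : Normal U)

include hU

theorem diag {S : K → K → Prop} (h : ∀ i, ∀ᶠ a in (U : Filter K), S i a) :
    ∀ᶠ a in (U : Filter K), ∀ i < a, S i a := by
  classical
  by_contra h1
  rw [← Ultrafilter.eventually_not] at h1
  let f : K → K := fun a => if h : ∃ i, i < a ∧ ¬ S i a then h.choose else a
  have h2 : ∀ᶠ a in (U : Filter K), f a < a ∧ ¬ S (f a) a := by
    filter_upwards [h1] with a ha
    push Not at ha
    have ha' : ∃ i, i < a ∧ ¬ S i a := ha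
    have : f a = ha'.choose := dif_pos ha'
    rw [this]
    exact ha'.choose_spec
  obtain ⟨c, hc⟩ := hU.press f (h2.mono fun a ha => ha.1)
  have h3 : ∀ᶠ a in (U : Filter K), False := by
    filter_upwards [h2, hc, h c] with a ha1 ha2 ha3
    rw [ha2] at ha1
    exact ha1.2 ha3
  exact U.neBot.ne (Filter.eventually_false_iff_eq_bot.1 h3)

theorem compl {S : K → K → Prop} {c : K} (h : ∀ i < c, ∀ᶠ a in (U : Filter K), S i a) :
    ∀ᶠ a in (U : Filter K), ∀ i < c, S i a := by
  have h1 := diag hU (S := fun i a => i < c → S i a) (fun i => by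
    by_cases hi : i < c
    · exact (h i hi).mono fun a ha _ => ha
    · exact Eventually.of_forall fun a h => absurd h hi)
  filter_upwards [h1, hU.large c] with a ha hca i hi
  exact ha i (hi.trans hca) hi

theorem const {f : K → K} {c : K} (h : ∀ᶠ a in (U : Filter K), f a < c) :
    ∃ d, ∀ᶠ a in (U : Filter K), f a = d :=
  hU.press f (by filter_upwards [h, hU.large c] with a h1 h2 using h1.trans h2)

theorem regular (f : K → K) (c : K) : ∃ d, ∀ i < c, f i < d := by
  by_contra h
  push Not at h
  choose g hg1 hg2 using h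
  obtain ⟨i, hi⟩ := const hU (f := g) (c := c) (Eventually.of_forall hg1)
  obtain ⟨a, ha1, ha2⟩ := (hi.and (hU.large (f i))).exists
  have := hg2 a
  rw [ha1] at this
  exact absurd ha2 (not_lt.2 this)

end normal

/-- `b` is a nonzero limit and regular. -/
def Reg {K : Type} [LinearOrder K] (b : K) : Prop :=
  (∃ c, c < b) ∧ (∀ x < b, ∃ y < b, x < y) ∧
    ∀ c < b, ∀ f : K → K, (∀ i < c, f i < b) → ∃ d < b, ∀ i < c, f i < d

section normal

variable {K : Type} [LinearOrder K] {U : Ultrafilter K} (hU : Normal U)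

include hU

theorem exists_gt (x : K) : ∃ y, x < y := (hU.large x).exists

theorem eventually_reg : ∀ᶠ b in (U : Filter K), Reg b := by
  classical
  have : (U : Filter K).NeBot := U.neBot
  have h0 : Nonempty K := Filter.nonempty_of_neBot (U : Filter K)
  obtain ⟨x0⟩ := h0
  have h2 : ∀ᶠ b in (U : Filter K), ∀ x < b, ∃ y < b, x < y := diag hU fun x => by
    obtain ⟨y, hy⟩ := exists_gt hU x
    exact (hU.large y).mono fun a ha => ⟨y, ha, hy⟩
  have h3 : ∀ᶠ b in (U : Filter K), ∀ c < b, ∀ f : K → K, (∀ i < c, f i < b) →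
      ∃ d < b, ∀ i < c, f i < d := by
    by_contra h
    rw [← Ultrafilter.eventually_not] at h
    have h4 : ∀ᶠ b in (U : Filter K), ∃ p : K × (K → K), p.1 < b ∧ (∀ i < p.1, p.2 i < b) ∧
        ∀ d < b, ∃ i < p.1, d ≤ p.2 i := by
      filter_upwards [h] with b hb
      push Not at hb
      obtain ⟨c, hc, f, h5, h6⟩ := hb
      exact ⟨(c, f), hc, h5, h6⟩
    let F : K → K × (K → K) := fun b => if h : ∃ p : K × (K → K), p.1 < b ∧
      (∀ i < p.1, p.2 i < b) ∧ ∀ d < b, ∃ i < p.1, d ≤ p.2 i then h.choose else (b, id)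
    have hF : ∀ᶠ b in (U : Filter K), (F b).1 < b ∧ (∀ i < (F b).1, (F b).2 i < b) ∧
        ∀ d < b, ∃ i < (F b).1, d ≤ (F b).2 i := by
      filter_upwards [h4] with b hb
      have : F b = hb.choose := dif_pos hb
      rw [this]
      exact hb.choose_spec
    obtain ⟨c, hc⟩ := hU.press (fun b => (F b).1) (hF.mono fun b hb => hb.1)
    have h5 : ∀ i < c, ∃ d, ∀ᶠ b in (U : Filter K), (F b).2 i = d := by
      intro i hi
      refine hU.press (fun b => (F b).2 i) ?_
      filter_upwards [hF, hc] with b hb hb'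
      exact hb.2.1 i (by rw [hb']; exact hi)
    choose! g hg using h5
    obtain ⟨d, hd⟩ := regular hU g c
    have h6 := compl hU (S := fun i b => (F b).2 i = g i) hg
    obtain ⟨b, hb1, hb2, hb3, hb4⟩ := (hF.and (hc.and (h6.and (hU.large d)))).exists
    obtain ⟨i, hi, hdi⟩ := hb1.2.2 d hb4
    rw [hb2] at hi
    rw [hb3 i hi] at hdi
    exact absurd (hd i hi) (not_lt.2 hdi)
  filter_upwards [hU.large x0, h2, h3] with b hb1 hb2 hb3
  exact ⟨⟨x0, hb1⟩, hb2, hb3⟩

end normal

/-! ### The forcing notion -/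

section cnd

variable (K : Type) [LinearOrder K]

/-- Functions from subsets of `K` to the booleans with bounded domain, which is bounded below
each regular limit point. -/
@[ext]
structure Cnd : Type where
  fn : K → Option Bool
  bdd : ∃ d, ∀ x, d ≤ x → fn x = none
  reg : ∀ b, Reg b → ∃ d < b, ∀ x, d ≤ x → x < b → fn x = none

end cnd

namespace Cnd

variable {K : Type} [LinearOrder K]

instance : Preorder (Cnd K) where
  le p q := ∀ x v, q.fn x = some v → p.fn x = some v
  le_refl _ _ _ h := h
  le_trans _ _ _ h1 h2 x v h := h1 x v (h2 x v h)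

theorem le_def {p q : Cnd K} : p ≤ q ↔ ∀ x v, q.fn x = some v → p.fn x = some v := Iff.rfl

instance [Nonempty K] : OrderTop (Cnd K) where
  top := ⟨fun _ => none, ⟨Classical.arbitrary K, fun _ _ => rfl⟩, fun _ hb => by
    obtain ⟨⟨c, hc⟩, -⟩ := hb
    exact ⟨c, hc, fun _ _ _ => rfl⟩⟩
  le_top _ _ _ h := by cases h

theorem top_apply [Nonempty K] (x : K) : (⊤ : Cnd K).fn x = none := rfl

/-- Restriction of a condition. -/
def restr (S : K → Prop) [DecidablePred S] (p : Cnd K) : Cnd K :=
  ⟨fun x => if S x then p.fn x else none, by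
    obtain ⟨d, hd⟩ := p.bdd
    refine ⟨d, fun x hx => ?_⟩
    by_cases h : S x
    · exact (if_pos h).trans (hd x hx)
    · exact if_neg h, fun b hb => by
    obtain ⟨d, hdb, hd⟩ := p.reg b hb
    refine ⟨d, hdb, fun x hx hxb => ?_⟩
    by_cases h : S x
    · exact (if_pos h).trans (hd x hx hxb)
    · exact if_neg h⟩

theorem restr_of {S : K → Prop} [DecidablePred S] {p : Cnd K} {x : K} (h : S x) :
    (restr S p).fn x = p.fn x := if_pos h

theorem restr_of_not {S : K → Prop} [DecidablePred S] {p : Cnd K} {x : K} (h : ¬ S x) :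
    (restr S p).fn x = none := if_neg h

theorem le_restr {S : K → Prop} [DecidablePred S] {p : Cnd K} : p ≤ restr S p := by
  intro x v h
  by_cases hx : S x
  · rwa [restr_of hx] at h
  · rw [restr_of_not hx] at h
    cases h

theorem restr_mono {S : K → Prop} [DecidablePred S] {p q : Cnd K} (h : p ≤ q) :
    restr S p ≤ restr S q := by
  intro x v hx
  by_cases hS : S x
  · rw [restr_of hS] at hx ⊢
    exact h x v hx
  · rw [restr_of_not hS] at hx
    cases hx

/-- The union of two conditions, the first on `S`, the second outside of `S`. -/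
def glue (S : K → Prop) [DecidablePred S] (p q : Cnd K) : Cnd K :=
  ⟨fun x => if S x then p.fn x else q.fn x, by
    obtain ⟨d, hd⟩ := p.bdd
    obtain ⟨e, he⟩ := q.bdd
    refine ⟨max d e, fun x hx => ?_⟩
    by_cases h : S x
    · exact (if_pos h).trans (hd x ((le_max_left _ _).trans hx))
    · exact (if_neg h).trans (he x ((le_max_right _ _).trans hx)), fun b hb => by
    obtain ⟨d, hdb, hd⟩ := p.reg b hb
    obtain ⟨e, heb, he⟩ := q.reg b hb
    refine ⟨max d e, max_lt hdb heb, fun x hx hxb => ?_⟩
    by_cases h : S x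
    · exact (if_pos h).trans (hd x ((le_max_left _ _).trans hx) hxb)
    · exact (if_neg h).trans (he x ((le_max_right _ _).trans hx) hxb)⟩

theorem glue_of {S : K → Prop} [DecidablePred S] {p q : Cnd K} {x : K} (h : S x) :
    (glue S p q).fn x = p.fn x := if_pos h

theorem glue_of_not {S : K → Prop} [DecidablePred S] {p q : Cnd K} {x : K} (h : ¬ S x) :
    (glue S p q).fn x = q.fn x := if_neg h

/-- The domain is below `a`. -/
def Lo (a : K) (p : Cnd K) : Prop := ∀ x, a ≤ x → p.fn x = none

/-- The domain is above `a`. -/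
def Hi (a : K) (p : Cnd K) : Prop := ∀ x, x < a → p.fn x = none

theorem glue_le_left {a : K} {p q : Cnd K} (hp : Lo a p) : glue (· < a) p q ≤ p := by
  classical
  intro x v h
  by_cases hx : x < a
  · rwa [glue_of (S := (· < a)) hx]
  · rw [hp x (not_lt.1 hx)] at h
    cases h

theorem glue_le_right {a : K} {p q : Cnd K} (hq : Hi a q) : glue (· < a) p q ≤ q := by
  classical
  intro x v h
  by_cases hx : x < a
  · rw [hq x hx] at h
    cases h
  · rwa [glue_of_not (S := (· < a)) hx]

theorem lo_restr {a : K} {p : Cnd K} : Lo a (restr (· < a) p) := fun _ hx =>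
  restr_of_not (S := (· < a)) (not_lt.2 hx)

theorem hi_restr {a : K} {p : Cnd K} : Hi a (restr (fun x => ¬ x < a) p) := fun _ hx =>
  restr_of_not (S := fun x => ¬ x < a) (not_not.2 hx)

theorem le_of_restr {a : K} {p r : Cnd K} (h1 : r ≤ restr (· < a) p)
    (h2 : r ≤ restr (fun x => ¬ x < a) p) : r ≤ p := by
  intro x v h
  by_cases hx : x < a
  · exact h1 x v (by rwa [restr_of (S := (· < a)) hx])
  · exact h2 x v (by rwa [restr_of (S := fun x => ¬ x < a) hx])

theorem restr_le_of_lo {a : K} {p q : Cnd K} (h : p ≤ q) (hq : Lo a q) :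
    restr (· < a) p ≤ q := by
  intro x v hx
  by_cases hxa : x < a
  · rw [restr_of (S := (· < a)) hxa]
    exact h x v hx
  · rw [hq x (not_lt.1 hxa)] at hx
    cases hx

theorem restr_le_of_hi {a : K} {p q : Cnd K} (h : p ≤ q) (hq : Hi a q) :
    restr (fun x => ¬ x < a) p ≤ q := by
  intro x v hx
  by_cases hxa : x < a
  · rw [hq x hxa] at hx
    cases hx
  · rw [restr_of (S := fun x => ¬ x < a) hxa]
    exact h x v hx

end Cnd

end Pool.Agent.W868.KP
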