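import Pool.Agent.W868.KP.Comb

/-!
# The tail forcing is closed; meeting many dense sets; coding conditions
-/

set_option autoImplicit false
set_option linter.unusedSectionVars false

namespace Pool.Agent.W868.KP

open Filter

section meet

variable {K Q : Type} [LinearOrder K] [WellFoundedLT K] [Preorder Q]

/-- Every decreasing family indexed by a subset of `K` has a lower bound. -/
def KClosed (K Q : Type) [LinearOrder K] [Preorder Q] : Prop :=
  ∀ (D : Set K) (s : K → Q), (∀ i ∈ D, ∀ j ∈ D, i < j → s j ≤ s i) → ∃ q, ∀ i ∈ D, q ≤ s i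

open Classical in
/-- The recursion. -/
noncomputable def mseq (D : K → Q → Prop) (q0 : Q) : K → Q :=
  WellFounded.fix (wellFounded_lt (α := K)) fun i rec =>
    if h : ∃ r, (∀ j (hj : j < i), r ≤ rec j hj) ∧ r ≤ q0 ∧ D i r then h.choose else q0

theorem mseq_eq (D : K → Q → Prop) (q0 : Q) (i : K)
    (h : ∃ r, (∀ j < i, r ≤ mseq D q0 j) ∧ r ≤ q0 ∧ D i r) :
    (∀ j < i, mseq D q0 i ≤ mseq D q0 j) ∧ mseq D q0 i ≤ q0 ∧ D i (mseq D q0 i) := by
  have h1 : mseq D q0 i = h.choose := by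
    refine (WellFounded.fix_eq _ _ i).trans ?_
    exact dif_pos h
  rw [h1]
  exact h.choose_spec

theorem meet (hC : KClosed K Q) (D : K → Q → Prop) (hopen : ∀ i q r, r ≤ q → D i q → D i r)
    (q0 : Q) (hdense : ∀ i q, q ≤ q0 → ∃ r ≤ q, D i r) : ∃ r ≤ q0, ∀ i, D i r := by
  have key : ∀ i, (∀ j < i, mseq D q0 i ≤ mseq D q0 j) ∧ mseq D q0 i ≤ q0 ∧
      D i (mseq D q0 i) := by
    intro i
    induction i using WellFoundedLT.induction with
    | ind i ih =>
      refine mseq_eq D q0 i ?_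
      have h1 : ∃ t ≤ q0, ∀ j < i, t ≤ mseq D q0 j := by
        obtain ⟨t, ht⟩ := hC {j | j < i} (mseq D q0) fun j hj k hk hjk => (ih k hk).1 j hjk
        by_cases h : ∃ j, j < i
        · obtain ⟨j, hj⟩ := h
          exact ⟨t, (ht j hj).trans (ih j hj).2.1, ht⟩
        · exact ⟨q0, le_rfl, fun j hj => absurd ⟨j, hj⟩ h⟩
      obtain ⟨t, ht0, ht⟩ := h1
      obtain ⟨r, hr, hD⟩ := hdense i t ht0
      exact ⟨r, fun j hj => hr.trans (ht j hj), hr.trans ht0, hD⟩
  obtain ⟨t, ht⟩ := hC Set.univ (mseq D q0) fun j _ k _ hjk => (key k).1 j hjk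
  by_cases h : Nonempty K
  · obtain ⟨i⟩ := h
    exact ⟨t, (ht i trivial).trans (key i).2.1, fun i => hopen i _ _ (ht i trivial) (key i).2.2⟩
  · exact ⟨q0, le_rfl, fun i => absurd ⟨i⟩ h⟩

theorem KClosed.prod {R : Type} [Preorder R] (h1 : KClosed K Q) (h2 : KClosed K R) :
    KClosed K (Q × R) := by
  intro D s h
  obtain ⟨q, hq⟩ := h1 D (fun i => (s i).1) fun i hi j hj hij => (h i hi j hj hij).1
  obtain ⟨r, hr⟩ := h2 D (fun i => (s i).2) fun i hi j hj hij => (h i hi j hj hij).2
  exact ⟨(q, r), fun i hi => ⟨hq i hi, hr i hi⟩⟩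

/-- Deciding many questions modulo the small forcing `P`. -/
theorem decideAll {P ι : Type} [Preorder P] (hC : KClosed K Q) (e : ι × P → K)
    (he : Function.Injective e) (D : ι → P → Q → Prop)
    (ho : ∀ i p p' r r', p' ≤ p → r' ≤ r → D i p r → D i p' r') (c : P × Q)
    (hd : ∀ i p r, p ≤ c.1 → r ≤ c.2 → ∃ p' ≤ p, ∃ r' ≤ r, D i p' r') :
    ∃ r ≤ c.2, ∀ i, ∀ p ≤ c.1, ∃ p' ≤ p, D i p' r := by
  obtain ⟨r, hr, h⟩ := meet hC (fun k q => ∀ i p, e (i, p) = k → p ≤ c.1 → ∃ p' ≤ p, D i p' q)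
    (fun k q r hrq h i p hk hp => by
      obtain ⟨p', hp', h1⟩ := h i p hk hp
      exact ⟨p', hp', ho i _ _ _ _ le_rfl hrq h1⟩) c.2 (fun k q hq => by
      by_cases h : ∃ i p, e (i, p) = k ∧ p ≤ c.1
      · obtain ⟨i, p, hk, hp⟩ := h
        obtain ⟨p', hp', r', hr', h1⟩ := hd i p q hp hq
        refine ⟨r', hr', fun i1 p1 hk1 _ => ?_⟩
        obtain ⟨rfl, rfl⟩ := Prod.mk.inj (he (hk1.trans hk.symm))
        exact ⟨p', hp', h1⟩
      · push Not at h
        exact ⟨q, le_rfl, fun i p hk hp => absurd hp (h i p hk)⟩)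
  exact ⟨r, hr, fun i p hp => h _ i p rfl hp⟩

end meet

namespace Cnd

variable {K : Type} [LinearOrder K]

open Classical in
/-- Adding a value. -/
noncomputable def upd (t : Cnd K) (g : K) (v : Bool) (hg : ∃ y, g < y) : Cnd K :=
  ⟨fun x => if x = g then some v else t.fn x, by
    obtain ⟨d, hd⟩ := t.bdd
    obtain ⟨y, hy⟩ := hg
    refine ⟨max d y, fun x hx => ?_⟩
    have h1 : x ≠ g := fun h => absurd (hy.trans_le ((le_max_right _ _).trans hx)) (by
      rw [h]
      exact lt_irrefl _)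
    exact (if_neg h1).trans (hd x ((le_max_left _ _).trans hx)), fun b hb => by
    obtain ⟨d, hdb, hd⟩ := t.reg b hb
    by_cases hgb : g < b
    · obtain ⟨y, hyb, hy⟩ := hb.2.1 g hgb
      refine ⟨max d y, max_lt hdb hyb, fun x hx hxb => ?_⟩
      have h1 : x ≠ g := fun h => absurd (hy.trans_le ((le_max_right _ _).trans hx)) (by
        rw [h]
        exact lt_irrefl _)
      exact (if_neg h1).trans (hd x ((le_max_left _ _).trans hx) hxb)
    · refine ⟨d, hdb, fun x hx hxb => ?_⟩
      have h1 : x ≠ g := fun h => hgb (h ▸ hxb)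
      exact (if_neg h1).trans (hd x hx hxb)⟩

theorem upd_self {t : Cnd K} {g : K} {v : Bool} {hg : ∃ y, g < y} :
    (t.upd g v hg).fn g = some v := if_pos rfl

theorem upd_ne {t : Cnd K} {g x : K} {v : Bool} {hg : ∃ y, g < y} (h : x ≠ g) :
    (t.upd g v hg).fn x = t.fn x := if_neg h

theorem upd_le {t : Cnd K} {g : K} {v : Bool} {hg : ∃ y, g < y} (h : t.fn g = none) :
    t.upd g v hg ≤ t := by
  intro x w hx
  by_cases hxg : x = g
  · rw [hxg, h] at hx
    cases hx
  · rwa [upd_ne hxg]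

theorem upd_hi {t : Cnd K} {g a : K} {v : Bool} {hg : ∃ y, g < y} (h : Hi a t) (hag : a ≤ g) :
    Hi a (t.upd g v hg) := by
  intro x hx
  rw [upd_ne (ne_of_lt (hx.trans_le hag))]
  exact h x hx

variable [WellFoundedLT K] {U : Ultrafilter K} (hU : Normal U)

include hU

open Classical in
theorem exists_sup (a : K) (D : Set K) (s : K → Cnd K) (hs : ∀ i < a, i ∈ D → Hi a (s i))
    (h : ∀ i < a, i ∈ D → ∀ j < a, j ∈ D → i < j → s j ≤ s i) :
    ∃ u : Cnd K, Hi a u ∧ ∀ i < a, i ∈ D → u ≤ s i := by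
  let fn : K → Option Bool := fun x => if h : ∃ v, ∃ i < a, i ∈ D ∧ (s i).fn x = some v
    then some h.choose else none
  have h1 : ∀ i < a, i ∈ D → ∀ x v, (s i).fn x = some v → fn x = some v := by
    intro i hi hiD x v hv
    have h2 : ∃ v, ∃ i < a, i ∈ D ∧ (s i).fn x = some v := ⟨v, i, hi, hiD, hv⟩
    obtain ⟨j, hj, hjD, hw⟩ := h2.choose_spec
    have h3 : fn x = some h2.choose := dif_pos h2
    rw [h3]
    rcases lt_trichotomy i j with hij | hij | hij
    · have := h i hi hiD j hj hjD hij x v hv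
      rw [hw] at this
      exact this
    · subst hij
      rw [hv] at hw
      exact hw.symm
    · have := h j hj hjD i hi hiD hij x _ hw
      rw [hv] at this
      exact this.symm
  have h2 : ∀ x, (∀ i < a, i ∈ D → (s i).fn x = none) → fn x = none := by
    intro x hx
    refine dif_neg ?_
    rintro ⟨v, i, hi, hiD, hv⟩
    rw [hx i hi hiD] at hv
    cases hv
  refine ⟨⟨fn, ?_, ?_⟩, ?_, h1⟩
  · choose f hf using fun i => (s i).bdd
    obtain ⟨d, hd⟩ := regular hU f a
    exact ⟨d, fun x hx => h2 x fun i hi _ => hf i x ((hd i hi).le.trans hx)⟩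
  · intro b hb
    rcases le_or_gt b a with hba | hab
    · obtain ⟨⟨c, hc⟩, -⟩ := hb
      exact ⟨c, hc, fun x _ hxb => h2 x fun i hi hiD => hs i hi hiD x (hxb.trans_le hba)⟩
    · choose f hfb hf using fun i => (s i).reg b hb
      obtain ⟨d, hdb, hd⟩ := hb.2.2 a hab f fun i _ => hfb i
      exact ⟨d, hdb, fun x hx hxb => h2 x fun i hi _ => hf i x ((hd i hi).le.trans hx) hxb⟩
  · exact fun x hx => h2 x fun i hi hiD => hs i hi hiD x hx

end Cnd

/-! ### The tail forcing -/

/-- The ultraproduct of the tails. -/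
structure Tl {K : Type} [LinearOrder K] (U : Ultrafilter K) : Type where
  fn : K → Cnd K
  hi : ∀ a, Cnd.Hi a (fn a)

namespace Tl

variable {K : Type} [LinearOrder K] {U : Ultrafilter K}

instance : Preorder (Tl U) where
  le p q := ∀ᶠ a in (U : Filter K), p.fn a ≤ q.fn a
  le_refl _ := Eventually.of_forall fun _ => le_rfl
  le_trans _ _ _ h1 h2 := by filter_upwards [h1, h2] with a ha ha' using ha.trans ha'

theorem le_def {p q : Tl U} : p ≤ q ↔ ∀ᶠ a in (U : Filter K), p.fn a ≤ q.fn a := Iff.rfl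

instance [Nonempty K] : OrderTop (Tl U) where
  top := ⟨fun _ => ⊤, fun _ _ _ => rfl⟩
  le_top _ := Eventually.of_forall fun _ => le_top

theorem closed [WellFoundedLT K] (hU : Normal U) : KClosed K (Tl U) := by
  intro D s h
  have h1 : ∀ a, ∃ u : Cnd K, Cnd.Hi a u ∧
      ((∀ i < a, i ∈ D → ∀ j < a, j ∈ D → i < j → (s j).fn a ≤ (s i).fn a) →
        ∀ i < a, i ∈ D → u ≤ (s i).fn a) := by
    intro a
    by_cases h2 : ∀ i < a, i ∈ D → ∀ j < a, j ∈ D → i < j → (s j).fn a ≤ (s i).fn a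
    · obtain ⟨u, hu1, hu2⟩ := Cnd.exists_sup hU a D (fun i => (s i).fn a)
        (fun i _ _ => (s i).hi a) h2
      exact ⟨u, hu1, fun _ => hu2⟩
    · obtain ⟨u, hu1, -⟩ := Cnd.exists_sup hU a ∅ (fun i => (s i).fn a)
        (fun i _ _ => (s i).hi a) (fun i _ h => absurd h (Set.notMem_empty i))
      exact ⟨u, hu1, fun h3 => absurd h3 h2⟩
  choose u hu1 hu2 using h1
  refine ⟨⟨u, hu1⟩, fun i hi => ?_⟩
  have h3 : ∀ᶠ a in (U : Filter K), ∀ j < a, ∀ i < j, i ∈ D → j ∈ D →
      (s j).fn a ≤ (s i).fn a := by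
    refine diag hU fun j => compl hU fun i hij => ?_
    by_cases h4 : i ∈ D ∧ j ∈ D
    · exact (h i h4.1 j h4.2 hij).mono fun a ha _ _ => ha
    · exact Eventually.of_forall fun a h5 h6 => absurd ⟨h5, h6⟩ h4
  filter_upwards [h3, hU.large i] with a ha hia
  exact hu2 a (fun i _ hiD j hj hjD hij => ha j hj i hij hiD hjD) i hia hi

end Tl

/-! ### Codes of conditions -/

section code

variable {K : Type} [LinearOrder K] [WellFoundedLT K] {U : Ultrafilter K} (hU : Normal U)

include hU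

theorem infinite : Infinite K := by
  have : (U : Filter K).NeBot := U.neBot
  have h0 : Nonempty K := Filter.nonempty_of_neBot (U : Filter K)
  have : NoMaxOrder K := ⟨fun a => exists_gt hU a⟩
  infer_instance

theorem exists_pr : ∃ pr : K × K → K, Function.Injective pr := by
  have := infinite hU
  have h : Cardinal.mk (K × K) = Cardinal.mk K := by
    rw [Cardinal.mk_prod]
    simpa using Cardinal.mul_eq_self (Cardinal.aleph0_le_mk K)
  obtain ⟨e⟩ := Cardinal.eq.1 h
  exact ⟨e, e.injective⟩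

theorem const_bool (h : K → Option Bool) : ∃ v, ∀ᶠ a in (U : Filter K), h a = v := by
  have h1 : ∀ᶠ a in (U : Filter K), h a = none ∨ h a = some true ∨ h a = some false := by
    refine Eventually.of_forall fun a => ?_
    rcases h a with _ | _ | _ <;> simp
  rw [Ultrafilter.eventually_or, Ultrafilter.eventually_or] at h1
  rcases h1 with h1 | h1 | h1
  exacts [⟨_, h1⟩, ⟨_, h1⟩, ⟨_, h1⟩]

/-- Every function from `K` to the functions on an initial segment is constant on a large set. -/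
theorem const_fun (c : K) (h : K → K → Option Bool) (hh : ∀ a x, c ≤ x → h a x = none) :
    ∃ v, ∀ᶠ a in (U : Filter K), h a = v := by
  choose v hv using fun x => const_bool (U := U) hU fun a => h a x
  refine ⟨fun x => if x < c then v x else none, ?_⟩
  have h1 := compl hU (S := fun i a => h a i = v i) (c := c) fun i _ => hv i
  filter_upwards [h1] with a ha
  funext x
  by_cases hx : x < c
  · rw [if_pos hx]
    exact ha x hx
  · rw [if_neg hx]
    exact hh a x (not_lt.1 hx)

theorem exists_code_aux (c : K) : ∃ (e : (K → Option Bool) → K) (b : K),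
    (∀ p q : K → Option Bool, (∀ x, c ≤ x → p x = none) → (∀ x, c ≤ x → q x = none) →
      e p = e q → p = q) ∧ ∀ p : K → Option Bool, (∀ x, c ≤ x → p x = none) → e p < b := by
  classical
  let S : Type := {p : K → Option Bool // ∀ x, c ≤ x → p x = none}
  have h1 : Nonempty (S ↪ K) := by
    rcases Function.Embedding.total S K with h | ⟨⟨f, hf⟩⟩
    · exact h
    · obtain ⟨v, hv⟩ := const_fun hU c (fun a => (f a).1) (fun a => (f a).2)
      obtain ⟨a, ha⟩ := hv.exists
      obtain ⟨a', ha', h2⟩ := (hv.and (hU.large a)).exists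
      exact absurd (hf (Subtype.ext (ha.trans ha'.symm))) (ne_of_lt h2)
  obtain ⟨f⟩ := h1
  have h2 : ∃ b, ∀ p : S, f p < b := by
    by_contra h
    push Not at h
    choose g hg using h
    obtain ⟨v, hv⟩ := const_fun hU c (fun a => (g a).1) (fun a => (g a).2)
    obtain ⟨a, ha⟩ := hv.exists
    obtain ⟨a', ha', h2⟩ := (hv.and (hU.large (f (g a)))).exists
    have h3 : g a = g a' := Subtype.ext (ha.trans ha'.symm)
    rw [h3] at h2
    exact absurd h2 (not_lt.2 (hg a'))
  obtain ⟨b, hb⟩ := h2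
  refine ⟨fun p => if h : ∀ x, c ≤ x → p x = none then f ⟨p, h⟩ else c, b, ?_, ?_⟩
  · intro p q hp hq h
    simp only [dif_pos hp, dif_pos hq] at h
    exact congrArg Subtype.val (f.injective h)
  · intro p hp
    simp only [dif_pos hp]
    exact hb _

/-- The conditions are coded by the elements of `K`, so that for most `b` the conditions with
domain below `b` have codes below `b`. -/
theorem exists_code : ∃ e : Cnd K → K, Function.Injective e ∧
    ∀ᶠ b in (U : Filter K), ∀ p : Cnd K, Cnd.Lo b p → e p < b := by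
  classical
  choose e bd he hbd using exists_code_aux hU
  obtain ⟨pr, hpr⟩ := exists_pr hU
  let c : Cnd K → K := fun p => WellFounded.min (wellFounded_lt (α := K))
    {d | ∀ x, d ≤ x → p.fn x = none} p.bdd
  have hc : ∀ p : Cnd K, ∀ x, c p ≤ x → p.fn x = none := fun p =>
    WellFounded.min_mem (wellFounded_lt (α := K)) {d | ∀ x, d ≤ x → p.fn x = none} p.bdd
  have hc' : ∀ (p : Cnd K) (d : K), (∀ x, d ≤ x → p.fn x = none) → c p ≤ d := fun p d hd =>
    not_lt.1 (WellFounded.not_lt_min (wellFounded_lt (α := K))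
      {d | ∀ x, d ≤ x → p.fn x = none} hd)
  refine ⟨fun p => pr (c p, e (c p) p.fn), ?_, ?_⟩
  · intro p q h
    obtain ⟨h1, h2⟩ := Prod.mk.inj (hpr h)
    rw [h1] at h2
    exact Cnd.ext (he (c q) p.fn q.fn (by rw [← h1]; exact hc p) (hc q) h2)
  · have h1 : ∀ᶠ b in (U : Filter K), ∀ d < b, bd d < b := diag hU fun d => hU.large _
    have h2 : ∀ᶠ b in (U : Filter K), ∀ i < b, ∀ j < b, j ≤ i → pr (i, j) < b ∧ pr (j, i) < b := by
      refine diag hU fun i => ?_
      have h3 : ∀ᶠ b in (U : Filter K), ∀ j < b, j ≤ i → pr (i, j) < b ∧ pr (j, i) < b := by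
        refine diag hU fun j => ?_
        filter_upwards [hU.large (pr (i, j)), hU.large (pr (j, i))] with b h4 h5 _ using ⟨h4, h5⟩
      exact h3
    filter_upwards [h1, h2, eventually_reg hU] with b h3 h4 hb p hp
    obtain ⟨d, hdb, hd⟩ := p.reg b hb
    have h5 : c p ≤ d := hc' p d fun x hx => by
      rcases lt_or_ge x b with hxb | hxb
      · exact hd x hx hxb
      · exact hp x hxb
    have h6 : c p < b := h5.trans_lt hdb
    have h7 : e (c p) p.fn < b := (hbd (c p) p.fn (hc p)).trans (h3 _ h6)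
    rcases le_total (e (c p) p.fn) (c p) with h8 | h8
    · exact (h4 _ h6 _ h7 h8).1
    · exact (h4 _ h7 _ h6 h8).2

/-- Coding of the questions. -/
theorem exists_code2 : ∃ e : (K × K) × Cnd K → K, Function.Injective e := by
  obtain ⟨e, he, -⟩ := exists_code hU
  obtain ⟨pr, hpr⟩ := exists_pr hU
  refine ⟨fun x => pr (pr x.1, e x.2), ?_⟩
  rintro ⟨x, p⟩ ⟨y, q⟩ h
  obtain ⟨h1, h2⟩ := Prod.mk.inj (hpr h)
  simp only at h1 h2
  rw [hpr h1, he h2]

/-- A large set of conditions has a constant low part. -/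
theorem press_cnd (s : K → Cnd K) (h : ∀ᶠ a in (U : Filter K), Cnd.Lo a (s a)) :
    ∃ p, ∀ᶠ a in (U : Filter K), s a = p := by
  obtain ⟨e, he, h1⟩ := exists_code hU
  obtain ⟨c, hc⟩ := hU.press (fun a => e (s a)) (by
    filter_upwards [h, h1] with a ha ha1 using ha1 _ ha)
  obtain ⟨a, ha⟩ := hc.exists
  exact ⟨s a, hc.mono fun b hb => he (hb.trans ha.symm)⟩

theorem eventually_lo (p : Cnd K) : ∀ᶠ a in (U : Filter K), Cnd.Lo a p := by
  obtain ⟨d, hd⟩ := p.bdd
  filter_upwards [hU.large d] with a ha x hx using hd x (ha.le.trans hx)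

end code

end Pool.Agent.W868.KP
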