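import Pool.Agent.W868.KP.Comb2
import Pool.Agent.W868.Base2

/-!
# Density arguments in generic packages, and the decision lemma
-/

set_option autoImplicit false
set_option linter.unreachableTactic false
set_option linter.unusedTactic false
set_option linter.unusedSectionVars false

namespace Pool.Agent.W868

open PName
open ZFSet (pair)

section general

variable {P : Type} [Preorder P] [OrderTop P]

/-- The condition `p` forces `R`. -/
def Frc (S : Set (PName P)) (R : Pkg P → Prop) (p : P) : Prop :=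
  ∀ π : Pkg P, S ⊆ π.N → (∃ m, π.g m ≤ p) → R π

theorem Frc.mono {S : Set (PName P)} {R : Pkg P → Prop} {p q : P} (h : Frc S R p) (hq : q ≤ p) :
    Frc S R q := fun π hπ ⟨m, hm⟩ => h π hπ ⟨m, hm.trans hq⟩

/-- Density arguments. -/
theorem holds_of_dense {S : Set (PName P)} {R : Pkg P → Prop}
    (h : NDfn S fun π (_ : Fin 0 → ZFSet.{0}) => R π) (π : Pkg P) (hS : S ⊆ π.N) (n0 : ℕ)
    (hd : ∀ n, n0 ≤ n → ∃ A : Set (PName P), A.Countable ∧ ∃ q ≤ π.g n, ∀ π' : Pkg P,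
      S ⊆ π'.N → A ⊆ π'.N → π'.g 0 = q → R π') : R π := by
  by_contra hR
  obtain ⟨k, hk⟩ := forcing_theorem h.not π hS hR
  obtain ⟨A, hA, q, hq, h1⟩ := hd (max k n0) (le_max_right _ _)
  obtain ⟨π', h2, h3⟩ := exists_pkg' (S ∪ A) ((π.cnt.mono hS).union hA) q
  have hS' : S ⊆ π'.N := fun x hx => h2 (Or.inl hx)
  refine hk π' hS' ⟨0, ?_⟩ (h1 π' hS' (fun x hx => h2 (Or.inr hx)) h3)
  rw [h3]
  exact hq.trans (π.g_anti (le_max_left _ _))

/-- Every condition can be extended to decide a statement. -/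
theorem exists_frc {S : Set (PName P)} {R : Pkg P → Prop}
    (h : NDfn S fun π (_ : Fin 0 → ZFSet.{0}) => R π) (π : Pkg P) (hS : S ⊆ π.N) (hR : R π) :
    ∃ q ≤ π.g 0, Frc S R q := by
  obtain ⟨k, hk⟩ := forcing_theorem h π hS hR
  exact ⟨π.g k, π.g_anti (Nat.zero_le k), hk⟩

end general

namespace KP

open Filter

variable {K : Type} [LinearOrder K] [WellFoundedLT K] {U : Ultrafilter K}

/-- The notion of forcing. -/
abbrev Fo (U : Ultrafilter K) : Type := Cnd K × (Tl U × Tl U)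

/-- The components. -/
def tlc (i : Bool) (r : Tl U × Tl U) : Tl U := if i = true then r.2 else r.1

theorem tlc_mono {i : Bool} {r r' : Tl U × Tl U} (h : r ≤ r') : tlc i r ≤ tlc i r' := by
  cases i
  · exact h.1
  · exact h.2

/-- The condition consisting of `p` and `q` meets the set of conditions `B a` generically. -/
def Rel (p : Cnd K) (q : Tl U) (B : K → Set (Cnd K)) : Prop :=
  ∀ᶠ a in (U : Filter K), ∀ r ≤ p, r ≤ q.fn a → ∃ r' ≤ r, r' ∈ B a

theorem Rel.mono {p p' : Cnd K} {q q' : Tl U} {B : K → Set (Cnd K)} (h : Rel p q B)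
    (hp : p' ≤ p) (hq : q' ≤ q) : Rel p' q' B := by
  filter_upwards [h, Tl.le_def.1 hq] with a h1 h2 r hr hr'
  exact h1 r (hr.trans hp) (hr'.trans h2)

/-- The decision lemma. -/
theorem decide2 (hU : Normal U) {Y : Type*} (D : K × K → Y → Fo U → Prop)
    (hmono : ∀ x y c c', c' ≤ c → D x y c → D x y c') (c : Fo U)
    (hd : ∀ x, ∀ c' ≤ c, ∃ c'' ≤ c', ∃ y, D x y c'') (i : Bool) :
    ∃ r ≤ c.2, ∀ g : K → K, ∃ (p : Cnd K) (q : Tl U) (y : K → Y), p ≤ c.1 ∧ q ≤ tlc i r ∧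
      Rel p q fun a => {s | D (a, g a) (y a) (s, r)} := by
  classical
  obtain ⟨e, he⟩ := exists_code2 hU
  obtain ⟨r, hr, h1⟩ := decideAll ((Tl.closed hU).prod (Tl.closed hU)) e he
    (fun x s r => ∃ y, D x y (s, r))
    (fun x s s' r r' hs hr h => by
      obtain ⟨y, hy⟩ := h
      exact ⟨y, hmono _ _ _ _ ⟨hs, hr⟩ hy⟩) c (fun x s r hs hr => by
      obtain ⟨c'', hc, y, hy⟩ := hd x (s, r) ⟨hs, hr⟩
      exact ⟨c''.1, hc.1, c''.2, hc.2, y, hy⟩)
  refine ⟨r, hr, fun g => ?_⟩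
  let t : K → Cnd K := fun a => if Cnd.Lo a c.1 then Cnd.glue (· < a) c.1 ((tlc i r).fn a) else c.1
  have ht : ∀ a, t a ≤ c.1 := by
    intro a
    by_cases h : Cnd.Lo a c.1
    · simp only [t, if_pos h]
      exact Cnd.glue_le_left h
    · simp only [t, if_neg h]
      exact le_rfl
  choose s hs y hy using fun a => h1 (a, g a) (t a) (ht a)
  obtain ⟨p, hp⟩ := press_cnd hU (fun a => Cnd.restr (· < a) (s a))
    (Eventually.of_forall fun a => Cnd.lo_restr)
  have hlo := eventually_lo hU c.1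
  have hs1 : ∀ a, Cnd.Lo a c.1 → s a ≤ (tlc i r).fn a := by
    intro a ha
    refine (hs a).trans ?_
    simp only [t, if_pos ha]
    exact Cnd.glue_le_right ((tlc i r).hi a)
  refine ⟨p, ⟨fun a => Cnd.restr (fun x => ¬ x < a) (s a), fun a => Cnd.hi_restr⟩, y, ?_, ?_, ?_⟩
  · obtain ⟨a, ha1, ha2⟩ := (hp.and hlo).exists
    rw [← ha1]
    exact Cnd.restr_le_of_lo ((hs a).trans (ht a)) ha2
  · filter_upwards [hlo] with a ha
    exact Cnd.restr_le_of_hi (hs1 a ha) ((tlc i r).hi a)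
  · filter_upwards [hp] with a ha q hq1 hq2
    rw [← ha] at hq1
    exact ⟨q, le_rfl, hmono (a, g a) (y a) (s a, r) (q, r)
      ⟨Cnd.le_of_restr hq1 hq2, le_rfl⟩ (hy a)⟩

end KP

end Pool.Agent.W868
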