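import Pool.Agent.W868.KP.Zf

/-!
# Countable closure, equal actions on the ordinals, and distinctness
-/

set_option autoImplicit false
set_option linter.unreachableTactic false
set_option linter.unusedTactic false
set_option linter.unusedSectionVars false

namespace Pool.Agent.W868.KP

open ZFSet (pair)

/-- `f` is a function from `ω` to the class `M`. -/
def IsSeq (M : Set ZFSet.{0}) (f : ZFSet.{0}) : Prop :=
  (∀ p ∈ f, ∃ n ∈ ZFSet.omega, ∃ y ∈ M, p = pair n y) ∧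
    ∀ n ∈ ZFSet.omega, ∃! y, pair n y ∈ f

/-- The ultrafilters have the same action on the ordinals, as witnessed by the functions in the
class `K`. -/
structure Twin (W : Set ZFSet.{0}) (k : ZFSet.{0}) (u : Bool → ZFSet.{0})
    (K : Set ZFSet.{0}) : Prop where
  rep : ∀ i, ∀ f ∈ W, (∀ ξ ∈ k, (ap f ξ).IsOrdinal) → ∃ g ∈ W, g ∈ K ∧
    (∀ ξ ∈ k, (ap g ξ).IsOrdinal) ∧ Ae k (u i) fun ξ => ap f ξ = ap g ξ
  agree : ∀ f ∈ W, f ∈ K → ∀ g ∈ W, g ∈ K → ((Ae k (u false) fun ξ => ap f ξ ∈ ap g ξ) ↔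
    Ae k (u true) fun ξ => ap f ξ ∈ ap g ξ)
  cst : ∀ α ∈ W, α.IsOrdinal → gr (fun _ => α) k ∈ K
  diff : ∃ X ∈ W, X ⊆ k ∧ ∀ F ∈ W, ∃ g ∈ W, g ∈ K ∧ (∀ ξ ∈ k, ap g ξ ∈ k) ∧
    ¬ ((Ae k (u false) fun ξ => ap g ξ ∈ X) ↔ Ae k (u true) fun ξ => ap g ξ ∈ ap F ξ)

variable {W : Set ZFSet.{0}} {k : ZFSet.{0}} {u : Bool → ZFSet.{0}} (h2 : Two W k u)

include h2

/-- Countable completeness. -/
theorem sigma {i : Bool} {R : ZFSet.{0} → ZFSet.{0} → Prop}
    (hR : Dfn W W fun w : Fin 2 → ZFSet.{0} => R (w 0) (w 1))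
    (h : Ae k (u i) fun ξ => ∃ n ∈ ZFSet.omega, R n ξ) :
    ∃ n ∈ ZFSet.omega, Ae k (u i) (R n) := by
  have hW := h2.zf
  have hB := hW.base
  have hm := h2.meas i
  have hk := h2.kW
  have hω := hW.infinity
  let F : ZFSet.{0} → ZFSet.{0} := fun ξ => lo W fun n => n ∈ ZFSet.omega ∧ R n ξ
  have hF : DfnF W W fun w : Fin 1 → ZFSet.{0} => F (w 0) := by
    refine hW.lo' (Q := fun n w => n ∈ ZFSet.omega ∧ R n (w 0)) ?_
    exact (Dfn.mem (DfnF.proj 0) (DfnF.const hω)).and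
      (Dfn.comp2 (Q := R) hR (DfnF.proj 0) (DfnF.proj 1))
  have hFs : ∀ ξ, (∃ n ∈ ZFSet.omega, R n ξ) → F ξ ∈ ZFSet.omega ∧ R (F ξ) ξ := by
    rintro ξ ⟨n, hn, h3⟩
    exact (lo_spec (M := W) (P := fun n => n ∈ ZFSet.omega ∧ R n ξ)
      ⟨n, hW.trans _ hω _ hn, isOrdinal_omega.mem hn, hn, h3⟩).2.2
  have hgr := h2.grW hk hF
  have h3 : Ae k (u i) fun ξ => ap (gr F k) ξ ∈ ξ := by
    refine hm.mono (h2.sep (Dfn.mem (hW.ap' (DfnF.const hgr) (DfnF.proj 0)) (DfnF.proj 0)))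
      (hm.and h (hm.large _ hm.om)) fun ξ hξ h4 => ?_
    rw [ap_gr hξ]
    exact (hm.kord.mem hξ).mem_trans (hFs ξ h4.1).1 h4.2
  obtain ⟨β, hβ, h4⟩ := hm.norm _ hgr h3
  have hβW := hW.trans _ hk _ hβ
  obtain ⟨ξ, hξ, h5, h6⟩ := hm.ex hW (hm.and h h4)
  rw [ap_gr hξ] at h6
  refine ⟨β, h6 ▸ (hFs ξ h5).1, ?_⟩
  refine hm.mono (h2.sep (Dfn.comp2 (Q := R) hR (DfnF.const hβW) (DfnF.proj 0)))
    (hm.and h h4) fun ξ hξ h7 => ?_
  rw [ap_gr hξ] at h7
  have h8 := (hFs ξ h7.1).2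
  rwa [h7.2] at h8

theorem cu_const_k {i : Bool} {β : ZFSet.{0}} (hβ : β ∈ k) :
    cu W k (u i) (gr (fun _ => β) k) = β := by
  have hW := h2.zf
  have hB := hW.base
  have hm := h2.meas i
  have hk := h2.kW
  induction β using ZFSet.inductionOn with
  | _ β ih =>
  have hβW := hW.trans _ hk _ hβ
  ext y
  rw [h2.mem_cu (h2.cW hβW)]
  constructor
  · rintro ⟨g, hg, h3, rfl⟩
    have h4 : Ae k (u i) fun ξ => ap g ξ ∈ ξ := by
      refine hm.mono (h2.sep (Dfn.mem (hW.ap' (DfnF.const hg) (DfnF.proj 0)) (DfnF.proj 0)))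
        (hm.and h3 (hm.large _ hβ)) fun ξ hξ h4 => ?_
      rw [ap_const h2 hξ] at h4
      exact (hm.kord.mem hξ).mem_trans h4.1 h4.2
    obtain ⟨γ, hγ, h5⟩ := hm.norm g hg h4
    obtain ⟨ξ, hξ, h6, h7⟩ := hm.ex hW (hm.and h3 h5)
    rw [ap_const h2 hξ, h7] at h6
    have h8 : cu W k (u i) g = cu W k (u i) (gr (fun _ => γ) k) := by
      rw [h2.eq_iff hg (h2.cW (hW.trans _ hk _ hγ))]
      exact h5.congr fun ξ hξ => by rw [ap_const h2 hξ]
    rw [h8, ih γ h6 hγ]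
    exact h6
  · intro hy
    have hyk := hm.kord.mem_trans hy hβ
    have hyW := hW.trans _ hk _ hyk
    refine ⟨gr (fun _ => y) k, h2.cW hyW, hm.all fun ξ hξ => ?_, (ih y hy hyk).symm⟩
    rwa [ap_const h2 hξ, ap_const h2 hξ]

theorem subset_MM {i : Bool} {x : ZFSet.{0}} (hx : x ∈ W) (hxk : x ⊆ k) : x ∈ MM W k u i := by
  have hW := h2.zf
  have hB := hW.base
  have hk := h2.kW
  refine coind h2 (fun _ => {x | x ∈ W ∧ x ⊆ k}) (fun i => ?_) (fun i x hx => hx.1)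
    (fun i x hx => ?_) i ⟨hx, hxk⟩
  · have h3 : Dfn W W fun w : Fin 1 → ZFSet.{0} => w 0 ⊆ k :=
      hB.subset' (DfnF.proj 0) (DfnF.const hk)
    exact h3.congr fun w hw => ⟨fun h => ⟨hw 0, h⟩, fun h => h.2⟩
  · obtain ⟨hxW, hxk⟩ := hx
    have hm := h2.meas i
    have hF : DfnF W W fun w : Fin 1 → ZFSet.{0} => ZFSet.sep (fun z => z ∈ w 0) x := by
      refine hW.sep' (Q := fun z w => z ∈ w 0) (DfnF.const hxW) ?_
      exact Dfn.mem (DfnF.proj 0) (DfnF.proj 1)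
    have hgr := h2.grW (F := fun ξ => ZFSet.sep (fun z => z ∈ ξ) x) hk hF
    refine ⟨_, hgr, fun ξ hξ => ?_, ?_⟩
    · rw [ap_gr hξ]
      refine ⟨hW.sep_mem (Q := fun z => z ∈ ξ) (Dfn.mem (DfnF.proj 0) (DfnF.const
        (hW.trans _ hk _ hξ))) hxW, fun z hz => hxk (ZFSet.mem_sep.1 hz).1⟩
    · ext y
      rw [h2.mem_cu hgr]
      constructor
      · rintro ⟨g, hg, h3, rfl⟩
        have h3' : Ae k (u i) fun ξ => ap g ξ ∈ x ∧ ap g ξ ∈ ξ := h3.congr fun ξ hξ => by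
          rw [ap_gr hξ, ZFSet.mem_sep]
        have h4 : Ae k (u i) fun ξ => ap g ξ ∈ ξ := by
          refine hm.mono (h2.sep (Dfn.mem (hW.ap' (DfnF.const hg) (DfnF.proj 0)) (DfnF.proj 0)))
            h3' fun ξ hξ h4 => h4.2
        obtain ⟨γ, hγ, h5⟩ := hm.norm g hg h4
        obtain ⟨ξ, hξ, h6, h7⟩ := hm.ex hW (hm.and h3' h5)
        rw [h7] at h6
        have h8 : cu W k (u i) g = cu W k (u i) (gr (fun _ => γ) k) := by
          rw [h2.eq_iff hg (h2.cW (hW.trans _ hk _ hγ))]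
          exact h5.congr fun ξ hξ => by rw [ap_const h2 hξ]
        rw [h8, cu_const_k h2 hγ]
        exact h6.1
      · intro hy
        have hyk := hxk hy
        have hyW := hW.trans _ hk _ hyk
        refine ⟨gr (fun _ => y) k, h2.cW hyW, ?_, (cu_const_k h2 hyk).symm⟩
        refine (hm.large _ hyk).congr fun ξ hξ => ?_
        rw [ap_const h2 hξ, ap_gr hξ, ZFSet.mem_sep]
        exact ⟨fun h => ⟨hy, h⟩, fun h => h.2⟩

theorem seq_MM {i : Bool} {f : ZFSet.{0}} (hf : f ∈ W) (hs : IsSeq (MM W k u i) f) :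
    f ∈ MM W k u i := by
  have hW := h2.zf
  have hB := hW.base
  have hk := h2.kW
  have hω := hW.infinity
  refine coind h2 (fun i => {f | f ∈ W ∧ IsSeq (MM W k u i) f}) (fun i => ?_)
    (fun i x hx => hx.1) (fun i f hf => ?_) i ⟨hf, hs⟩
  · have h3 : Dfn W W fun w : Fin 1 → ZFSet.{0} =>
        (∀ p ∈ w 0, ∃ n ∈ ZFSet.omega, ∃ y ∈ W, y ∈ MM W k u i ∧ p = pair n y) ∧
        ∀ n ∈ ZFSet.omega, ∃ y ∈ W, pair n y ∈ w 0 ∧ ∀ z ∈ W, pair n z ∈ w 0 → z = y := by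
      (repeat' first
        | exact DfnF.proj _
        | exact DfnF.const (by assumption)
        | exact h2.MMd _ (DfnF.proj _)
        | apply Dfn.not | apply Dfn.and | apply Dfn.or | apply Dfn.imp | apply Dfn.iff
        | apply hB.bex | apply hB.ball | apply Dfn.ex | apply Dfn.all
        | apply Dfn.eq | apply Dfn.mem | apply hB.pair')
    refine h3.congr fun w hw => ?_
    constructor
    · rintro ⟨h4, h5⟩
      refine ⟨hw 0, fun p hp => ?_, fun n hn => ?_⟩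
      · obtain ⟨n, hn, y, -, hy, h6⟩ := h4 p hp
        exact ⟨n, hn, y, hy, h6⟩
      · obtain ⟨y, -, h6, h7⟩ := h5 n hn
        refine ⟨y, h6, fun z hz => h7 z ?_ hz⟩
        exact (hW.of_pair_mem (hW.trans _ (hw 0) _ hz)).2
    · rintro ⟨-, h4, h5⟩
      refine ⟨fun p hp => ?_, fun n hn => ?_⟩
      · obtain ⟨n, hn, y, hy, h6⟩ := h4 p hp
        exact ⟨n, hn, y, MM_subset h2 i hy, hy, h6⟩
      · obtain ⟨y, h6, h7⟩ := h5 n hn
        exact ⟨y, (hW.of_pair_mem (hW.trans _ (hw 0) _ h6)).2, h6, fun z _ hz => h7 z hz⟩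
  · obtain ⟨hfW, h3, h4⟩ := hf
    have hm := h2.meas i
    have hR : Dfn W W fun w : Fin 2 → ZFSet.{0} => (∀ ξ ∈ k, ap (w 0) ξ ∈ MM W k u (!i)) ∧
        pair (w 1) (cu W k (u i) (w 0)) ∈ f := by
      refine (hB.ball (DfnF.const hk) (h2.MMd _ (hW.ap' (DfnF.proj 1) (DfnF.proj 0)))).and ?_
      exact Dfn.mem (hB.pair' (DfnF.proj 1) (h2.cuD i (DfnF.proj 0))) (DfnF.const hfW)
    obtain ⟨h, hh, -, -, h5⟩ := h2.zfc.choose hω (Q := fun g n =>
      (∀ ξ ∈ k, ap g ξ ∈ MM W k u (!i)) ∧ pair n (cu W k (u i) g) ∈ f) hR fun n hn => by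
        obtain ⟨y, hy, -⟩ := h4 n hn
        obtain ⟨n', hn', y', hy', h6⟩ := h3 _ hy
        obtain ⟨rfl, rfl⟩ := ZFSet.pair_inj.1 h6
        obtain ⟨g, hg, h7, rfl⟩ := MM_rep h2 hy'
        exact ⟨g, hg, h7, hy⟩
    have hnW : ∀ n ∈ ZFSet.omega, n ∈ W := fun n hn => hW.trans _ hω _ hn
    have hF : DfnF W W fun w : Fin 1 → ZFSet.{0} =>
        gr (fun n => ap (ap h n) (w 0)) ZFSet.omega := by
      refine hW.im' (h := fun n w => pair n (ap (ap h n) (w 0))) (DfnF.const hω) ?_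
      exact hB.pair' (DfnF.proj 0) (hW.ap' (hW.ap' (DfnF.const hh) (DfnF.proj 0)) (DfnF.proj 1))
    have hgr := h2.grW (F := fun ξ => gr (fun n => ap (ap h n) ξ) ZFSet.omega) hk hF
    refine ⟨_, hgr, fun ξ hξ => ?_, ?_⟩
    · rw [ap_gr hξ]
      refine ⟨hF.1 ![ξ] fun j => ?_, fun p hp => ?_, fun n hn => ?_⟩
      · fin_cases j
        exact hW.trans _ hk _ hξ
      · obtain ⟨n, hn, rfl⟩ := mem_gr.1 hp
        exact ⟨n, hn, _, (h5 n hn).1 ξ hξ, rfl⟩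
      · exact ⟨_, pair_mem_gr.2 ⟨hn, rfl⟩, fun y hy => (pair_mem_gr.1 hy).2⟩
    · have hwn : ∀ n ∈ ZFSet.omega, ∀ g ∈ W, (Ae k (u i) fun ξ => ap g ξ =
          pair n (ap (ap h n) ξ)) → cu W k (u i) g = pair n (cu W k (u i) (ap h n)) := by
        intro n hn g hg h6
        have h7 := cu_pair h2 (i := i) (h2.cW (hnW n hn)) (h2.apW hh (hnW n hn)) hg
          (h6.congr fun ξ hξ => by rw [ap_const h2 hξ])
        rw [h7, cu_const_k h2 (hm.kord.mem_trans hn hm.om)]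
      ext y
      rw [h2.mem_cu hgr]
      constructor
      · rintro ⟨g, hg, h6, rfl⟩
        have h7 : Ae k (u i) fun ξ => ∃ n ∈ ZFSet.omega, ap g ξ = pair n (ap (ap h n) ξ) :=
          h6.congr fun ξ hξ => by rw [ap_gr hξ, mem_gr]
        have hRd : Dfn W W fun w : Fin 2 → ZFSet.{0} =>
            ap g (w 1) = pair (w 0) (ap (ap h (w 0)) (w 1)) := by
          refine Dfn.eq (hW.ap' (DfnF.const hg) (DfnF.proj 1)) (hB.pair' (DfnF.proj 0) ?_)
          exact hW.ap' (hW.ap' (DfnF.const hh) (DfnF.proj 0)) (DfnF.proj 1)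
        obtain ⟨n, hn, h8⟩ := sigma h2 (i := i)
          (R := fun n ξ => ap g ξ = pair n (ap (ap h n) ξ)) hRd h7
        rw [hwn n hn g hg h8]
        exact (h5 n hn).2
      · intro hy
        obtain ⟨n, hn, y', -, rfl⟩ := h3 y hy
        have h6 : y' = cu W k (u i) (ap h n) := by
          obtain ⟨z, -, h7⟩ := h4 n hn
          exact (h7 _ hy).trans (h7 _ (h5 n hn).2).symm
        have hG : DfnF W W fun w : Fin 1 → ZFSet.{0} => pair n (ap (ap h n) (w 0)) :=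
          hB.pair' (DfnF.const (hnW n hn)) (hW.ap' (DfnF.const (h2.apW hh (hnW n hn)))
            (DfnF.proj 0))
        have hGW := h2.grW (F := fun ξ => pair n (ap (ap h n) ξ)) hk hG
        refine ⟨_, hGW, hm.all fun ξ hξ => ?_, ?_⟩
        · rw [ap_gr hξ, ap_gr hξ]
          exact mem_gr.2 ⟨n, hn, rfl⟩
        · rw [hwn n hn _ hGW (hm.all fun ξ hξ => ap_gr hξ), h6]

/-! ### Equal actions on the ordinals -/

variable {K : Set ZFSet.{0}} (hT : Twin W k u K)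

include hT

theorem twin_eq : ∀ g ∈ W, g ∈ K → (∀ ξ ∈ k, (ap g ξ).IsOrdinal) →
    cu W k (u false) g = cu W k (u true) g := by
  classical
  have hW := h2.zf
  have hB := hW.base
  have hk := h2.kW
  intro g
  induction g using (h2.wf false).induction with
  | _ g ih =>
    intro hg hgK hgo
    have key : ∀ i, ∀ f ∈ W, (Ae k (u i) fun ξ => ap f ξ ∈ ap g ξ) → ∃ f' ∈ W, f' ∈ K ∧
        (∀ ξ ∈ k, (ap f' ξ).IsOrdinal) ∧ (Ae k (u i) fun ξ => ap f ξ = ap f' ξ) ∧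
        Ae k (u i) fun ξ => ap f' ξ ∈ ap g ξ := by
      intro i f hf h3
      let F : ZFSet.{0} → ZFSet.{0} := fun ξ => if (ap f ξ).IsOrdinal then ap f ξ else ∅
      have hF : DfnF W W fun w : Fin 1 → ZFSet.{0} => F (w 0) := by
        refine DfnF.ite (Q := fun w : Fin 1 → ZFSet.{0} => (ap f (w 0)).IsOrdinal) ?_ ?_ ?_
        · exact hB.isOrdinal' (hW.ap' (DfnF.const hf) (DfnF.proj 0))
        · exact hW.ap' (DfnF.const hf) (DfnF.proj 0)
        · exact DfnF.const hW.empty_mem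
      have hFW := h2.grW hk hF
      obtain ⟨f', hf', h4, h5, h6⟩ := hT.rep i (gr F k) hFW fun ξ hξ => by
        rw [ap_gr hξ]
        by_cases h8 : (ap f ξ).IsOrdinal
        · simpa only [F, if_pos h8] using h8
        · simpa only [F, if_neg h8] using ZFSet.isOrdinal_empty
      have h7 : Ae k (u i) fun ξ => ap f ξ = ap f' ξ := by
        refine (h2.meas i).mono (h2.sepeq hf hf') ((h2.meas i).and h3 h6) fun ξ hξ h8 => ?_
        obtain ⟨h8, h9⟩ := h8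
        rw [ap_gr hξ] at h9
        have h10 : F ξ = ap f ξ := if_pos ((hgo ξ hξ).mem h8)
        rw [← h10, h9]
      refine ⟨f', hf', h4, h5, h7, (h2.meas i).mono (h2.sepmem hf' hg) ((h2.meas i).and h3 h7)
        fun ξ hξ h8 => ?_⟩
      rw [← h8.2]
      exact h8.1
    ext y
    rw [h2.mem_cu hg, h2.mem_cu hg]
    constructor
    · rintro ⟨f, hf, h3, rfl⟩
      obtain ⟨f', hf', h4, h5, h6, h7⟩ := key false f hf h3
      refine ⟨f', hf', (hT.agree f' hf' h4 g hg hgK).1 h7, ?_⟩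
      rw [(h2.eq_iff hf hf').2 h6]
      exact ih f' ⟨hf', hg, h7⟩ hf' h4 h5
    · rintro ⟨f, hf, h3, rfl⟩
      obtain ⟨f', hf', h4, h5, h6, h7⟩ := key true f hf h3
      have h8 := (hT.agree f' hf' h4 g hg hgK).2 h7
      refine ⟨f', hf', h8, ?_⟩
      rw [(h2.eq_iff hf hf').2 h6]
      exact (ih f' ⟨hf', hg, h8⟩ hf' h4 h5).symm

theorem em_ord {α : ZFSet.{0}} (hα : α ∈ W) (ho : α.IsOrdinal) :
    em W k u false α = em W k u true α :=
  twin_eq h2 hT _ (h2.cW hα) (hT.cst α hα ho) fun ξ hξ => by rwa [ap_const h2 hξ]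

theorem MM_ne : MM W k u false ≠ MM W k u true := by
  intro h
  have hW := h2.zf
  have hk := h2.kW
  obtain ⟨X, hX, hXk, h3⟩ := hT.diff
  have h4 : em W k u false X ∈ MM W k u true := by
    rw [← h]
    exact em_MM h2 false (subset_MM h2 hX hXk)
  obtain ⟨F, hF, -, h5⟩ := MM_rep h2 h4
  obtain ⟨g, hg, hgK, hgk, h6⟩ := h3 F hF
  apply h6
  have h7 : cu W k (u false) g = cu W k (u true) g := twin_eq h2 hT g hg hgK fun ξ hξ =>
    (h2.meas true).kord.mem (hgk ξ hξ)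
  rw [← h2.mem_iff (i := true) hg hF, h5, ← h7, em, h2.mem_iff hg (h2.cW hX)]
  constructor
  · intro h8
    exact h8.congr fun ξ hξ => by rw [ap_const h2 hξ]
  · intro h8
    exact h8.congr fun ξ hξ => by rw [ap_const h2 hξ]

end Pool.Agent.W868.KP
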