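import Pool.Agent.W868.KP.Emb

/-!
# Fixed ordinals, and enumerations of sets by fixed ordinals
-/

set_option autoImplicit false
set_option linter.unreachableTactic false
set_option linter.unusedTactic false
set_option linter.unusedSectionVars false

namespace Pool.Agent.W868.KP

open ZFSet (pair)

/-- The ordinals that are fixed by both embeddings. -/
def FixO (W : Set ZFSet.{0}) (k : ZFSet.{0}) (u : Bool → ZFSet.{0}) (α : ZFSet.{0}) : Prop :=
  α.IsOrdinal ∧ em W k u false α = α ∧ em W k u true α = α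

variable {W : Set ZFSet.{0}} {k : ZFSet.{0}} {u : Bool → ZFSet.{0}} (h2 : Two W k u)

include h2

theorem Two.emD (i : Bool) {m : ℕ} {F : (Fin m → ZFSet.{0}) → ZFSet.{0}} (hF : DfnF W W F) :
    DfnF W W fun v => em W k u i (F v) := by
  refine h2.cuD i ?_
  refine h2.zf.im' (h := fun ξ v => pair ξ (F v)) (DfnF.const h2.kW) ?_
  exact h2.zf.base.pair' (DfnF.proj 0) hF.tail

theorem Two.fixD {m : ℕ} {F : (Fin m → ZFSet.{0}) → ZFSet.{0}} (hF : DfnF W W F) :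
    Dfn W W fun v => FixO W k u (F v) :=
  (h2.zf.base.isOrdinal' hF).and ((Dfn.eq (h2.emD false hF) hF).and
    (Dfn.eq (h2.emD true hF) hF))

theorem FixO.em {α : ZFSet.{0}} (h : FixO W k u α) (i : Bool) : em W k u i α = α := by
  cases i
  exacts [h.2.1, h.2.2]

variable {V : Set ZFSet.{0}} (hT : Twin W k u V)

include hT

theorem exists_fix {δ : ZFSet.{0}} (hδ : δ ∈ W) (ho : δ.IsOrdinal) :
    ∃ α ∈ W, FixO W k u α ∧ δ ∈ α := by
  classical
  have hW := h2.zf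
  have hB := hW.base
  have hk := h2.kW
  let T : ZFSet.{0} → ZFSet.{0} := fun x => if (em W k u false x).IsOrdinal
    then em W k u false x else ∅
  have hTd : DfnF W W fun w : Fin 1 → ZFSet.{0} => T (w 0) := by
    refine DfnF.ite (Q := fun w : Fin 1 → ZFSet.{0} => (em W k u false (w 0)).IsOrdinal) ?_ ?_ ?_
    · exact hB.isOrdinal' (h2.emD false (DfnF.proj 0))
    · exact h2.emD false (DfnF.proj 0)
    · exact DfnF.const hW.empty_mem
  have hTo : ∀ x, x.IsOrdinal → (T x).IsOrdinal := by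
    intro x _
    by_cases h : (em W k u false x).IsOrdinal
    · simpa only [T, if_pos h] using h
    · simpa only [T, if_neg h] using ZFSet.isOrdinal_empty
  have hemo : ∀ (i : Bool) (x : ZFSet.{0}), x ∈ W → x.IsOrdinal → (em W k u i x).IsOrdinal := by
    intro i x hx hxo
    refine isOrdinal_cu h2 _ (h2.cW hx) ((h2.meas i).all fun ξ hξ => ?_)
    rwa [ap_const h2 hξ]
  have hTe : ∀ (i : Bool) (x : ZFSet.{0}), x ∈ W → x.IsOrdinal → T x = em W k u i x := by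
    intro i x hx hxo
    have h3 : T x = em W k u false x := if_pos (hemo false x hx hxo)
    rw [h3]
    cases i
    · rfl
    · exact em_ord h2 hT hx hxo
  have hsc : sc δ ∈ W := hW.sc_mem hδ
  have hsco : (sc δ).IsOrdinal := isOrdinal_sc ho
  set θ := itr T (sc δ) ZFSet.omega with hθ
  have hθW : θ ∈ W := itr_mem_M hW hsc hW.infinity hTd
  have hθo : θ.IsOrdinal := isOrdinal_itr hsco hTo _
  have hnW : ∀ n, itr T (sc δ) (nat n) ∈ W := fun n => itr_mem_M hW hsc (hW.nat_mem n) hTd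
  have hno : ∀ n, (itr T (sc δ) (nat n)).IsOrdinal := fun n => isOrdinal_itr hsco hTo _
  have key : ∀ i, em W k u i θ = θ := by
    intro i
    apply ZFSet.ext
    intro y
    constructor
    · intro hy
      obtain ⟨g, hg, h3, rfl⟩ := (h2.mem_cu (h2.cW hθW)).1 hy
      have hR : Dfn W W fun w : Fin 2 → ZFSet.{0} => ap g (w 1) ∈ itr T (sc δ) (w 0) := by
        refine Dfn.mem (hW.ap' (DfnF.const hg) (DfnF.proj 1)) ?_
        exact DfnF.comp1 (f := itr T (sc δ)) (dfn_itr hW hsc hTd) (DfnF.proj 0)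
      have h3' : Ae k (u i) fun ξ => ∃ n ∈ ZFSet.omega, ap g ξ ∈ itr T (sc δ) n := by
        refine h3.congr fun ξ hξ => ?_
        rw [ap_const h2 hξ]
        constructor
        · intro h
          obtain ⟨n, hn⟩ := mem_itr_omega h
          exact ⟨nat n, nat_mem_omega n, hn⟩
        · rintro ⟨n, hn, h⟩
          obtain ⟨m, rfl⟩ := mem_omega_iff.1 hn
          exact itr_mono nat_subset_omega h
      obtain ⟨n, hn, h4⟩ := sigma h2 (i := i) (R := fun n ξ => ap g ξ ∈ itr T (sc δ) n) hR h3'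
      obtain ⟨m, rfl⟩ := mem_omega_iff.1 hn
      have h5 : cu W k (u i) g ∈ em W k u i (itr T (sc δ) (nat m)) :=
        (h2.mem_cu (h2.cW (hnW m))).2 ⟨g, hg, h4.congr fun ξ hξ => by
          rw [ap_const h2 hξ], rfl⟩
      rw [← hTe i _ (hnW m) (hno m)] at h5
      exact itr_step (nat_mem_omega m) h5
    · exact fun hy => subset_const h2 hθW hθo hy
  exact ⟨θ, hθW, ⟨hθo, key false, key true⟩, itr_base (ZFSet.mem_insert _ _)⟩

/-- Every set is enumerated by fixed ordinals. -/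
theorem exists_enum {x : ZFSet.{0}} (hx : x ∈ W) : ∃ e ∈ W,
    (∀ p ∈ e, ∃ α y, p = pair α y ∧ FixO W k u α ∧ y ∈ x) ∧
    (∀ α y y', pair α y ∈ e → pair α y' ∈ e → y = y') ∧ ∀ y ∈ x, ∃ α, pair α y ∈ e := by
  classical
  have hW := h2.zf
  have hB := hW.base
  have hk := h2.kW
  have hN : ZFSet.sep (fun z => ∃ y ∈ z, y = y) (pwW W x) ∈ W := by
    refine hW.sep_mem (Q := fun z => ∃ y ∈ z, y = y) ?_ (hW.pwW_mem hx)
    exact hB.bex (DfnF.proj 0) (Dfn.eq (DfnF.proj 0) (DfnF.proj 0))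
  obtain ⟨c, hc, -, -, hc1⟩ := h2.zfc.choose hN (Q := fun w z => w ∈ z)
    (Dfn.mem (DfnF.proj 0) (DfnF.proj 1)) (fun z hz => by
      obtain ⟨h3, y, hy, -⟩ := ZFSet.mem_sep.1 hz
      exact ⟨y, hW.trans _ (mem_pwW.1 h3).1 _ hy, hy⟩)
  let B' : ZFSet.{0} → ZFSet.{0} := fun g => im sn (ZFSet.sep (fun p => FixO W k u (fs p)) g)
  let G : ZFSet.{0} → ZFSet.{0} := fun g => ap c (ZFSet.sep (fun y => y ∉ B' g) x)
  let F : ZFSet.{0} → ZFSet.{0} := wfF (fun z => z) ZFSet.mem_wf fun _ g => G g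
  have hF : ∀ z, F z = G (gr F z) := fun z => wfF_eq _ _ _ z
  have hB'd : ∀ {m : ℕ} {H : (Fin m → ZFSet.{0}) → ZFSet.{0}}, DfnF W W H →
      DfnF W W fun v => B' (H v) := by
    intro m H hH
    refine hW.im' (h := fun p _ => sn p) (hW.sep' (Q := fun p _ => FixO W k u (fs p)) hH
      (h2.fixD (hW.fs' (DfnF.proj 0)))) (hW.sn' (DfnF.proj 0))
  have hFd : DfnF W W fun w : Fin 1 → ZFSet.{0} => F (w 0) := by
    refine hW.memrec (G := fun _ g => G g) ?_ hF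
    refine hW.ap' (DfnF.const hc) (hW.sep' (Q := fun y w => y ∉ B' (w 1)) (DfnF.const hx) ?_)
    exact (Dfn.mem (DfnF.proj 0) (hB'd (DfnF.proj 2))).not
  have hmB : ∀ z y, y ∈ B' (gr F z) ↔ ∃ β ∈ z, FixO W k u β ∧ y = F β := by
    intro z y
    simp only [B', mem_im, ZFSet.mem_sep, mem_gr]
    constructor
    · rintro ⟨p, ⟨⟨β, hβ, rfl⟩, h3⟩, rfl⟩
      rw [fs_pair] at h3
      exact ⟨β, hβ, h3, sn_pair _ _⟩
    · rintro ⟨β, hβ, h3, rfl⟩
      exact ⟨_, ⟨⟨β, hβ, rfl⟩, by rwa [fs_pair]⟩, (sn_pair _ _).symm⟩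
  have hgrW : ∀ z ∈ W, gr F z ∈ W := fun z hz => h2.grW hz hFd
  have hstep : ∀ z ∈ W, (∃ y ∈ x, y ∉ B' (gr F z)) → F z ∈ x ∧ F z ∉ B' (gr F z) := by
    rintro z hz ⟨y, hy, hyB⟩
    have h3 : ZFSet.sep (fun y => y ∉ B' (gr F z)) x ∈ W := by
      refine hW.sep_mem (Q := fun y => y ∉ B' (gr F z)) ?_ hx
      exact (Dfn.mem (DfnF.proj 0) (hB'd (DfnF.const (hgrW z hz)))).not
    have h4 := hc1 (ZFSet.sep (fun y => y ∉ B' (gr F z)) x) (ZFSet.mem_sep.2
      ⟨mem_pwW.2 ⟨h3, fun w hw => (ZFSet.mem_sep.1 hw).1⟩, y, ZFSet.mem_sep.2 ⟨hy, hyB⟩, rfl⟩)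
    have h5 : F z ∈ ZFSet.sep (fun y => y ∉ B' (gr F z)) x := by
      rw [hF]
      exact h4
    exact ZFSet.mem_sep.1 h5
  by_cases hcase : ∃ α ∈ W, FixO W k u α ∧ ∀ y ∈ x, y ∈ B' (gr F α)
  · obtain ⟨α, hα, -, h3⟩ := hcase
    refine ⟨ZFSet.sep (fun p => FixO W k u (fs p) ∧ sn p ∈ x) (gr F α), ?_, ?_, ?_, ?_⟩
    · refine hW.sep_mem (Q := fun p => FixO W k u (fs p) ∧ sn p ∈ x) ?_ (hgrW α hα)
      exact (h2.fixD (hW.fs' (DfnF.proj 0))).and (Dfn.mem (hW.sn' (DfnF.proj 0))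
        (DfnF.const hx))
    · intro p hp
      obtain ⟨h4, h5, h6⟩ := ZFSet.mem_sep.1 hp
      obtain ⟨β, hβ, rfl⟩ := mem_gr.1 h4
      rw [fs_pair] at h5
      rw [sn_pair] at h6
      exact ⟨β, F β, rfl, h5, h6⟩
    · intro β y y' hy hy'
      rw [(pair_mem_gr.1 (ZFSet.mem_sep.1 hy).1).2, (pair_mem_gr.1 (ZFSet.mem_sep.1 hy').1).2]
    · intro y hy
      obtain ⟨β, hβ, h4, rfl⟩ := (hmB _ _).1 (h3 y hy)
      refine ⟨β, ZFSet.mem_sep.2 ⟨pair_mem_gr.2 ⟨hβ, rfl⟩, ?_, ?_⟩⟩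
      · rwa [fs_pair]
      · rwa [sn_pair]
  · exfalso
    push Not at hcase
    have h3 : ∀ α ∈ W, FixO W k u α → F α ∈ x ∧ F α ∉ B' (gr F α) := fun α hα hfix =>
      hstep α hα (hcase α hα hfix)
    let L : ZFSet.{0} → ZFSet.{0} := fun y => lo W fun α => FixO W k u α ∧ F α = y
    have hL : DfnF W W fun w : Fin 1 → ZFSet.{0} => L (w 0) := by
      refine hW.lo' (Q := fun α w => FixO W k u α ∧ F α = w 0) ?_
      exact (h2.fixD (DfnF.proj 0)).and (Dfn.eq (DfnF.comp1 (f := F) hFd (DfnF.proj 0))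
        (DfnF.proj 1))
    have hδW : ZFSet.sUnion (im L x) ∈ W := hW.union _ (hW.im_mem hx hL)
    have hδo : (ZFSet.sUnion (im L x) : ZFSet.{0}).IsOrdinal := by
      refine isOrdinal_sUnion fun y hy => ?_
      obtain ⟨z, -, rfl⟩ := mem_im.1 hy
      exact lo_isOrdinal
    obtain ⟨α, hα, hfix, hδα⟩ := exists_fix h2 hT hδW hδo
    obtain ⟨hβW, hβo, hβfix, hβF⟩ := lo_spec (M := W)
      (P := fun β => FixO W k u β ∧ F β = F α) ⟨α, hα, hfix.1, hfix, rfl⟩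
    have hLα : L (F α) = lo W fun β => FixO W k u β ∧ F β = F α := rfl
    rw [← hLα] at hβW hβo hβfix hβF
    have h4 : L (F α) = α := by
      rcases hβo.mem_trichotomous hfix.1 with h | h | h
      · exact absurd ((hmB _ _).2 ⟨_, h, hβfix, hβF.symm⟩) (h3 α hα hfix).2
      · exact h
      · exact absurd ((hmB _ _).2 ⟨_, h, hfix, hβF⟩) (h3 _ hβW hβfix).2
    have h5 : α ⊆ ZFSet.sUnion (im L x) := fun z hz =>
      ZFSet.mem_sUnion.2 ⟨_, mem_im.2 ⟨_, (h3 α hα hfix).1, h4.symm⟩, hz⟩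
    exact ZFSet.mem_irrefl _ (h5 hδα)

end Pool.Agent.W868.KP
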