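import Pool.Agent.W868.KP.Comb

/-!
# Normal ultrafilters from measurable cardinals
-/

set_option autoImplicit false
set_option linter.unusedSectionVars false

namespace Pool.Agent.W868.KP

open Filter

section

variable {K : Type} {U : Ultrafilter K} (h0 : Cardinal.aleph0 < Cardinal.mk K)
  (h2 : ∀ S : Set (Set K), Cardinal.mk S < Cardinal.mk K → (∀ s ∈ S, s ∈ U) → ⋂₀ S ∈ U)

include h2

theorem compl_U {ι : Type} (hι : Cardinal.mk ι < Cardinal.mk K) {P : ι → K → Prop}
    (h : ∀ i, ∀ᶠ a in (U : Filter K), P i a) : ∀ᶠ a in (U : Filter K), ∀ i, P i a := by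
  have h3 := h2 (Set.range fun i => {a | P i a}) (Cardinal.mk_range_le.trans_lt hι) (by
    rintro s ⟨i, rfl⟩
    exact h i)
  have h4 : {a | ∀ i, P i a} = ⋂₀ Set.range fun i => {a | P i a} := by
    ext a
    simp
  show {a | ∀ i, P i a} ∈ U
  rw [h4]
  exact h3

include h0

theorem wf_U {L : Type} [LinearOrder L] [WellFoundedLT L] :
    WellFounded fun f g : K → L => ∀ᶠ a in (U : Filter K), f a < g a := by
  rw [wellFounded_iff_isEmpty_descending_chain]
  refine ⟨?_⟩
  rintro ⟨s, hs⟩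
  have h3 := compl_U h2 (ι := ℕ) (by rwa [Cardinal.mk_nat])
    (P := fun n a => s (n + 1) a < s n a) hs
  obtain ⟨a, ha⟩ := h3.exists
  have h4 := wellFounded_iff_isEmpty_descending_chain.1 (wellFounded_lt (α := L))
  exact h4.false ⟨fun n => s n a, ha⟩

end

/-- Every measurable cardinal carries a normal ultrafilter. -/
theorem exists_normal {K : Type} (U : Ultrafilter K) (h0 : Cardinal.aleph0 < Cardinal.mk K)
    (h1 : ∀ a : K, {a} ∉ U)
    (h2 : ∀ S : Set (Set K), Cardinal.mk S < Cardinal.mk K → (∀ s ∈ S, s ∈ U) → ⋂₀ S ∈ U) :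
    ∃ (L : Type) (_ : LinearOrder L) (_ : WellFoundedLT L) (_ : Nonempty L)
      (U' : Ultrafilter L), Normal U' := by
  classical
  let L : Type := (Cardinal.mk K).ord.ToType
  have hcard : Cardinal.mk L = Cardinal.mk K := Cardinal.mk_ord_toType _
  obtain ⟨e⟩ : Nonempty (K ≃ L) := Cardinal.eq.1 hcard.symm
  have hIio : ∀ c : L, Cardinal.mk {d // d < c} < Cardinal.mk K := fun c => by
    have h3 := Cardinal.mk_Iio_lt c (by rw [hcard, Ordinal.type_toType])
    rw [hcard] at h3
    exact h3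
  have hne : ∀ c : L, ∀ᶠ a in (U : Filter K), e a ≠ c := by
    intro c
    have h3 : ¬ ∀ᶠ a in (U : Filter K), e a = c := by
      intro h
      refine h1 (e.symm c) ?_
      filter_upwards [h] with a ha
      rw [Set.mem_singleton_iff, ← ha, e.symm_apply_apply]
    rwa [← Ultrafilter.eventually_not] at h3
  have hlarge : ∀ c : L, ∀ᶠ a in (U : Filter K), c < e a := by
    intro c
    have h3 := compl_U h2 (ι := {d // d < c}) (hIio c) (P := fun d a => e a ≠ d.1)
      fun d => hne d.1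
    filter_upwards [h3, hne c] with a ha1 ha2
    rcases lt_trichotomy (e a) c with h | h | h
    · exact absurd rfl (ha1 ⟨e a, h⟩)
    · exact absurd h ha2
    · exact h
  have hconst : ∀ (g : K → L) (c : L), (∀ᶠ a in (U : Filter K), g a ≤ c) →
      ∃ d, ∀ᶠ a in (U : Filter K), g a = d := by
    intro g c hg
    by_contra hn
    push Not at hn
    have hn' : ∀ d, ∀ᶠ a in (U : Filter K), g a ≠ d := hn
    have h3 := compl_U h2 (ι := {d // d < c}) (hIio c) (P := fun d a => g a ≠ d.1)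
      fun d => hn' d.1
    obtain ⟨a, ha1, ha2, ha3⟩ := (hg.and (h3.and (hn' c))).exists
    rcases ha1.lt_or_eq with h | h
    · exact ha2 ⟨g a, h⟩ rfl
    · exact ha3 h
  obtain ⟨f, hf, hmin⟩ := (wf_U (L := L) h0 h2).has_min
    {f : K → L | ∀ c, ∀ᶠ a in (U : Filter K), c < f a} ⟨e, hlarge⟩
  have : (U : Filter K).NeBot := U.neBot
  obtain ⟨a0⟩ : Nonempty K := Filter.nonempty_of_neBot (U : Filter K)
  refine ⟨L, inferInstance, inferInstance, ⟨e a0⟩, U.map f, ⟨fun c => ?_, fun g hg => ?_⟩⟩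
  · exact hf c
  · have h3 : ¬ ∀ c, ∀ᶠ a in (U : Filter K), c < g (f a) := fun h => hmin (fun a => g (f a)) h hg
    push Not at h3
    obtain ⟨c, hc⟩ := h3
    obtain ⟨d, hd⟩ := hconst (fun a => g (f a)) c hc
    exact ⟨d, hd⟩

end Pool.Agent.W868.KP
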