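import Pool.Agent.W868.KP.Pk
import Pool.Agent.W868.KP.Ac
import Pool.Agent.W868.KP.Msr

/-!
# Two mutually embeddable countably closed inner models with equal ordinal actions: assembly
-/

set_option autoImplicit false
set_option linter.unusedSectionVars false

namespace Pool.Agent.W868.KP

open PName Filter
open ZFSet (pair)

/-- The final assembly. -/
theorem main_normal {K : Type} [LinearOrder K] [WellFoundedLT K] [Nonempty K]
    {U : Ultrafilter K} (hU : Normal U) : ∃ (W V : Set ZFSet.{0}) (k : ZFSet.{0})
      (u : Bool → ZFSet.{0}), W.Countable ∧ Two W k u ∧ Twin W k u V := by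
  obtain ⟨π, h1, -⟩ := exists_pkg' (P := Fo U)
    ({nU false, nU true, nX, check (kset K)} : Set (PName (Fo U)))
    (Set.toFinite _).countable (⊤ : Fo U)
  have hG : Good π := by
    refine ⟨hU, fun i => ?_, h1 (by simp), h1 (by simp)⟩
    cases i
    · exact h1 (by simp)
    · exact h1 (by simp)
  exact ⟨π.W, π.V, π.hat (kset K), uu π, π.countable_W, good_two hG, good_twin hG⟩

end Pool.Agent.W868.KP
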