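import Pool.Agent.W868.KP.Co

/-!
# Truth in the two models, and closure under definable operations
-/

set_option autoImplicit false
set_option linter.unreachableTactic false
set_option linter.unusedTactic false
set_option linter.unusedSectionVars false

namespace Pool.Agent.W868.KP

open ZFSet (pair)

/-! ### General facts on truth -/

/-- Truth in a definable class, with definable interpretations of the parameters. -/
theorem dfn_satI {M C : Set ZFSet.{0}} (hC : Dfn M M fun w : Fin 1 → ZFSet.{0} => w 0 ∈ C)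
    (hCM : C ⊆ M) : {n : ℕ} → (φ : Fml ZFSet.{0} n) → φ.Over M → {m : ℕ} →
    (I : ZFSet.{0} → (Fin m → ZFSet.{0}) → ZFSet.{0}) → (∀ a ∈ M, DfnF M M (I a)) →
    (G : Fin n → (Fin m → ZFSet.{0}) → ZFSet.{0}) → (∀ i, DfnF M M (G i)) →
    Dfn M M fun w : Fin m → ZFSet.{0} => Sat C (fun a => I a w) φ fun i => G i w
  | n, .mem s t, h, m, I, hI, G, hG => by
    have h1 : ∀ s : Fin n ⊕ ZFSet.{0}, TOver M s →
        DfnF M M fun w : Fin m → ZFSet.{0} =>
          Sum.elim (fun i => G i w) (fun a => I a w) s := by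
      intro s hs
      cases s with
      | inl i => exact hG i
      | inr a => exact hI a (hs a rfl)
    exact Dfn.mem (h1 s h.1) (h1 t h.2)
  | n, .eq s t, h, m, I, hI, G, hG => by
    have h1 : ∀ s : Fin n ⊕ ZFSet.{0}, TOver M s →
        DfnF M M fun w : Fin m → ZFSet.{0} =>
          Sum.elim (fun i => G i w) (fun a => I a w) s := by
      intro s hs
      cases s with
      | inl i => exact hG i
      | inr a => exact hI a (hs a rfl)
    exact Dfn.eq (h1 s h.1) (h1 t h.2)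
  | n, .neg φ, h, m, I, hI, G, hG => (dfn_satI hC hCM φ h I hI G hG).not
  | n, .and φ ψ, h, m, I, hI, G, hG =>
    (dfn_satI hC hCM φ h.1 I hI G hG).and (dfn_satI hC hCM ψ h.2 I hI G hG)
  | n, .ex φ, h, m, I, hI, G, hG => by
    have h1 : Dfn M M fun w : Fin m → ZFSet.{0} => ∃ a ∈ M, a ∈ C ∧
        Sat C (fun a => I a w) φ (Fin.cons a fun i => G i w) := by
      apply Dfn.ex
      apply Dfn.and
      · exact Dfn.comp1 (Q := fun x => x ∈ C) hC (DfnF.proj 0)
      · have h2 := dfn_satI hC hCM φ h (m := m + 1) (fun a w => I a (Fin.tail w))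
          (fun a ha => (hI a ha).tail)
          (Fin.cons (fun w => w 0) fun i w => G i (Fin.tail w)) (by
            intro i
            refine Fin.cases ?_ (fun i => ?_) i
            · exact DfnF.proj 0
            · exact (hG i).tail)
        refine h2.congr fun w _ => ?_
        have h3 : (fun i => (Fin.cons (fun w => w 0) (fun i w => G i (Fin.tail w)) :
            Fin (n + 1) → (Fin (m + 1) → ZFSet.{0}) → ZFSet.{0}) i w) =
            Fin.cons (w 0) fun i => G i (Fin.tail w) := by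
          funext i
          refine Fin.cases ?_ (fun i => ?_) i
          · rfl
          · rfl
        rw [h3]
    refine h1.congr fun w _ => ?_
    constructor
    · rintro ⟨a, -, ha, h2⟩
      exact ⟨a, ha, h2⟩
    · rintro ⟨a, ha, h2⟩
      exact ⟨a, hCM ha, ha, h2⟩

theorem sat_congrI {C S : Set ZFSet.{0}} {I J : ZFSet.{0} → ZFSet.{0}}
    (h : ∀ a ∈ S, I a = J a) : {n : ℕ} → (φ : Fml ZFSet.{0} n) → φ.Over S →
    (v : Fin n → ZFSet.{0}) → (Sat C I φ v ↔ Sat C J φ v)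
  | n, .mem s t, hφ, v => by
    have h1 : ∀ s : Fin n ⊕ ZFSet.{0}, TOver S s → Sum.elim v I s = Sum.elim v J s := by
      intro s hs
      cases s with
      | inl i => rfl
      | inr a => exact h a (hs a rfl)
    rw [Sat, Sat, h1 s hφ.1, h1 t hφ.2]
  | n, .eq s t, hφ, v => by
    have h1 : ∀ s : Fin n ⊕ ZFSet.{0}, TOver S s → Sum.elim v I s = Sum.elim v J s := by
      intro s hs
      cases s with
      | inl i => rfl
      | inr a => exact h a (hs a rfl)
    rw [Sat, Sat, h1 s hφ.1, h1 t hφ.2]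
  | n, .neg φ, hφ, v => not_congr (sat_congrI h φ hφ v)
  | n, .and φ ψ, hφ, v => and_congr (sat_congrI h φ hφ.1 v) (sat_congrI h ψ hφ.2 v)
  | n, .ex φ, hφ, v => exists_congr fun a => and_congr_right fun _ => sat_congrI h φ hφ _

/-- The parameters of a formula are the elements of a set. -/
theorem exists_over {M : Set ZFSet.{0}} (hM : IsZF M) {C : Set ZFSet.{0}} (hC : C ⊆ M) :
    {n : ℕ} → (φ : Fml ZFSet.{0} n) → φ.Over C →
    ∃ P ∈ M, (∀ a ∈ P, a ∈ C) ∧ φ.Over {a | a ∈ P}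
  | n, .mem s t, h => by
    obtain ⟨P, hP, h1, h2⟩ := aux hM hC s h.1
    obtain ⟨Q, hQ, h3, h4⟩ := aux hM hC t h.2
    refine ⟨P ∪ Q, hM.union_mem hP hQ, fun a ha => ?_, fun a ha => ZFSet.mem_union.2
      (Or.inl (h2 a ha)), fun a ha => ZFSet.mem_union.2 (Or.inr (h4 a ha))⟩
    rcases ZFSet.mem_union.1 ha with h | h
    exacts [h1 a h, h3 a h]
  | n, .eq s t, h => by
    obtain ⟨P, hP, h1, h2⟩ := aux hM hC s h.1
    obtain ⟨Q, hQ, h3, h4⟩ := aux hM hC t h.2
    refine ⟨P ∪ Q, hM.union_mem hP hQ, fun a ha => ?_, fun a ha => ZFSet.mem_union.2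
      (Or.inl (h2 a ha)), fun a ha => ZFSet.mem_union.2 (Or.inr (h4 a ha))⟩
    rcases ZFSet.mem_union.1 ha with h | h
    exacts [h1 a h, h3 a h]
  | n, .neg φ, h => exists_over hM hC φ h
  | n, .and φ ψ, h => by
    obtain ⟨P, hP, h1, h2⟩ := exists_over hM hC φ h.1
    obtain ⟨Q, hQ, h3, h4⟩ := exists_over hM hC ψ h.2
    refine ⟨P ∪ Q, hM.union_mem hP hQ, fun a ha => ?_,
      Fml.Over.mono (φ := φ) (fun a ha => ZFSet.mem_union.2 (Or.inl ha)) h2,
      Fml.Over.mono (φ := ψ) (fun a ha => ZFSet.mem_union.2 (Or.inr ha)) h4⟩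
    rcases ZFSet.mem_union.1 ha with h | h
    exacts [h1 a h, h3 a h]
  | n, .ex φ, h => exists_over hM hC φ h
where
  aux {M : Set ZFSet.{0}} (hM : IsZF M) {C : Set ZFSet.{0}} (hC : C ⊆ M) {n : ℕ}
      (s : Fin n ⊕ ZFSet.{0}) (h : TOver C s) :
      ∃ P ∈ M, (∀ a ∈ P, a ∈ C) ∧ TOver {a | a ∈ P} s := by
    cases s with
    | inl i => exact ⟨∅, hM.empty_mem, fun a ha => absurd ha (ZFSet.notMem_empty a),
        fun a ha => by cases ha⟩
    | inr a =>
      refine ⟨{a}, hM.single_mem (hC (h a rfl)), fun b hb => ?_, fun b hb => ?_⟩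
      · rw [ZFSet.mem_singleton] at hb
        rw [hb]
        exact h a rfl
      · cases hb
        exact ZFSet.mem_singleton.2 rfl

/-! ### Truth in the two models -/

section

variable {W : Set ZFSet.{0}} {k : ZFSet.{0}} {u : Bool → ZFSet.{0}} (h2 : Two W k u)

include h2

theorem Two.MMd (i : Bool) {m : ℕ} {F : (Fin m → ZFSet.{0}) → ZFSet.{0}} (hF : DfnF W W F) :
    Dfn W W fun v => F v ∈ MM W k u i :=
  Dfn.comp1 (Q := fun x => x ∈ MM W k u i) (dfn_MM h2 i) hF

theorem Two.grW {F : ZFSet.{0} → ZFSet.{0}} {x : ZFSet.{0}} (hx : x ∈ W)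
    (hF : DfnF W W fun w : Fin 1 → ZFSet.{0} => F (w 0)) : gr F x ∈ W :=
  h2.zf.im_mem (h := fun u => pair u (F u)) hx (h2.zf.base.pair' (DfnF.proj 0) hF)

/-- The theorem of Los for the two models. -/
theorem los (i : Bool) {S : Set ZFSet.{0}} {h : ZFSet.{0}} (hh : h ∈ W) (hS : S ⊆ W)
    (hp : ∀ a ∈ S, Ae k (u i) fun ξ => ap (ap h a) ξ ∈ MM W k u (!i)) :
    {n : ℕ} → (φ : Fml ZFSet.{0} n) → φ.Over S → (v : Fin n → ZFSet.{0}) →
    (∀ j, v j ∈ W ∧ Ae k (u i) fun ξ => ap (v j) ξ ∈ MM W k u (!i)) →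
    (Sat (MM W k u i) (fun a => cu W k (u i) (ap h a)) φ (fun j => cu W k (u i) (v j)) ↔
      Ae k (u i) fun ξ => Sat (MM W k u (!i)) (fun a => ap (ap h a) ξ) φ fun j => ap (v j) ξ)
  | n, .mem s t, hφ, v, hv => by
    have h3 : ∀ s : Fin n ⊕ ZFSet.{0}, TOver S s → ∃ g ∈ W,
        Sum.elim (fun j => cu W k (u i) (v j)) (fun a => cu W k (u i) (ap h a)) s =
          cu W k (u i) g ∧ ∀ ξ, Sum.elim (fun j => ap (v j) ξ) (fun a => ap (ap h a) ξ) s =
          ap g ξ := by
      intro s hs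
      cases s with
      | inl j => exact ⟨v j, (hv j).1, rfl, fun _ => rfl⟩
      | inr a => exact ⟨ap h a, h2.apW hh (hS (hs a rfl)), rfl, fun _ => rfl⟩
    obtain ⟨g, hg, h4, h5⟩ := h3 s hφ.1
    obtain ⟨g', hg', h6, h7⟩ := h3 t hφ.2
    simp only [Sat, h4, h5, h6, h7]
    exact cu_mem_iff h2.zfc (h2.meas i) (h2.wf i) hg hg'
  | n, .eq s t, hφ, v, hv => by
    have h3 : ∀ s : Fin n ⊕ ZFSet.{0}, TOver S s → ∃ g ∈ W,
        Sum.elim (fun j => cu W k (u i) (v j)) (fun a => cu W k (u i) (ap h a)) s =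
          cu W k (u i) g ∧ ∀ ξ, Sum.elim (fun j => ap (v j) ξ) (fun a => ap (ap h a) ξ) s =
          ap g ξ := by
      intro s hs
      cases s with
      | inl j => exact ⟨v j, (hv j).1, rfl, fun _ => rfl⟩
      | inr a => exact ⟨ap h a, h2.apW hh (hS (hs a rfl)), rfl, fun _ => rfl⟩
    obtain ⟨g, hg, h4, h5⟩ := h3 s hφ.1
    obtain ⟨g', hg', h6, h7⟩ := h3 t hφ.2
    simp only [Sat, h4, h5, h6, h7]
    exact cu_eq_iff h2.zfc (h2.meas i) (h2.wf i) hg hg'
  | n, .neg φ, hφ, v, hv => by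
    have h3 := los i hh hS hp φ hφ v hv
    have h4 : ZFSet.sep (fun ξ => Sat (MM W k u (!i)) (fun a => ap (ap h a) ξ) φ
        fun j => ap (v j) ξ) k ∈ W := by
      refine sepW h2.zf (h2.meas i) ?_
      exact dfn_satI (dfn_MM h2 _) (MM_subset h2 _) φ (Fml.Over.mono hS hφ)
        (fun a w => ap (ap h a) (w 0)) (fun a ha => h2.zf.ap' (DfnF.const (h2.apW hh ha))
        (DfnF.proj 0)) (fun j w => ap (v j) (w 0)) fun j => h2.zf.ap' (DfnF.const (hv j).1)
        (DfnF.proj 0)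
    rw [Sat, h3, (h2.meas i).not h4]
    rfl
  | n, .and φ ψ, hφ, v, hv => by
    have h3 := los i hh hS hp φ hφ.1 v hv
    have h4 := los i hh hS hp ψ hφ.2 v hv
    have h5 : ∀ φ : Fml ZFSet.{0} n, φ.Over S → ZFSet.sep (fun ξ => Sat (MM W k u (!i))
        (fun a => ap (ap h a) ξ) φ fun j => ap (v j) ξ) k ∈ W := by
      intro φ hφ
      refine sepW h2.zf (h2.meas i) ?_
      exact dfn_satI (dfn_MM h2 _) (MM_subset h2 _) φ (Fml.Over.mono hS hφ)
        (fun a w => ap (ap h a) (w 0)) (fun a ha => h2.zf.ap' (DfnF.const (h2.apW hh ha))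
        (DfnF.proj 0)) (fun j w => ap (v j) (w 0)) fun j => h2.zf.ap' (DfnF.const (hv j).1)
        (DfnF.proj 0)
    rw [Sat, h3, h4]
    constructor
    · rintro ⟨h6, h7⟩
      exact (h2.meas i).and h6 h7
    · intro h6
      exact ⟨(h2.meas i).mono (h5 φ hφ.1) h6 fun _ _ h => h.1,
        (h2.meas i).mono (h5 ψ hφ.2) h6 fun _ _ h => h.2⟩
  | n, .ex φ, hφ, v, hv => by
    have hW := h2.zf
    have hdf : ∀ (m : ℕ) (G : Fin (n + 1) → (Fin m → ZFSet.{0}) → ZFSet.{0}),
        (∀ j, DfnF W W (G j)) → ∀ F : (Fin m → ZFSet.{0}) → ZFSet.{0}, DfnF W W F →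
        Dfn W W fun w => Sat (MM W k u (!i)) (fun a => ap (ap h a) (F w)) φ fun j => G j w := by
      intro m G hG F hF
      exact dfn_satI (dfn_MM h2 _) (MM_subset h2 _) φ (Fml.Over.mono hS hφ)
        (fun a w => ap (ap h a) (F w)) (fun a ha => hW.ap' (DfnF.const (h2.apW hh ha)) hF) G hG
    have hcons : ∀ (y ξ : ZFSet.{0}), (fun j => (Fin.cons y (fun j => ap (v j) ξ) :
        Fin (n + 1) → ZFSet.{0}) j) = Fin.cons y fun j => ap (v j) ξ := fun _ _ => rfl
    have hdf2 : ∀ (m : ℕ) (Y F : (Fin m → ZFSet.{0}) → ZFSet.{0}), DfnF W W Y → DfnF W W F →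
        Dfn W W fun w => Sat (MM W k u (!i)) (fun a => ap (ap h a) (F w)) φ
          (Fin.cons (Y w) fun j => ap (v j) (F w)) := by
      intro m Y F hY hF
      have h3 := hdf m (Fin.cons Y fun j w => ap (v j) (F w)) (fun j => by
        refine Fin.cases ?_ (fun j => ?_) j
        · exact hY
        · exact hW.ap' (DfnF.const (hv j).1) hF) F hF
      refine h3.congr fun w _ => ?_
      have h4 : (fun j => (Fin.cons Y (fun j w => ap (v j) (F w)) :
          Fin (n + 1) → (Fin m → ZFSet.{0}) → ZFSet.{0}) j w) =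
          Fin.cons (Y w) fun j => ap (v j) (F w) := by
        funext j
        refine Fin.cases ?_ (fun j => ?_) j
        · rfl
        · rfl
      rw [h4]
    have hc1 : ∀ g : ZFSet.{0}, (fun j => cu W k (u i) ((Fin.cons g v :
        Fin (n + 1) → ZFSet.{0}) j)) = Fin.cons (cu W k (u i) g) fun j => cu W k (u i) (v j) := by
      intro g
      funext j
      refine Fin.cases ?_ (fun j => ?_) j
      · rfl
      · rfl
    have hc2 : ∀ g ξ : ZFSet.{0}, (fun j => ap ((Fin.cons g v : Fin (n + 1) → ZFSet.{0}) j) ξ) =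
        Fin.cons (ap g ξ) fun j => ap (v j) ξ := by
      intro g ξ
      funext j
      refine Fin.cases ?_ (fun j => ?_) j
      · rfl
      · rfl
    have hv' : ∀ g ∈ W, (Ae k (u i) fun ξ => ap g ξ ∈ MM W k u (!i)) → ∀ j,
        (Fin.cons g v : Fin (n + 1) → ZFSet.{0}) j ∈ W ∧ Ae k (u i) fun ξ =>
          ap ((Fin.cons g v : Fin (n + 1) → ZFSet.{0}) j) ξ ∈ MM W k u (!i) := by
      intro g hg hg' j
      refine Fin.cases ?_ (fun j => ?_) j
      · exact ⟨hg, hg'⟩
      · exact hv j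
    rw [Sat]
    constructor
    · rintro ⟨a, ha, h3⟩
      obtain ⟨g, hg, h4, rfl⟩ := MM_rep h2 ha
      have h5 := los i hh hS hp φ hφ (Fin.cons g v) (hv' g hg ((h2.meas i).all h4))
      rw [hc1] at h5
      have h6 := h5.1 h3
      refine (h2.meas i).mono ?_ h6 fun ξ hξ h7 => ?_
      · refine sepW hW (h2.meas i) ?_
        simp only [Sat]
        have h8 : Dfn W W fun w : Fin 1 → ZFSet.{0} => ∃ y ∈ W, y ∈ MM W k u (!i) ∧
            Sat (MM W k u (!i)) (fun a => ap (ap h a) (w 0)) φ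
              (Fin.cons y fun j => ap (v j) (w 0)) := by
          apply Dfn.ex
          exact (h2.MMd _ (DfnF.proj 0)).and (hdf2 2 (fun w => w 0) (fun w => w 1)
            (DfnF.proj 0) (DfnF.proj 1))
        refine h8.congr fun w _ => ?_
        constructor
        · rintro ⟨y, -, h9⟩
          exact ⟨y, h9⟩
        · rintro ⟨y, h9⟩
          exact ⟨y, MM_subset h2 _ h9.1, h9⟩
      · simp only [hc2] at h7
        exact ⟨_, h4 ξ hξ, h7⟩
    · intro h3
      have h8 : Dfn W W fun w : Fin 2 → ZFSet.{0} => w 0 ∈ MM W k u (!i) ∧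
          Sat (MM W k u (!i)) (fun a => ap (ap h a) (w 1)) φ
            (Fin.cons (w 0) fun j => ap (v j) (w 1)) :=
        (h2.MMd _ (DfnF.proj 0)).and (hdf2 2 (fun w => w 0) (fun w => w 1)
          (DfnF.proj 0) (DfnF.proj 1))
      obtain ⟨g, hg, h4⟩ := exists_sel h2.zfc (h2.meas i) (h2.wf i)
        (R := fun y ξ => y ∈ MM W k u (!i) ∧ Sat (MM W k u (!i)) (fun a => ap (ap h a) ξ) φ
            (Fin.cons y fun j => ap (v j) ξ)) h8 (h3.congr fun ξ _ => by
          simp only [Sat]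
          constructor
          · rintro ⟨y, h9⟩
            exact ⟨y, MM_subset h2 _ h9.1, h9⟩
          · rintro ⟨y, -, h9⟩
            exact ⟨y, h9⟩)
      have h5 : Ae k (u i) fun ξ => ap g ξ ∈ MM W k u (!i) :=
        (h2.meas i).mono (sepW hW (h2.meas i) (h2.MMd _ (hW.ap' (DfnF.const hg) (DfnF.proj 0))))
          h4 fun _ _ h => h.1
      have h6 := los i hh hS hp φ hφ (Fin.cons g v) (hv' g hg h5)
      rw [hc1] at h6
      refine ⟨_, cu_MM h2 hg h5, h6.2 ?_⟩
      simp only [hc2]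
      refine (h2.meas i).mono (sepW hW (h2.meas i) (hdf2 1 (fun w => ap g (w 0)) (fun w => w 0)
        (hW.ap' (DfnF.const hg) (DfnF.proj 0)) (DfnF.proj 0))) h4 fun _ _ h => h.2

end

end Pool.Agent.W868.KP
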