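import Pool.Agent.W868.KP.Dec

/-!
# The names for the two measures and for the generic subset, and the forcing facts
-/

set_option autoImplicit false
set_option linter.unreachableTactic false
set_option linter.unusedTactic false
set_option linter.unusedSectionVars false

namespace Pool.Agent.W868.KP

open PName Filter
open ZFSet (pair)

section codes

variable {K : Type} [LinearOrder K] [WellFoundedLT K]

/-- The ordinal coding an element of `K`. -/
noncomputable def cK (a : K) : ZFSet.{0} := (Ordinal.typein (α := K) (· < ·) a).toZFSet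

variable (K) in
/-- The ordinal coding `K`. -/
noncomputable def kset : ZFSet.{0} := (Ordinal.type (α := K) (· < ·)).toZFSet

theorem cK_mem {a b : K} : cK a ∈ cK b ↔ a < b := by
  rw [cK, cK, Ordinal.toZFSet_mem_toZFSet_iff, Ordinal.typein_lt_typein]

theorem cK_inj {a b : K} (h : cK a = cK b) : a = b := by
  rcases lt_trichotomy a b with h1 | h1 | h1
  · exact absurd (h ▸ cK_mem.2 h1) (ZFSet.mem_irrefl _)
  · exact h1
  · exact absurd (h ▸ cK_mem.2 h1) (ZFSet.mem_irrefl _)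

theorem cK_kset (a : K) : cK a ∈ kset K := by
  rw [cK, kset, Ordinal.toZFSet_mem_toZFSet_iff]
  exact Ordinal.typein_lt_type _ a

theorem mem_kset {z : ZFSet.{0}} : z ∈ kset K ↔ ∃ a : K, z = cK a := by
  constructor
  · intro h
    obtain ⟨o, ho, rfl⟩ := Ordinal.mem_toZFSet_iff.1 h
    obtain ⟨a, ha⟩ := Ordinal.typein_surj (α := K) (· < ·) ho
    exact ⟨a, by rw [cK, ha]⟩
  · rintro ⟨a, rfl⟩
    exact cK_kset a

theorem mem_cK {a : K} {z : ZFSet.{0}} : z ∈ cK a ↔ ∃ b < a, z = cK b := by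
  constructor
  · intro h
    obtain ⟨b, rfl⟩ := mem_kset.1 ((ZFSet.isOrdinal_toZFSet _ : (kset K).IsOrdinal).mem_trans h
      (cK_kset a))
    exact ⟨b, cK_mem.1 h, rfl⟩
  · rintro ⟨b, hb, rfl⟩
    exact cK_mem.2 hb

/-- The set coding a function on `K`. -/
noncomputable def cF (G : K → ZFSet.{0}) : ZFSet.{0} := ZFSet.range fun a => pair (cK a) (G a)

theorem pair_mem_cF {G : K → ZFSet.{0}} {a : K} {y : ZFSet.{0}} :
    pair (cK a) y ∈ cF G ↔ y = G a := by
  rw [cF, ZFSet.mem_range]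
  constructor
  · rintro ⟨b, hb⟩
    obtain ⟨h1, h2⟩ := ZFSet.pair_inj.1 hb
    rw [← h2, cK_inj h1]
  · rintro rfl
    exact ⟨a, rfl⟩

theorem cF_mem {G : K → ZFSet.{0}} {x : ZFSet.{0}} (h : ∀ a, G a ∈ x) :
    cF G ∈ ZFSet.funs (kset K) x := by
  rw [ZFSet.mem_funs]
  refine ⟨fun p hp => ?_, fun z hz => ?_⟩
  · obtain ⟨a, rfl⟩ := ZFSet.mem_range.1 hp
    exact ZFSet.pair_mem_prod.2 ⟨cK_kset a, h a⟩
  · obtain ⟨a, rfl⟩ := mem_kset.1 hz
    exact ⟨G a, pair_mem_cF.2 rfl, fun y hy => pair_mem_cF.1 hy⟩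

end codes

variable {K : Type} [LinearOrder K] [WellFoundedLT K] [Nonempty K] {U : Ultrafilter K}

/-- The name for a subset of the cardinal. -/
noncomputable def nB (B : K → Set (Cnd K)) : PName (Fo U) :=
  PName.mk {x : K × Cnd K // x.2 ∈ B x.1} (fun x => check (cK x.1.1)) fun x => (x.1.2, ⊤)

/-- The families are downward closed. -/
def Down (B : K → Set (Cnd K)) : Prop := ∀ a, ∀ r ∈ B a, ∀ r' ≤ r, r' ∈ B a

/-- The name for a base of the ultrafilter. -/
noncomputable def nU (i : Bool) : PName (Fo U) :=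
  PName.mk {x : (K → Set (Cnd K)) × Fo U // Down x.1 ∧ Rel x.2.1 (tlc i x.2.2) x.1}
    (fun x => nB x.1.1) fun x => x.1.2

/-- The name for the generic subset. -/
noncomputable def nX : PName (Fo U) :=
  PName.mk {x : K × Cnd K // x.2.fn x.1 = some true} (fun x => check (cK x.1.1))
    fun x => (x.1.2, ⊤)

variable (π : Pkg (Fo U))

theorem mem_nB {B : K → Set (Cnd K)} {z : ZFSet.{0}} : z ∈ π.val (nB B) ↔
    ∃ a, cK a ∈ π.Z ∧ (∃ r ∈ B a, ∃ n, (π.g n).1 ≤ r) ∧ π.hat (cK a) = z := by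
  rw [π.mem_val]
  constructor
  · rintro ⟨y, hy, c, ⟨⟨x, hx⟩, rfl, rfl⟩, ⟨n, hn⟩, rfl⟩
    exact ⟨x.1, hy, ⟨x.2, hx, n, hn.1⟩, rfl⟩
  · rintro ⟨a, ha, ⟨r, hr, n, hn⟩, rfl⟩
    exact ⟨_, ha, _, ⟨⟨(a, r), hr⟩, rfl, rfl⟩, ⟨n, hn, le_top⟩, rfl⟩

theorem mem_nX {z : ZFSet.{0}} : z ∈ π.val nX ↔
    ∃ a, cK a ∈ π.Z ∧ (∃ r : Cnd K, r.fn a = some true ∧ ∃ n, (π.g n).1 ≤ r) ∧
      π.hat (cK a) = z := by
  rw [π.mem_val]
  constructor
  · rintro ⟨y, hy, c, ⟨⟨x, hx⟩, rfl, rfl⟩, ⟨n, hn⟩, rfl⟩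
    exact ⟨x.1, hy, ⟨x.2, hx, n, hn.1⟩, rfl⟩
  · rintro ⟨a, ha, ⟨r, hr, n, hn⟩, rfl⟩
    exact ⟨_, ha, _, ⟨⟨(a, r), hr⟩, rfl, rfl⟩, ⟨n, hn, le_top⟩, rfl⟩

theorem mem_nU {i : Bool} {z : ZFSet.{0}} : z ∈ π.val (nU i) ↔
    ∃ B, nB B ∈ π.N ∧ Down B ∧ (∃ n, Rel (π.g n).1 (tlc i (π.g n).2) B) ∧ π.val (nB B) = z := by
  rw [π.mem_val]
  constructor
  · rintro ⟨y, hy, c, ⟨⟨x, hx⟩, rfl, rfl⟩, ⟨n, hn⟩, rfl⟩
    exact ⟨x.1, hy, hx.1, ⟨n, hx.2.mono hn.1 (tlc_mono hn.2)⟩, rfl⟩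
  · rintro ⟨B, hB, hD, ⟨n, hn⟩, rfl⟩
    exact ⟨_, hB, _, ⟨⟨(B, π.g n), hD, hn⟩, rfl, rfl⟩, ⟨n, le_rfl⟩, rfl⟩

/-- Intersections. -/
theorem frc_inter {i : Bool} (hU1 : nU i ∈ π.N) {A1 A2 : ZFSet.{0}} (h1 : A1 ∈ π.val (nU i))
    (h2 : A2 ∈ π.val (nU i)) : ∃ A3 ∈ π.val (nU i), ∀ z ∈ A3, z ∈ A1 ∧ z ∈ A2 := by
  obtain ⟨B1, hB1, hD1, ⟨n1, hn1⟩, rfl⟩ := (mem_nU π).1 h1
  obtain ⟨B2, hB2, hD2, ⟨n2, hn2⟩, rfl⟩ := (mem_nU π).1 h2
  set S : Set (PName (Fo U)) := {nU i, nB B1, nB B2} with hS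
  have hS1 : nU i ∈ S := by simp [hS]
  have hS2 : nB B1 ∈ S := by simp [hS]
  have hS3 : nB B2 ∈ S := by simp [hS]
  have hSπ : S ⊆ π.N := by
    rintro x (rfl | rfl | rfl)
    exacts [hU1, hB1, hB2]
  refine holds_of_dense (S := S) (R := fun π => ∃ A3 ∈ π.val (nU i), ∀ z ∈ A3,
    z ∈ π.val (nB B1) ∧ z ∈ π.val (nB B2)) ?_ π hSπ (max n1 n2) fun n hn => ?_
  · (repeat' first
      | assumption
      | exact NDfnF.proj _
      | exact NDfnF.val (by assumption)
      | exact NDfnF.hat (by assumption)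
      | apply NDfn.not | apply NDfn.and | apply NDfn.or | apply NDfn.imp | apply NDfn.iff
      | apply NDfn.bex | apply NDfn.ball | apply NDfn.ex | apply NDfn.all
      | apply NDfn.eq | apply NDfn.mem | apply NDfnF.pair)
  · have h3 := π.g_anti ((le_max_left n1 n2).trans hn)
    have h4 := π.g_anti ((le_max_right n1 n2).trans hn)
    have h5 := hn1.mono h3.1 (tlc_mono h3.2)
    have h6 := hn2.mono h4.1 (tlc_mono h4.2)
    refine ⟨{nB fun a => B1 a ∩ B2 a}, Set.countable_singleton _, π.g n, le_rfl,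
      fun π' _ hA h0 => ?_⟩
    refine ⟨_, (mem_nU π').2 ⟨fun a => B1 a ∩ B2 a, hA rfl, fun a r hr r' hr' =>
      ⟨hD1 a r hr.1 r' hr', hD2 a r hr.2 r' hr'⟩, ⟨0, ?_⟩, rfl⟩, fun z hz => ?_⟩
    · rw [h0]
      filter_upwards [h5, h6] with a h7 h8 r hr hr'
      obtain ⟨r1, h9, h10⟩ := h7 r hr hr'
      obtain ⟨r2, h11, h12⟩ := h8 r1 (h9.trans hr) (h9.trans hr')
      exact ⟨r2, h11.trans h9, hD1 a r1 h10 r2 h11, h12⟩
    · obtain ⟨a, ha, ⟨r, hr, m, hm⟩, rfl⟩ := (mem_nB π').1 hz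
      exact ⟨(mem_nB π').2 ⟨a, ha, ⟨r, hr.1, m, hm⟩, rfl⟩,
        (mem_nB π').2 ⟨a, ha, ⟨r, hr.2, m, hm⟩, rfl⟩⟩

/-- The elements of the base are not empty. -/
theorem frc_ne (hU : Normal U) {i : Bool} {A : ZFSet.{0}} (h1 : A ∈ π.val (nU i)) :
    ∃ z, z ∈ A := by
  classical
  obtain ⟨B, hB, hD, ⟨n1, hn1⟩, rfl⟩ := (mem_nU π).1 h1
  set S : Set (PName (Fo U)) := {nB B} with hS
  have hS2 : nB B ∈ S := by simp [hS]
  have hSπ : S ⊆ π.N := by
    rintro x rfl
    exact hB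
  have key : ∃ z ∈ π.val (nB B), z = z := by
    refine holds_of_dense (S := S) (R := fun π => ∃ z ∈ π.val (nB B), z = z) ?_ π hSπ n1
      fun n hn => ?_
    · (repeat' first
        | assumption
        | exact NDfnF.proj _
        | exact NDfnF.val (by assumption)
        | apply NDfn.bex
        | apply NDfn.eq)
    · have h3 := π.g_anti hn
      have h5 := hn1.mono h3.1 (tlc_mono h3.2)
      obtain ⟨a, h6, h7⟩ := (h5.and (eventually_lo hU (π.g n).1)).exists
      obtain ⟨r, hr, hrB⟩ := h6 (Cnd.glue (· < a) (π.g n).1 ((tlc i (π.g n).2).fn a))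
        (Cnd.glue_le_left h7) (Cnd.glue_le_right ((tlc i (π.g n).2).hi a))
      refine ⟨{check (cK a)}, Set.countable_singleton _, (r, (π.g n).2),
        ⟨hr.trans (Cnd.glue_le_left h7), le_rfl⟩, fun π' _ hA h0 => ?_⟩
      refine ⟨π'.hat (cK a), (mem_nB π').2 ⟨a, hA rfl, ⟨r, hrB, 0, ?_⟩, rfl⟩, rfl⟩
      rw [h0]
  obtain ⟨z, hz, -⟩ := key
  exact ⟨z, hz⟩

/-- The base contains the large sets of the ground model. -/
theorem frc_large {i : Bool} (hU1 : nU i ∈ π.N) {Xs : ZFSet.{0}} (hX : Xs ∈ π.Z)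
    (h1 : ∀ᶠ a in (U : Filter K), cK a ∈ Xs) :
    ∃ A ∈ π.val (nU i), ∀ z ∈ A, z ∈ π.hat Xs := by
  set S : Set (PName (Fo U)) := {nU i, check Xs} with hS
  have hS1 : nU i ∈ S := by simp [hS]
  have hS2 : check Xs ∈ S := by simp [hS]
  have hSπ : S ⊆ π.N := by
    rintro x (rfl | rfl)
    exacts [hU1, hX]
  refine holds_of_dense (S := S) (R := fun π => ∃ A ∈ π.val (nU i), ∀ z ∈ A, z ∈ π.hat Xs)
    ?_ π hSπ 0 fun n hn => ?_
  · (repeat' first
      | assumption
      | exact NDfnF.proj _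
      | exact NDfnF.val (by assumption)
      | exact NDfnF.hat (by assumption)
      | apply NDfn.not | apply NDfn.and | apply NDfn.or | apply NDfn.imp | apply NDfn.iff
      | apply NDfn.bex | apply NDfn.ball | apply NDfn.ex | apply NDfn.all
      | apply NDfn.eq | apply NDfn.mem | apply NDfnF.pair)
  · refine ⟨{nB fun a => {r | cK a ∈ Xs}}, Set.countable_singleton _, π.g n, le_rfl,
      fun π' hS' hA h0 => ?_⟩
    refine ⟨_, (mem_nU π').2 ⟨fun a => {r | cK a ∈ Xs}, hA rfl, fun a r hr r' hr' => hr,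
      ⟨0, ?_⟩, rfl⟩, fun z hz => ?_⟩
    · filter_upwards [h1] with a ha r hr hr'
      exact ⟨r, le_rfl, ha⟩
    · obtain ⟨a, ha, ⟨r, hr, -⟩, rfl⟩ := (mem_nB π').1 hz
      exact (π'.hat_mem_hat ha (hS' hS2)).2 hr

/-- Representation by functions of the ground model. -/
theorem frc_rep (hU : Normal U) {i : Bool} (hU1 : nU i ∈ π.N) {x : ZFSet.{0}} (hx : x ∈ π.Z)
    (hk : kset K ∈ π.Z) (hf : ZFSet.funs (kset K) x ∈ π.Z) {τ : PName (Fo U)} (hτ : τ ∈ π.N)
    (h1 : ∀ ξ ∈ π.hat (kset K), ∃ y ∈ π.hat x, pair ξ y ∈ π.val τ) :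
    ∃ g ∈ π.hat (ZFSet.funs (kset K) x), ∃ A ∈ π.val (nU i), ∀ ξ ∈ A, ∀ y ∈ π.hat x,
      pair ξ y ∈ g → pair ξ y ∈ π.val τ := by
  classical
  set S : Set (PName (Fo U)) := {nU i, check x, check (kset K), τ,
    check (ZFSet.funs (kset K) x)} with hS
  have hS1 : nU i ∈ S := by simp [hS]
  have hS2 : check x ∈ S := by simp [hS]
  have hS3 : check (kset K) ∈ S := by simp [hS]
  have hS4 : τ ∈ S := by simp [hS]
  have hS5 : check (ZFSet.funs (kset K) x) ∈ S := by simp [hS]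
  have hSπ : S ⊆ π.N := by
    rintro x (rfl | rfl | rfl | rfl | rfl)
    exacts [hU1, hx, hk, hτ, hf]
  have hd0 : NDfn S fun π (_ : Fin 0 → ZFSet.{0}) =>
      ∀ ξ ∈ π.hat (kset K), ∃ y ∈ π.hat x, pair ξ y ∈ π.val τ := by
    (repeat' first
      | assumption
      | exact NDfnF.proj _
      | exact NDfnF.val (by assumption)
      | exact NDfnF.hat (by assumption)
      | apply NDfn.not | apply NDfn.and | apply NDfn.or | apply NDfn.imp | apply NDfn.iff
      | apply NDfn.bex | apply NDfn.ball | apply NDfn.ex | apply NDfn.all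
      | apply NDfn.eq | apply NDfn.mem | apply NDfnF.pair)
  obtain ⟨n0, hn0⟩ := forcing_theorem hd0 π hSπ h1
  refine holds_of_dense (S := S) (R := fun π => ∃ g ∈ π.hat (ZFSet.funs (kset K) x),
    ∃ A ∈ π.val (nU i), ∀ ξ ∈ A, ∀ y ∈ π.hat x, pair ξ y ∈ g → pair ξ y ∈ π.val τ)
    ?_ π hSπ n0 fun n hn => ?_
  · (repeat' first
      | assumption
      | exact NDfnF.proj _
      | exact NDfnF.val (by assumption)
      | exact NDfnF.hat (by assumption)
      | apply NDfn.not | apply NDfn.and | apply NDfn.or | apply NDfn.imp | apply NDfn.iff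
      | apply NDfn.bex | apply NDfn.ball | apply NDfn.ex | apply NDfn.all
      | apply NDfn.eq | apply NDfn.mem | apply NDfnF.pair)
  · let D : K × K → ZFSet.{0} → Fo U → Prop := fun a y c => y ∈ x ∧
      Frc {τ, check (cK a.1), check y} (fun π => pair (π.hat (cK a.1)) (π.hat y) ∈ π.val τ) c
    obtain ⟨r, hr, h2⟩ := decide2 hU D (fun a y c c' hc h => ⟨h.1, h.2.mono hc⟩) (π.g n)
      (fun a c' hc' => by
        obtain ⟨π', h3, h4⟩ := exists_pkg' (S ∪ {check (cK a.1)})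
          ((Set.toFinite _).countable.union (Set.toFinite _).countable) c'
        have hS' : S ⊆ π'.N := fun x hx => h3 (Or.inl hx)
        have haZ : cK a.1 ∈ π'.Z := h3 (Or.inr rfl)
        have h5 := hn0 π' hS' ⟨0, by
          rw [h4]
          exact hc'.trans (π.g_anti hn)⟩
        obtain ⟨y', hy', h6⟩ := h5 (π'.hat (cK a.1)) ((π'.hat_mem_hat haZ (hS' hS3)).2
          (cK_kset _))
        obtain ⟨y, hy, hyZ, rfl⟩ := π'.mem_hat.1 hy'
        set T : Set (PName (Fo U)) := {τ, check (cK a.1), check y} with hT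
        have hT1 : τ ∈ T := by simp [hT]
        have hT2 : check (cK a.1) ∈ T := by simp [hT]
        have hT3 : check y ∈ T := by simp [hT]
        have hd2 : NDfn T fun π (_ : Fin 0 → ZFSet.{0}) =>
            pair (π.hat (cK a.1)) (π.hat y) ∈ π.val τ :=
          NDfn.mem ((NDfnF.hat hT2).pair (NDfnF.hat hT3)) (NDfnF.val hT1)
        obtain ⟨q, hq, h7⟩ := exists_frc hd2 π' (by
          rintro z (rfl | rfl | rfl)
          exacts [hS' hS4, haZ, hyZ]) h6
        exact ⟨q, hq.trans h4.le, y, hy, h7⟩) i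
    obtain ⟨p, q, y, hp, hq, hR⟩ := h2 id
    let c : Fo U := (p, if i = true then (r.1, q) else (q, r.2))
    have hc2 : c.2 ≤ r := by
      cases i
      · exact ⟨hq, le_rfl⟩
      · exact ⟨le_rfl, hq⟩
    have hci : tlc i c.2 = q := by
      cases i
      · rfl
      · rfl
    have hyx : ∀ᶠ a in (U : Filter K), y a ∈ x := by
      filter_upwards [hR, eventually_lo hU p] with a h3 h4
      obtain ⟨s, -, hs⟩ := h3 (Cnd.glue (· < a) p (q.fn a)) (Cnd.glue_le_left h4)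
        (Cnd.glue_le_right (q.hi a))
      exact hs.1
    obtain ⟨a0, ha0⟩ := hyx.exists
    let G : K → ZFSet.{0} := fun a => if y a ∈ x then y a else y a0
    have hG : ∀ a, G a ∈ x := by
      intro a
      by_cases h : y a ∈ x
      · simpa only [G, if_pos h] using h
      · simpa only [G, if_neg h] using ha0
    let B : K → Set (Cnd K) := fun a => {s | D (a, a) (y a) (s, r)}
    refine ⟨{nB B, check (cF G)}, (Set.toFinite _).countable, c, ⟨hp, hc2.trans hr⟩,
      fun π' hS' hA h0 => ?_⟩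
    have hcF : cF G ∈ π'.Z := hA (Or.inr rfl)
    refine ⟨π'.hat (cF G), (π'.hat_mem_hat hcF (hS' hS5)).2 (cF_mem hG), _,
      (mem_nU π').2 ⟨B, hA (Or.inl rfl), fun a s hs s' hs' => ?_, ⟨0, ?_⟩, rfl⟩,
      fun ξ hξ z hz hp => ?_⟩
    · exact ⟨hs.1, hs.2.mono ⟨hs', le_rfl⟩⟩
    · rw [h0, hci]
      exact hR
    · obtain ⟨a, ha, ⟨s, hs, m, hm⟩, rfl⟩ := (mem_nB π').1 hξ
      obtain ⟨y', hy', hyZ, rfl⟩ := π'.mem_hat.1 hz
      have h5 : y' = y a := by
        have h6 := pair_mem_cF.1 ((π'.pair_mem_hat ha hyZ hcF).1 hp)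
        have h7 : G a = y a := if_pos hs.1
        rw [h6, h7]
      subst h5
      refine hs.2 π' ?_ ⟨m, hm, ?_⟩
      · rintro z (rfl | rfl | rfl)
        exacts [hS' hS4, ha, hyZ]
      · refine (π'.g_anti (Nat.zero_le m)).2.trans ?_
        rw [h0]
        exact hc2

/-- Normality. -/
theorem frc_norm (hU : Normal U) {i : Bool} (hU1 : nU i ∈ π.N) (hk : kset K ∈ π.Z)
    {τ : PName (Fo U)} (hτ : τ ∈ π.N) :
    ∃ A ∈ π.val (nU i), (∀ ξ ∈ A, ∀ y ∈ ξ, pair ξ y ∉ π.val τ) ∨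
      ∃ β ∈ π.hat (kset K), ∀ ξ ∈ A, pair ξ β ∈ π.val τ := by
  classical
  set S : Set (PName (Fo U)) := {nU i, check (kset K), τ} with hS
  have hS1 : nU i ∈ S := by simp [hS]
  have hS3 : check (kset K) ∈ S := by simp [hS]
  have hS4 : τ ∈ S := by simp [hS]
  have hSπ : S ⊆ π.N := by
    rintro x (rfl | rfl | rfl)
    exacts [hU1, hk, hτ]
  refine holds_of_dense (S := S) (R := fun π => ∃ A ∈ π.val (nU i),
    (∀ ξ ∈ A, ∀ y ∈ ξ, pair ξ y ∉ π.val τ) ∨
      ∃ β ∈ π.hat (kset K), ∀ ξ ∈ A, pair ξ β ∈ π.val τ) ?_ π hSπ 0 fun n hn => ?_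
  · (repeat' first
      | assumption
      | exact NDfnF.proj _
      | exact NDfnF.val (by assumption)
      | exact NDfnF.hat (by assumption)
      | apply NDfn.not | apply NDfn.and | apply NDfn.or | apply NDfn.imp | apply NDfn.iff
      | apply NDfn.bex | apply NDfn.ball | apply NDfn.ex | apply NDfn.all
      | apply NDfn.eq | apply NDfn.mem | apply NDfnF.pair)
  · let D : K × K → Option K → Fo U → Prop := fun a y c =>
      (∃ b, y = some b ∧ b < a.1 ∧ Frc {τ, check (cK a.1), check (cK b)}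
        (fun π => pair (π.hat (cK a.1)) (π.hat (cK b)) ∈ π.val τ) c) ∨
      (y = none ∧ Frc {τ, check (cK a.1)}
        (fun π => ∀ z ∈ π.hat (cK a.1), pair (π.hat (cK a.1)) z ∉ π.val τ) c)
    have hDm : ∀ a y c c', c' ≤ c → D a y c → D a y c' := by
      rintro a y c c' hc (⟨b, h1, h2, h3⟩ | ⟨h1, h2⟩)
      · exact Or.inl ⟨b, h1, h2, h3.mono hc⟩
      · exact Or.inr ⟨h1, h2.mono hc⟩
    obtain ⟨r, hr, h2⟩ := decide2 hU D hDm (π.g n)
      (fun a c' hc' => by
        obtain ⟨π', h3, h4⟩ := exists_pkg' ({τ, check (cK a.1)})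
          ((Set.toFinite _).countable) c'
        have haZ : cK a.1 ∈ π'.Z := h3 (by simp)
        have hτ' : τ ∈ π'.N := h3 (by simp)
        by_cases h6 : ∃ z ∈ π'.hat (cK a.1), pair (π'.hat (cK a.1)) z ∈ π'.val τ
        · obtain ⟨y', hy', h6⟩ := h6
          obtain ⟨y, hy, hyZ, rfl⟩ := π'.mem_hat.1 hy'
          obtain ⟨b, hb, rfl⟩ := mem_cK.1 hy
          set T : Set (PName (Fo U)) := {τ, check (cK a.1), check (cK b)} with hT
          have hT1 : τ ∈ T := by simp [hT]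
          have hT2 : check (cK a.1) ∈ T := by simp [hT]
          have hT3 : check (cK b) ∈ T := by simp [hT]
          have hd2 : NDfn T fun π (_ : Fin 0 → ZFSet.{0}) =>
              pair (π.hat (cK a.1)) (π.hat (cK b)) ∈ π.val τ :=
            NDfn.mem ((NDfnF.hat hT2).pair (NDfnF.hat hT3)) (NDfnF.val hT1)
          obtain ⟨q, hq, h7⟩ := exists_frc hd2 π' (by
            rintro z (rfl | rfl | rfl)
            exacts [hτ', haZ, hyZ]) h6
          exact ⟨q, hq.trans h4.le, some b, Or.inl ⟨b, rfl, hb, h7⟩⟩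
        · push Not at h6
          set T : Set (PName (Fo U)) := {τ, check (cK a.1)} with hT
          have hT1 : τ ∈ T := by simp [hT]
          have hT2 : check (cK a.1) ∈ T := by simp [hT]
          have hd2 : NDfn T fun π (_ : Fin 0 → ZFSet.{0}) =>
              ∀ z ∈ π.hat (cK a.1), pair (π.hat (cK a.1)) z ∉ π.val τ := by
            (repeat' first
              | assumption
              | exact NDfnF.proj _
              | exact NDfnF.val (by assumption)
              | exact NDfnF.hat (by assumption)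
              | apply NDfn.not | apply NDfn.and | apply NDfn.or | apply NDfn.imp | apply NDfn.iff
              | apply NDfn.bex | apply NDfn.ball | apply NDfn.ex | apply NDfn.all
              | apply NDfn.eq | apply NDfn.mem | apply NDfnF.pair)
          obtain ⟨q, hq, h7⟩ := exists_frc hd2 π' (by
            rintro z (rfl | rfl)
            exacts [hτ', haZ]) h6
          exact ⟨q, hq.trans h4.le, none, Or.inr ⟨rfl, h7⟩⟩) i
    obtain ⟨p, q, y, hp, hq, hR⟩ := h2 id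
    let c : Fo U := (p, if i = true then (r.1, q) else (q, r.2))
    have hc2 : c.2 ≤ r := by
      cases i
      · exact ⟨hq, le_rfl⟩
      · exact ⟨le_rfl, hq⟩
    have hci : tlc i c.2 = q := by
      cases i
      · rfl
      · rfl
    have hyx : ∀ᶠ a in (U : Filter K), ∀ b, y a = some b → b < a := by
      filter_upwards [hR, eventually_lo hU p] with a h3 h4 b hb
      obtain ⟨s, -, hs⟩ := h3 (Cnd.glue (· < a) p (q.fn a)) (Cnd.glue_le_left h4)
        (Cnd.glue_le_right (q.hi a))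
      rcases hs with ⟨b', h5, h6, -⟩ | ⟨h5, -⟩
      · rw [hb] at h5
        obtain rfl := Option.some.inj h5
        exact h6
      · rw [hb] at h5
        cases h5
    have hcase : (∀ᶠ a in (U : Filter K), y a = none) ∨
        ∃ b, ∀ᶠ a in (U : Filter K), y a = some b := by
      by_cases h3 : ∀ᶠ a in (U : Filter K), y a = none
      · exact Or.inl h3
      · rw [← Ultrafilter.eventually_not] at h3
        right
        obtain ⟨b, hb⟩ := hU.press (fun a => (y a).getD a) (by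
          filter_upwards [h3, hyx] with a h4 h5
          cases h6 : y a with
          | none => exact absurd h6 h4
          | some b => simpa [h6] using h5 b h6)
        refine ⟨b, ?_⟩
        filter_upwards [h3, hb] with a h4 h5
        cases h6 : y a with
        | none => exact absurd h6 h4
        | some b' =>
          rw [h6] at h5
          exact congrArg some h5
    have hge : ∀ π' : Pkg (Fo U), π'.g 0 = c → ∀ s m, (π'.g m).1 ≤ s → π'.g m ≤ (s, r) := by
      intro π' h0 s m hm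
      refine ⟨hm, ?_⟩
      refine (π'.g_anti (Nat.zero_le m)).2.trans ?_
      rw [h0]
      exact hc2
    rcases hcase with hcase | ⟨b, hcase⟩
    · let B : K → Set (Cnd K) := fun a => {s | D (a, a) none (s, r)}
      refine ⟨{nB B}, (Set.toFinite _).countable, c, ⟨hp, hc2.trans hr⟩,
        fun π' hS' hA h0 => ?_⟩
      refine ⟨_, (mem_nU π').2 ⟨B, hA rfl, fun a s hs s' hs' => ?_, ⟨0, ?_⟩, rfl⟩,
        Or.inl fun ξ hξ => ?_⟩
      · exact hDm _ _ (s, r) (s', r) ⟨hs', le_rfl⟩ hs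
      · rw [h0, hci]
        filter_upwards [hR, hcase] with a h3 h4
        rw [h4] at h3
        exact h3
      · obtain ⟨a, ha, ⟨s, hs, m, hm⟩, rfl⟩ := (mem_nB π').1 hξ
        rcases hs with ⟨b', h5, -⟩ | ⟨-, h5⟩
        · cases h5
        · refine h5 π' ?_ ⟨m, hge π' h0 s m hm⟩
          rintro z (rfl | rfl)
          exacts [hS' hS4, ha]
    · let B : K → Set (Cnd K) := fun a => {s | D (a, a) (some b) (s, r)}
      refine ⟨{nB B, check (cK b)}, (Set.toFinite _).countable, c, ⟨hp, hc2.trans hr⟩,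
        fun π' hS' hA h0 => ?_⟩
      have hbZ : cK b ∈ π'.Z := hA (Or.inr rfl)
      refine ⟨_, (mem_nU π').2 ⟨B, hA (Or.inl rfl), fun a s hs s' hs' => ?_, ⟨0, ?_⟩, rfl⟩,
        Or.inr ⟨π'.hat (cK b), (π'.hat_mem_hat hbZ (hS' hS3)).2 (cK_kset b), fun ξ hξ => ?_⟩⟩
      · exact hDm _ _ (s, r) (s', r) ⟨hs', le_rfl⟩ hs
      · rw [h0, hci]
        filter_upwards [hR, hcase] with a h3 h4
        rw [h4] at h3
        exact h3
      · obtain ⟨a, ha, ⟨s, hs, m, hm⟩, rfl⟩ := (mem_nB π').1 hξ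
        rcases hs with ⟨b', h5, -, h6⟩ | ⟨h5, -⟩
        · obtain rfl := Option.some.inj h5
          refine h6 π' ?_ ⟨m, hge π' h0 s m hm⟩
          rintro z (rfl | rfl | rfl)
          exacts [hS' hS4, ha, hbZ]
        · cases h5

/-- The two measures differ on the generic subset. -/
theorem frc_diff (hU : Normal U) (hU1 : nU false ∈ π.N) (hU2 : nU true ∈ π.N)
    (hX : nX ∈ π.N) (hk : kset K ∈ π.Z) (hf : ZFSet.funs (kset K) (kset K) ∈ π.Z)
    {τ : PName (Fo U)} (hτ : τ ∈ π.N) :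
    ∃ g ∈ π.hat (ZFSet.funs (kset K) (kset K)), ∃ A0 ∈ π.val (nU false),
      ∃ A1 ∈ π.val (nU true),
      ((∀ ξ ∈ A0, ∀ y ∈ π.hat (kset K), pair ξ y ∈ g → y ∈ π.val nX) ∧
        ∀ ξ ∈ A1, ∀ y ∈ π.hat (kset K), pair ξ y ∈ g → pair ξ y ∉ π.val τ) ∨
      ((∀ ξ ∈ A0, ∀ y ∈ π.hat (kset K), pair ξ y ∈ g → y ∉ π.val nX) ∧
        ∀ ξ ∈ A1, ∀ y ∈ π.hat (kset K), pair ξ y ∈ g → pair ξ y ∈ π.val τ) := by
  classical
  set S : Set (PName (Fo U)) := {nU false, nU true, nX, check (kset K),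
    check (ZFSet.funs (kset K) (kset K)), τ} with hS
  have hS1 : nU false ∈ S := by simp [hS]
  have hS2 : nU true ∈ S := by simp [hS]
  have hS3 : nX ∈ S := by simp [hS]
  have hS4 : check (kset K) ∈ S := by simp [hS]
  have hS5 : check (ZFSet.funs (kset K) (kset K)) ∈ S := by simp [hS]
  have hS6 : τ ∈ S := by simp [hS]
  have hSπ : S ⊆ π.N := by
    rintro x (rfl | rfl | rfl | rfl | rfl | rfl)
    exacts [hU1, hU2, hX, hk, hf, hτ]
  refine holds_of_dense (S := S) (R := fun π =>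
    ∃ g ∈ π.hat (ZFSet.funs (kset K) (kset K)), ∃ A0 ∈ π.val (nU false),
      ∃ A1 ∈ π.val (nU true),
      ((∀ ξ ∈ A0, ∀ y ∈ π.hat (kset K), pair ξ y ∈ g → y ∈ π.val nX) ∧
        ∀ ξ ∈ A1, ∀ y ∈ π.hat (kset K), pair ξ y ∈ g → pair ξ y ∉ π.val τ) ∨
      ((∀ ξ ∈ A0, ∀ y ∈ π.hat (kset K), pair ξ y ∈ g → y ∉ π.val nX) ∧
        ∀ ξ ∈ A1, ∀ y ∈ π.hat (kset K), pair ξ y ∈ g → pair ξ y ∈ π.val τ)) ?_ π hSπ 0
    fun n hn => ?_
  · (repeat' first
      | assumption
      | exact NDfnF.proj _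
      | exact NDfnF.val (by assumption)
      | exact NDfnF.hat (by assumption)
      | apply NDfn.not | apply NDfn.and | apply NDfn.or | apply NDfn.imp | apply NDfn.iff
      | apply NDfn.bex | apply NDfn.ball | apply NDfn.ex | apply NDfn.all
      | apply NDfn.eq | apply NDfn.mem | apply NDfnF.pair)
  · let D : K × K → Bool → Fo U → Prop := fun a v c =>
      Frc {τ, check (cK a.1), check (cK a.2)}
        (fun π => pair (π.hat (cK a.1)) (π.hat (cK a.2)) ∈ π.val τ ↔ v = true) c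
    have hDm : ∀ a y c c', c' ≤ c → D a y c → D a y c' := fun a y c c' hc h => h.mono hc
    obtain ⟨r, hr, h2⟩ := decide2 hU D hDm (π.g n)
      (fun a c' hc' => by
        set T : Set (PName (Fo U)) := {τ, check (cK a.1), check (cK a.2)} with hT
        have hT1 : τ ∈ T := by simp [hT]
        have hT2 : check (cK a.1) ∈ T := by simp [hT]
        have hT3 : check (cK a.2) ∈ T := by simp [hT]
        obtain ⟨π', h3, h4⟩ := exists_pkg' T ((Set.toFinite _).countable) c'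
        have hd2 : NDfn T fun π (_ : Fin 0 → ZFSet.{0}) =>
            pair (π.hat (cK a.1)) (π.hat (cK a.2)) ∈ π.val τ :=
          NDfn.mem ((NDfnF.hat hT2).pair (NDfnF.hat hT3)) (NDfnF.val hT1)
        by_cases h6 : pair (π'.hat (cK a.1)) (π'.hat (cK a.2)) ∈ π'.val τ
        · obtain ⟨q, hq, h7⟩ := exists_frc hd2 π' h3 h6
          refine ⟨q, hq.trans h4.le, true, fun π'' h8 h9 => ?_⟩
          exact ⟨fun _ => rfl, fun _ => h7 π'' h8 h9⟩
        · obtain ⟨q, hq, h7⟩ := exists_frc hd2.not π' h3 h6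
          refine ⟨q, hq.trans h4.le, false, fun π'' h8 h9 => ?_⟩
          exact ⟨fun h => absurd h (h7 π'' h8 h9), fun h => by cases h⟩) true
    choose d hd using fun a => ((tlc false r).fn a).bdd
    let g : K → K := fun a => max a (d a)
    have hga : ∀ a, a ≤ g a := fun a => le_max_left _ _
    have hgn : ∀ a, ((tlc false r).fn a).fn (g a) = none := fun a => hd a _ (le_max_right _ _)
    obtain ⟨p, q, y, hp, hq, hR⟩ := h2 g
    obtain ⟨v, hv⟩ : ∃ v, ∀ᶠ a in (U : Filter K), y a = v := by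
      rcases U.em (fun a => y a = true) with h3 | h3
      · exact ⟨true, h3⟩
      · refine ⟨false, ?_⟩
        filter_upwards [h3] with a ha
        simpa using ha
    let q0 : Tl U := ⟨fun a => ((tlc false r).fn a).upd (g a) (!v) (exists_gt hU (g a)),
      fun a => Cnd.upd_hi ((tlc false r).hi a) (hga a)⟩
    have hq0 : q0 ≤ tlc false r := Eventually.of_forall fun a =>
      Cnd.upd_le (hg := exists_gt hU (g a)) (hgn a)
    let c : Fo U := (p, (q0, q))
    have hc2 : c.2 ≤ r := ⟨hq0, hq⟩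
    let B0 : K → Set (Cnd K) := fun a => {s | s.fn (g a) = some (!v)}
    let B1 : K → Set (Cnd K) := fun a => {s | D (a, g a) v (s, r)}
    let G : K → ZFSet.{0} := fun a => cK (g a)
    refine ⟨{nB B0, nB B1, check (cF G)}, (Set.toFinite _).countable, c, ⟨hp, hc2.trans hr⟩,
      fun π' hS' hA h0 => ?_⟩
    have hcF : cF G ∈ π'.Z := hA (by simp)
    have hA0 : π'.val (nB B0) ∈ π'.val (nU false) := by
      refine (mem_nU π').2 ⟨B0, hA (by simp), fun a s hs s' hs' => hs' _ _ hs, ⟨0, ?_⟩, rfl⟩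
      rw [h0]
      refine Eventually.of_forall fun a s _ hs => ⟨s, le_rfl, hs _ _ ?_⟩
      exact Cnd.upd_self (hg := exists_gt hU (g a))
    have hA1 : π'.val (nB B1) ∈ π'.val (nU true) := by
      refine (mem_nU π').2 ⟨B1, hA (by simp), fun a s hs s' hs' =>
        hDm _ _ (s, r) (s', r) ⟨hs', le_rfl⟩ hs, ⟨0, ?_⟩, rfl⟩
      rw [h0]
      filter_upwards [hR, hv] with a h3 h4
      rw [h4] at h3
      exact h3
    have hG : π'.hat (cF G) ∈ π'.hat (ZFSet.funs (kset K) (kset K)) :=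
      (π'.hat_mem_hat hcF (hS' hS5)).2 (cF_mem fun a => cK_kset _)
    have hpair : ∀ a, cK a ∈ π'.Z → ∀ y ∈ π'.hat (kset K),
        pair (π'.hat (cK a)) y ∈ π'.hat (cF G) → cK (g a) ∈ π'.Z ∧ y = π'.hat (cK (g a)) := by
      intro a ha y hy hp
      obtain ⟨y', -, hyZ, rfl⟩ := π'.mem_hat.1 hy
      have h5 : pair (cK a) y' ∈ cF G := (π'.pair_mem_hat ha hyZ hcF).1 hp
      have h6 : y' = G a := pair_mem_cF.1 h5
      have h7 : G a = cK (g a) := rfl
      rw [h6, h7] at hyZ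
      exact ⟨hyZ, by rw [h6]⟩
    have hB1 : ∀ ξ ∈ π'.val (nB B1), ∀ y ∈ π'.hat (kset K), pair ξ y ∈ π'.hat (cF G) →
        (pair ξ y ∈ π'.val τ ↔ v = true) := by
      intro ξ hξ y hy hp
      obtain ⟨a, ha, ⟨s, hs, m, hm⟩, rfl⟩ := (mem_nB π').1 hξ
      obtain ⟨h3, rfl⟩ := hpair a ha y hy hp
      have hs2 : D (a, g a) v (s, r) := hs
      have hT : ({τ, check (cK a), check (cK (g a))} : Set (PName (Fo U))) ⊆ π'.N := by
        intro z hz
        rcases hz with h | h | h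
        · rw [h]
          exact hS' hS6
        · rw [h]
          exact ha
        · rw [h]
          exact h3
      have hle : π'.g m ≤ (s, r) := by
        refine ⟨hm, (π'.g_anti (Nat.zero_le m)).2.trans ?_⟩
        rw [h0]
        exact hc2
      exact hs2 π' hT ⟨m, hle⟩
    have hB0 : ∀ ξ ∈ π'.val (nB B0), ∀ y ∈ π'.hat (kset K), pair ξ y ∈ π'.hat (cF G) →
        (y ∈ π'.val nX ↔ v = false) := by
      intro ξ hξ y hy hp
      obtain ⟨a, ha, ⟨s, hs, m, hm⟩, rfl⟩ := (mem_nB π').1 hξ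
      obtain ⟨h3, rfl⟩ := hpair a ha y hy hp
      rw [mem_nX]
      constructor
      · rintro ⟨b, hb, ⟨s', hs', m', hm'⟩, h4⟩
        have h5 := cK_inj ((π'.hat_inj hb h3).1 h4)
        subst h5
        have h6 := (π'.g_le_left m m').1.trans hm _ _ hs
        have h7 := (π'.g_le_right m m').1.trans hm' _ _ hs'
        rw [h6] at h7
        have h8 := Option.some.inj h7
        cases v
        · rfl
        · cases h8
      · rintro rfl
        exact ⟨g a, h3, ⟨s, hs, m, hm⟩, rfl⟩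
    refine ⟨_, hG, _, hA0, _, hA1, ?_⟩
    cases v
    · left
      refine ⟨fun ξ hξ y hy hp => (hB0 ξ hξ y hy hp).2 rfl, fun ξ hξ y hy hp h => ?_⟩
      have := (hB1 ξ hξ y hy hp).1 h
      cases this
    · right
      refine ⟨fun ξ hξ y hy hp h => ?_, fun ξ hξ y hy hp => (hB1 ξ hξ y hy hp).2 rfl⟩
      have := (hB0 ξ hξ y hy hp).1 h
      cases this

end Pool.Agent.W868.KP
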