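import Pool.Agent.W868.KP.Nms
import Pool.Agent.W868.KP.Emb

/-!
# The generic extension has two normal ultrafilters with the same action on the ordinals
-/

set_option autoImplicit false
set_option linter.unreachableTactic false
set_option linter.unusedTactic false
set_option linter.unusedSectionVars false

namespace Pool.Agent.W868

open PName Filter
open ZFSet (pair)

namespace Pkg

variable {P : Type} [Preorder P] [OrderTop P] (π : Pkg P)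

theorem sep_Z {x : ZFSet.{0}} (hx : x ∈ π.Z) {Q : ZFSet.{0} → Prop}
    (h : Dfn π.Z Set.univ fun w : Fin 1 → ZFSet.{0} => Q (w 0)) : ZFSet.sep Q x ∈ π.Z := by
  have hB := isBase_univ
  have hd : Dfn π.Z Set.univ fun w : Fin 1 → ZFSet.{0} =>
      ∀ z ∈ Set.univ, z ∈ w 0 ↔ z ∈ x ∧ Q z := by
    apply Dfn.all
    apply Dfn.iff
    · exact Dfn.mem (DfnF.proj 0) (DfnF.proj 1)
    · exact (Dfn.mem (DfnF.proj 0) (DfnF.const' (Set.mem_univ _) hx)).and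
        (Dfn.comp1 (Q := Q) h (DfnF.proj 0))
  obtain ⟨y, hy, h1⟩ := π.exists_Z (Q := fun y => ∀ z ∈ Set.univ, z ∈ y ↔ z ∈ x ∧ Q z) hd
    ⟨ZFSet.sep Q x, fun z _ => ZFSet.mem_sep⟩
  have h2 : y = ZFSet.sep Q x := by
    ext z
    rw [h1 z trivial, ZFSet.mem_sep]
  exact h2 ▸ hy

theorem funs_Z {x y : ZFSet.{0}} (hx : x ∈ π.Z) (hy : y ∈ π.Z) : ZFSet.funs x y ∈ π.Z := by
  have hB := isBase_univ
  have hd : Dfn π.Z Set.univ fun w : Fin 1 → ZFSet.{0} =>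
      ∀ z ∈ Set.univ, z ∈ w 0 ↔ ZFSet.IsFunc x y z := by
    apply Dfn.all
    apply Dfn.iff
    · exact Dfn.mem (DfnF.proj 0) (DfnF.proj 1)
    · exact hB.isFunc' (DfnF.const' (Set.mem_univ _) hx) (DfnF.const' (Set.mem_univ _) hy) (DfnF.proj 0)
  obtain ⟨z, hz, h1⟩ := π.exists_Z (Q := fun z => ∀ f ∈ Set.univ, f ∈ z ↔ ZFSet.IsFunc x y f) hd
    ⟨ZFSet.funs x y, fun z _ => ZFSet.mem_funs⟩
  have h2 : z = ZFSet.funs x y := by
    ext f
    rw [h1 f trivial, ZFSet.mem_funs]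
  exact h2 ▸ hz

/-- The values of a function of the ground model. -/
theorem hat_ap {x y G z : ZFSet.{0}} (hx : x ∈ π.Z) (hy : y ∈ π.Z) (hG : G ∈ π.Z)
    (hf : ZFSet.IsFunc x y G) (hz : z ∈ π.Z) (hzx : z ∈ x) :
    ∃ w ∈ y, w ∈ π.Z ∧ pair z w ∈ G ∧ ap (π.hat G) (π.hat z) = π.hat w ∧
      pair (π.hat z) (π.hat w) ∈ π.hat G := by
  have hB := isBase_univ
  have hd : Dfn π.Z Set.univ fun w : Fin 1 → ZFSet.{0} => pair z (w 0) ∈ G := by
    exact Dfn.mem (hB.pair' (DfnF.const' (Set.mem_univ _) hz) (DfnF.proj 0)) (DfnF.const' (Set.mem_univ _) hG)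
  obtain ⟨b, hb, huniq⟩ := hf.2 z hzx
  obtain ⟨w, hw, h1⟩ := π.exists_Z (Q := fun b => pair z b ∈ G) hd ⟨b, hb⟩
  have h2 : pair (π.hat z) (π.hat w) ∈ π.hat G := (π.pair_mem_hat hz hw hG).2 h1
  have h3 : ZFSet.IsFunc (π.hat x) (π.hat y) (π.hat G) := by
    refine ⟨?_, fun a' ha' => ?_⟩
    · rw [← π.hat_prod hx hy]
      exact π.hat_subset hf.1
    · obtain ⟨a, ha, haZ, rfl⟩ := π.mem_hat.1 ha'
      have hd2 : Dfn π.Z Set.univ fun w : Fin 1 → ZFSet.{0} => pair a (w 0) ∈ G := by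
        exact Dfn.mem (hB.pair' (DfnF.const' (Set.mem_univ _) haZ) (DfnF.proj 0))
          (DfnF.const' (Set.mem_univ _) hG)
      obtain ⟨b', hb', huniq'⟩ := hf.2 a ha
      obtain ⟨b, hb, h1⟩ := π.exists_Z (Q := fun b => pair a b ∈ G) hd2 ⟨b', hb'⟩
      refine ⟨π.hat b, (π.pair_mem_hat haZ hb hG).2 h1, fun c hc => ?_⟩
      obtain ⟨a2, ha2, c2, hc2, h2, rfl, h3⟩ := π.of_pair_mem_hat hG hc
      obtain rfl := (π.hat_inj haZ ha2).1 h2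
      rw [huniq' c2 h3, huniq' b h1]
  exact ⟨w, (ZFSet.pair_mem_prod.1 (hf.1 h1)).2, hw, h1, ap_func h3 h2, h2⟩

end Pkg

/-- Ranks. -/
noncomputable def rkz : ZFSet.{0} → ZFSet.{0} :=
  wfF (fun z => z) ZFSet.mem_wf fun _ g => ZFSet.sUnion (im (fun p => sc (sn p)) g)

theorem rkz_eq (z : ZFSet.{0}) :
    rkz z = ZFSet.sUnion (im (fun p => sc (sn p)) (gr rkz z)) := by
  rw [rkz, wfF_eq]

theorem mem_rkz {z y : ZFSet.{0}} : y ∈ rkz z ↔ ∃ u ∈ z, y ∈ sc (rkz u) := by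
  rw [rkz_eq, ZFSet.mem_sUnion]
  constructor
  · rintro ⟨w, hw, hy⟩
    obtain ⟨p, hp, rfl⟩ := mem_im.1 hw
    obtain ⟨u, hu, rfl⟩ := mem_gr.1 hp
    rw [sn_pair] at hy
    exact ⟨u, hu, hy⟩
  · rintro ⟨u, hu, h⟩
    refine ⟨_, mem_im.2 ⟨pair u (rkz u), mem_gr.2 ⟨u, hu, rfl⟩, rfl⟩, ?_⟩
    rwa [sn_pair]

theorem rkz_lt {z u : ZFSet.{0}} (h : u ∈ z) : rkz u ∈ rkz z :=
  mem_rkz.2 ⟨u, h, ZFSet.mem_insert _ _⟩

theorem isOrdinal_rkz (z : ZFSet.{0}) : (rkz z).IsOrdinal := by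
  induction z using ZFSet.inductionOn with
  | _ z ih =>
  rw [rkz_eq]
  refine isOrdinal_sUnion fun y hy => ?_
  obtain ⟨p, hp, rfl⟩ := mem_im.1 hy
  obtain ⟨u, hu, rfl⟩ := mem_gr.1 hp
  rw [sn_pair]
  exact isOrdinal_sc (ih u hu)

theorem IsZF.rkz' {M : Set ZFSet.{0}} (hM : IsZF M) {n : ℕ} {F : (Fin n → ZFSet.{0}) → ZFSet.{0}}
    (hF : DfnF M M F) : DfnF M M fun v => rkz (F v) := by
  have hB := hM.base
  refine DfnF.comp1 (f := rkz) ?_ hF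
  refine hM.memrec (G := fun _ g => ZFSet.sUnion (im (fun p => sc (sn p)) g)) ?_ fun z => rkz_eq z
  refine hB.sUnion' (hM.im' (h := fun p _ => sc (sn p)) (DfnF.proj 1) ?_)
  exact hB.insert' (hM.sn' (DfnF.proj 0)) (hM.sn' (DfnF.proj 0))

namespace KP

variable {K : Type} [LinearOrder K] [WellFoundedLT K] {U : Ultrafilter K}

theorem exists_seq (hU : Normal U) : ∃ (e : ℕ → K) (b : K), StrictMono e ∧ ∀ n, e n < b := by
  obtain ⟨b, hb⟩ := (eventually_reg hU).exists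
  have : Nonempty {x : K // x < b} := by
    obtain ⟨c, hc⟩ := hb.1
    exact ⟨⟨c, hc⟩⟩
  have : NoMaxOrder {x : K // x < b} := ⟨fun x => by
    obtain ⟨y, hy, hxy⟩ := hb.2.1 x.1 x.2
    exact ⟨⟨y, hy⟩, hxy⟩⟩
  obtain ⟨f, hf⟩ := Nat.exists_strictMono {x : K // x < b}
  exact ⟨fun n => (f n).1, b, fun m n h => hf h, fun n => (f n).2⟩

theorem sigma_U (hU : Normal U) {S : ℕ → K → Prop} (h : ∀ n, ∀ᶠ a in (U : Filter K), S n a) :
    ∀ᶠ a in (U : Filter K), ∀ n, S n a := by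
  classical
  by_contra h1
  rw [← Ultrafilter.eventually_not] at h1
  obtain ⟨e, b, he, hb⟩ := exists_seq hU
  let f : K → K := fun a => if h : ∃ n, ¬ S n a then e (Nat.find h) else e 0
  have hf : ∀ a, f a < b := by
    intro a
    by_cases h : ∃ n, ¬ S n a
    · simp only [f, dif_pos h]
      exact hb _
    · simp only [f, dif_neg h]
      exact hb _
  obtain ⟨d, hd⟩ := const hU (f := f) (c := b) (Eventually.of_forall hf)
  obtain ⟨a, ha1, ha2⟩ := (h1.and hd).exists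
  push Not at ha1
  obtain ⟨a', ⟨ha1', ha2'⟩, ha3'⟩ := ((h1.and hd).and (h (Nat.find ha1))).exists
  push Not at ha1'
  have h2 : f a = e (Nat.find ha1) := dif_pos ha1
  have h3 : f a' = e (Nat.find ha1') := dif_pos ha1'
  rw [h2] at ha2
  rw [h3, ← ha2] at ha2'
  have h4 := he.injective ha2'
  exact Nat.find_spec ha1' (h4 ▸ ha3')

theorem omega_kset (hU : Normal U) : ZFSet.omega ∈ kset K := by
  obtain ⟨e, b, he, hb⟩ := exists_seq hU
  rw [omega_eq, kset, Ordinal.toZFSet_mem_toZFSet_iff]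
  refine lt_of_le_of_lt ?_ (Ordinal.typein_lt_type (α := K) (· < ·) b)
  rw [Ordinal.omega0_le]
  intro n
  have h1 : ∀ n : ℕ, (n : Ordinal.{0}) ≤ Ordinal.typein (α := K) (· < ·) (e n) := by
    intro n
    induction n with
    | zero => simp
    | succ n ih =>
      have h2 : Ordinal.typein (α := K) (· < ·) (e n) <
          Ordinal.typein (α := K) (· < ·) (e (n + 1)) :=
        (Ordinal.typein_lt_typein _).2 (he (Nat.lt_succ_self n))
      have h3 := lt_of_le_of_lt ih h2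
      rw [Nat.cast_succ]
      exact Order.add_one_le_of_lt h3
  exact (h1 n).trans ((Ordinal.typein_lt_typein _).2 (hb n)).le

variable [Nonempty K]

/-- The package contains the needed names. -/
structure Good (π : Pkg (Fo U)) : Prop where
  hU : Normal U
  nu : ∀ i, nU i ∈ π.N
  nx : nX ∈ π.N
  k : kset K ∈ π.Z

/-- The measures. -/
noncomputable def uu (π : Pkg (Fo U)) (i : Bool) : ZFSet.{0} :=
  ZFSet.sep (fun A => ∃ A' ∈ π.val (nU i), A' ⊆ A) (pwW π.W (π.hat (kset K)))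

variable {π : Pkg (Fo U)} (hG : Good π)

include hG

theorem mem_uu {i : Bool} {A : ZFSet.{0}} : A ∈ uu π i ↔
    (A ∈ π.W ∧ A ⊆ π.hat (kset K)) ∧ ∃ A' ∈ π.val (nU i), A' ⊆ A := by
  rw [uu, ZFSet.mem_sep, mem_pwW]

theorem kW' : π.hat (kset K) ∈ π.W := π.V_subset_W (π.of_hat_mem_V hG.k)

theorem uu_mem (i : Bool) : uu π i ∈ π.W := by
  have hW := π.isZF_W
  have hB := hW.base
  refine hW.sep_mem (Q := fun A => ∃ A' ∈ π.val (nU i), A' ⊆ A) ?_ (hW.pwW_mem (kW' hG))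
  refine hB.bex (DfnF.const (π.val_mem_W (hG.nu i))) ?_
  exact hB.subset' (DfnF.proj 0) (DfnF.proj 1)

theorem base_sub {i : Bool} {A : ZFSet.{0}} (h : A ∈ π.val (nU i)) : A ⊆ π.hat (kset K) := by
  obtain ⟨B, -, -, -, rfl⟩ := (mem_nU π).1 h
  intro z hz
  obtain ⟨a, ha, -, rfl⟩ := (mem_nB π).1 hz
  exact (π.hat_mem_hat ha hG.k).2 (cK_kset a)

theorem ae_of {i : Bool} {R : ZFSet.{0} → Prop} (hR : ZFSet.sep R (π.hat (kset K)) ∈ π.W)
    {A : ZFSet.{0}} (hA : A ∈ π.val (nU i)) (h : ∀ ξ ∈ A, R ξ) :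
    Ae (π.hat (kset K)) (uu π i) R :=
  (mem_uu hG).2 ⟨⟨hR, fun _ hz => (ZFSet.mem_sep.1 hz).1⟩, A, hA, fun z hz =>
    ZFSet.mem_sep.2 ⟨base_sub hG hA hz, h z hz⟩⟩

theorem of_ae {i : Bool} {R : ZFSet.{0} → Prop} (h : Ae (π.hat (kset K)) (uu π i) R) :
    ∃ A ∈ π.val (nU i), ∀ ξ ∈ A, R ξ := by
  obtain ⟨-, A, hA, h1⟩ := (mem_uu hG).1 h
  exact ⟨A, hA, fun ξ hξ => (ZFSet.mem_sep.1 (h1 hξ)).2⟩

theorem V_dec {A : ZFSet.{0}} (hA : A ∈ π.V) (hAk : A ⊆ π.hat (kset K)) :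
    (∀ i, A ∈ uu π i) ∨ ∀ i, π.hat (kset K) \ A ∈ uu π i := by
  obtain ⟨Xs, hX, rfl⟩ := hA
  have hXk := π.subset_of_hat hG.k hX hAk
  have hW := π.isZF_W
  by_cases h : ∀ᶠ a in (U : Filter K), cK a ∈ Xs
  · left
    intro i
    obtain ⟨A, hA, h1⟩ := frc_large π (hG.nu i) hX h
    exact (mem_uu hG).2 ⟨⟨π.V_subset_W (π.of_hat_mem_V hX), hAk⟩, A, hA, fun z hz => h1 z hz⟩
  · right
    intro i
    rw [← Ultrafilter.eventually_not] at h
    have hY : ZFSet.sep (fun z => z ∉ Xs) (kset K) ∈ π.Z :=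
      π.sep_Z hG.k (Q := fun z => z ∉ Xs)
        (Dfn.mem (DfnF.proj 0) (DfnF.const' (Set.mem_univ _) hX)).not
    obtain ⟨A, hA, h1⟩ := frc_large π (hG.nu i) hY (by
      filter_upwards [h] with a ha
      exact ZFSet.mem_sep.2 ⟨cK_kset a, ha⟩)
    refine (mem_uu hG).2 ⟨⟨?_, fun z hz => (ZFSet.mem_sdiff.1 hz).1⟩, A, hA, fun z hz => ?_⟩
    · have h2 : π.hat (kset K) \ π.hat Xs =
          ZFSet.sep (fun z => z ∉ π.hat Xs) (π.hat (kset K)) := by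
        ext z
        rw [ZFSet.mem_sdiff, ZFSet.mem_sep]
      rw [h2]
      refine hW.sep_mem (Q := fun z => z ∉ π.hat Xs) ?_ (kW' hG)
      exact (Dfn.mem (DfnF.proj 0) (DfnF.const (π.V_subset_W (π.of_hat_mem_V hX)))).not
    · rw [ZFSet.mem_sdiff]
      obtain ⟨w, hw, hwZ, rfl⟩ := π.mem_hat.1 (h1 z hz)
      obtain ⟨h3, h4⟩ := ZFSet.mem_sep.1 hw
      exact ⟨(π.hat_mem_hat hwZ hG.k).2 h3, fun h5 => h4 ((π.hat_mem_hat hwZ hX).1 h5)⟩

theorem not_both {i : Bool} {A : ZFSet.{0}} (h1 : A ∈ uu π i)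
    (h2 : π.hat (kset K) \ A ∈ uu π i) : False := by
  obtain ⟨-, A1, hA1, h3⟩ := (mem_uu hG).1 h1
  obtain ⟨-, A2, hA2, h4⟩ := (mem_uu hG).1 h2
  obtain ⟨A3, hA3, h5⟩ := frc_inter π (hG.nu i) hA1 hA2
  obtain ⟨z, hz⟩ := frc_ne π hG.hU hA3
  exact (ZFSet.mem_sdiff.1 (h4 (h5 z hz).2)).2 (h3 (h5 z hz).1)

/-- Two sets of the base meet. -/
theorem meet2 {i : Bool} {A1 A2 : ZFSet.{0}} (h1 : A1 ∈ π.val (nU i)) (h2 : A2 ∈ π.val (nU i)) :
    ∃ z, z ∈ A1 ∧ z ∈ A2 := by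
  obtain ⟨A3, hA3, h5⟩ := frc_inter π (hG.nu i) h1 h2
  obtain ⟨z, hz⟩ := frc_ne π hG.hU hA3
  exact ⟨z, h5 z hz⟩

theorem V_agree {A : ZFSet.{0}} (hA : A ∈ π.V) (hAk : A ⊆ π.hat (kset K)) :
    A ∈ uu π false ↔ A ∈ uu π true := by
  rcases V_dec hG hA hAk with h | h
  · exact ⟨fun _ => h true, fun _ => h false⟩
  · exact ⟨fun h1 => (not_both hG h1 (h false)).elim, fun h1 => (not_both hG h1 (h true)).elim⟩

/-- Representation by a function of the ground model. -/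
theorem rep0 {i : Bool} {f x : ZFSet.{0}} (hf : f ∈ π.W) (hx : x ∈ π.Z)
    (h : ∀ ξ ∈ π.hat (kset K), ap f ξ ∈ π.hat x) :
    ∃ G ∈ π.Z, ZFSet.IsFunc (kset K) x G ∧
      ∃ A ∈ π.val (nU i), ∀ ξ ∈ A, ap f ξ = ap (π.hat G) ξ := by
  have hW := π.isZF_W
  have hB := hW.base
  have hgr : gr (ap f) (π.hat (kset K)) ∈ π.W := by
    refine hW.im_mem (h := fun u => pair u (ap f u)) (kW' hG) ?_
    exact hB.pair' (DfnF.proj 0) (hW.ap' (DfnF.const hf) (DfnF.proj 0))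
  obtain ⟨τ, hτ, hτ'⟩ := hgr
  have hfun := π.funs_Z hG.k hx
  obtain ⟨g, hg, A, hA, h1⟩ := frc_rep π hG.hU (hG.nu i) hx hG.k hfun hτ (fun ξ hξ => by
    refine ⟨ap f ξ, h ξ hξ, ?_⟩
    rw [hτ']
    exact pair_mem_gr.2 ⟨hξ, rfl⟩)
  obtain ⟨G, hG1, hGZ, rfl⟩ := π.mem_hat.1 hg
  rw [ZFSet.mem_funs] at hG1
  refine ⟨G, hGZ, hG1, A, hA, fun ξ hξ => ?_⟩
  obtain ⟨z, hz, hzZ, rfl⟩ := π.mem_hat.1 (base_sub hG hA hξ)
  obtain ⟨w, hw, hwZ, h2, h3, h4⟩ := π.hat_ap hG.k hx hGZ hG1 hzZ hz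
  have h5 := h1 _ hξ (π.hat w) ((π.hat_mem_hat hwZ hx).2 hw) h4
  rw [hτ'] at h5
  rw [h3, (pair_mem_gr.1 h5).2]

theorem good_meas (i : Bool) : IsMeas π.W (π.hat (kset K)) (uu π i) := by
  classical
  have hW := π.isZF_W
  have hB := hW.base
  have hk := kW' hG
  refine ⟨hk, uu_mem hG i, π.hat_isOrdinal (ZFSet.isOrdinal_toZFSet _), ?_, ?_, ?_, ?_, ?_, ?_, ?_⟩
  · rw [← π.hat_omega]
    exact (π.hat_mem_hat π.omega_Z hG.k).2 (omega_kset hG.hU)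
  · exact fun A hA => ((mem_uu hG).1 hA).1.2
  · intro A hA B hB hAB hBk
    obtain ⟨-, A', hA', h1⟩ := (mem_uu hG).1 hA
    exact (mem_uu hG).2 ⟨⟨hB, hBk⟩, A', hA', fun z hz => hAB (h1 hz)⟩
  · intro A hA B hB
    obtain ⟨⟨hAW, hAk⟩, A', hA', h1⟩ := (mem_uu hG).1 hA
    obtain ⟨⟨hBW, hBk⟩, B', hB', h2⟩ := (mem_uu hG).1 hB
    obtain ⟨A3, hA3, h5⟩ := frc_inter π (hG.nu i) hA' hB'
    refine (mem_uu hG).2 ⟨⟨?_, fun z hz => hAk (ZFSet.mem_inter.1 hz).1⟩, A3, hA3, fun z hz =>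
      ZFSet.mem_inter.2 ⟨h1 (h5 z hz).1, h2 (h5 z hz).2⟩⟩
    have h3 : A ∩ B = ZFSet.sep (fun z => z ∈ B) A := by
      ext z
      rw [ZFSet.mem_inter, ZFSet.mem_sep]
    rw [h3]
    exact hW.sep_mem (Q := fun z => z ∈ B) (Dfn.mem (DfnF.proj 0) (DfnF.const hBW)) hAW
  · intro A hA hAk
    have hcW : π.hat (kset K) \ A ∈ π.W := by
      have h3 : π.hat (kset K) \ A = ZFSet.sep (fun z => z ∉ A) (π.hat (kset K)) := by
        ext z
        rw [ZFSet.mem_sdiff, ZFSet.mem_sep]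
      rw [h3]
      exact hW.sep_mem (Q := fun z => z ∉ A) (Dfn.mem (DfnF.proj 0) (DfnF.const hA)).not hk
    constructor
    · intro hn
      let F : ZFSet.{0} → ZFSet.{0} := fun ξ => if ξ ∈ A then nat 1 else nat 0
      have h1W : nat 1 ∈ π.W := hW.nat_mem 1
      have h0W : nat 0 ∈ π.W := hW.nat_mem 0
      have hF : DfnF π.W π.W fun w : Fin 1 → ZFSet.{0} => F (w 0) := by
        refine DfnF.ite (Q := fun w : Fin 1 → ZFSet.{0} => w 0 ∈ A) ?_ ?_ ?_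
        · exact Dfn.mem (DfnF.proj 0) (DfnF.const hA)
        · exact DfnF.const h1W
        · exact DfnF.const h0W
      have hgr : gr F (π.hat (kset K)) ∈ π.W := by
        refine hW.im_mem (h := fun u => pair u (F u)) hk ?_
        exact hB.pair' (DfnF.proj 0) hF
      obtain ⟨G, hGZ, hGf, A1, hA1, h1⟩ := rep0 (i := i) hG hgr (π.nat_Z 2) (fun ξ hξ => by
        rw [ap_gr hξ, π.hat_nat]
        by_cases h : ξ ∈ A
        · simp only [F, if_pos h]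
          exact ZFSet.mem_insert _ _
        · simp only [F, if_neg h]
          exact ZFSet.mem_insert_of_mem _ (ZFSet.mem_insert _ _))
      have hV := π.isZF_V
      have hGV : π.hat G ∈ π.V := π.of_hat_mem_V hGZ
      have h1V : nat 1 ∈ π.V := hV.nat_mem 1
      have hBV : ZFSet.sep (fun ξ => ap (π.hat G) ξ = nat 1) (π.hat (kset K)) ∈ π.V := by
        refine hV.sep_mem (Q := fun ξ => ap (π.hat G) ξ = nat 1) ?_ (π.of_hat_mem_V hG.k)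
        exact Dfn.eq (hV.ap' (DfnF.const hGV) (DfnF.proj 0)) (DfnF.const h1V)
      rcases V_dec hG hBV (fun z hz => (ZFSet.mem_sep.1 hz).1) with h2 | h2
      · exfalso
        apply hn
        obtain ⟨-, A2, hA2, h3⟩ := (mem_uu hG).1 (h2 i)
        obtain ⟨A3, hA3, h5⟩ := frc_inter π (hG.nu i) hA1 hA2
        refine (mem_uu hG).2 ⟨⟨hA, hAk⟩, A3, hA3, fun z hz => ?_⟩
        obtain ⟨h6, h7⟩ := h5 z hz
        have h8 := (ZFSet.mem_sep.1 (h3 h7)).2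
        rw [← h1 z h6, ap_gr (base_sub hG hA1 h6)] at h8
        by_contra h9
        simp only [F, if_neg h9] at h8
        have h10 : nat 0 ∈ nat 1 := ZFSet.mem_insert _ _
        rw [h8] at h10
        exact ZFSet.mem_irrefl _ h10
      · obtain ⟨-, A2, hA2, h3⟩ := (mem_uu hG).1 (h2 i)
        obtain ⟨A3, hA3, h5⟩ := frc_inter π (hG.nu i) hA1 hA2
        refine (mem_uu hG).2 ⟨⟨hcW, fun z hz => (ZFSet.mem_sdiff.1 hz).1⟩, A3, hA3,
          fun z hz => ?_⟩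
        obtain ⟨h6, h7⟩ := h5 z hz
        have h8 := ZFSet.mem_sdiff.1 (h3 h7)
        refine ZFSet.mem_sdiff.2 ⟨h8.1, fun h9 => h8.2 (ZFSet.mem_sep.2 ⟨h8.1, ?_⟩)⟩
        rw [← h1 z h6, ap_gr h8.1]
        exact if_pos h9
    · exact fun h1 h2 => not_both hG h2 h1
  · intro α hα
    obtain ⟨a', ha', haZ, rfl⟩ := π.mem_hat.1 hα
    obtain ⟨a, rfl⟩ := mem_kset.1 ha'
    have hY : ZFSet.sep (fun z => cK a ∈ z) (kset K) ∈ π.Z :=
      π.sep_Z hG.k (Q := fun z => cK a ∈ z) (Dfn.mem (DfnF.const' (Set.mem_univ _) haZ) (DfnF.proj 0))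
    obtain ⟨A, hA, h1⟩ := frc_large π (hG.nu i) hY (by
      filter_upwards [hG.hU.large a] with b hb
      exact ZFSet.mem_sep.2 ⟨cK_kset b, cK_mem.2 hb⟩)
    refine ae_of hG ?_ hA fun ξ hξ => ?_
    · refine hW.sep_mem (Q := fun ξ => π.hat (cK a) ∈ ξ) ?_ hk
      exact Dfn.mem (DfnF.const (π.V_subset_W (π.of_hat_mem_V haZ))) (DfnF.proj 0)
    · obtain ⟨w, hw, hwZ, rfl⟩ := π.mem_hat.1 (h1 ξ hξ)
      exact (π.hat_mem_hat haZ hwZ).2 (ZFSet.mem_sep.1 hw).2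
  · intro f hf h
    obtain ⟨A1, hA1, h1⟩ := of_ae hG h
    have hgr : gr (ap f) (π.hat (kset K)) ∈ π.W := by
      refine hW.im_mem (h := fun u => pair u (ap f u)) hk ?_
      exact hB.pair' (DfnF.proj 0) (hW.ap' (DfnF.const hf) (DfnF.proj 0))
    obtain ⟨τ, hτ, hτ'⟩ := hgr
    obtain ⟨A, hA, h2 | ⟨β, hβ, h2⟩⟩ := frc_norm π hG.hU (hG.nu i) hG.k hτ
    · exfalso
      obtain ⟨z, hz1, hz2⟩ := meet2 hG hA1 hA
      refine h2 z hz2 _ (h1 z hz1) ?_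
      rw [hτ']
      exact pair_mem_gr.2 ⟨base_sub hG hA hz2, rfl⟩
    · refine ⟨β, hβ, ae_of hG ?_ hA fun ξ hξ => ?_⟩
      · refine hW.sep_mem (Q := fun ξ => ap f ξ = β) ?_ hk
        exact Dfn.eq (hW.ap' (DfnF.const hf) (DfnF.proj 0)) (DfnF.const (hW.trans _ hk _ hβ))
      · have h3 := h2 ξ hξ
        rw [hτ'] at h3
        exact (pair_mem_gr.1 h3).2.symm

theorem exists_bd {f : ZFSet.{0}} (hf : f ∈ π.W)
    (ho : ∀ ξ ∈ π.hat (kset K), (ap f ξ).IsOrdinal) :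
    ∃ x ∈ π.Z, (π.hat x).IsOrdinal ∧ ∀ ξ ∈ π.hat (kset K), ap f ξ ∈ π.hat x := by
  have hW := π.isZF_W
  have hB := hW.base
  have hk := kW' hG
  set δ := ZFSet.sUnion (im (fun ξ => sc (ap f ξ)) (π.hat (kset K))) with hδ
  have hδW : δ ∈ π.W := by
    refine hW.union _ (hW.im_mem (h := fun ξ => sc (ap f ξ)) hk ?_)
    exact hB.insert' (hW.ap' (DfnF.const hf) (DfnF.proj 0)) (hW.ap' (DfnF.const hf) (DfnF.proj 0))
  have hδo : δ.IsOrdinal := by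
    refine isOrdinal_sUnion fun y hy => ?_
    obtain ⟨ξ, hξ, rfl⟩ := mem_im.1 hy
    exact isOrdinal_sc (ho ξ hξ)
  obtain ⟨x, hx, hx'⟩ := π.ord_V hδo hδW
  refine ⟨x, hx, hx' ▸ hδo, fun ξ hξ => ?_⟩
  rw [hx']
  exact ZFSet.mem_sUnion.2 ⟨_, mem_im.2 ⟨ξ, hξ, rfl⟩, ZFSet.mem_insert _ _⟩

theorem good_wf (i : Bool) : WellFounded (Er π.W (π.hat (kset K)) (uu π i)) := by
  classical
  have hW := π.isZF_W
  have hB := hW.base
  have hBu := isBase_univ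
  have hk := kW' hG
  rw [wellFounded_iff_isEmpty_descending_chain]
  refine ⟨?_⟩
  rintro ⟨s, hs⟩
  have hsW : ∀ n, s n ∈ π.W := fun n => (hs n).2.1
  have hρ : ∀ n, gr (fun ξ => rkz (ap (s n) ξ)) (π.hat (kset K)) ∈ π.W := by
    intro n
    refine hW.im_mem (h := fun u => pair u (rkz (ap (s n) u))) hk ?_
    exact hB.pair' (DfnF.proj 0) (hW.rkz' (hW.ap' (DfnF.const (hsW n)) (DfnF.proj 0)))
  have h1 : ∀ n, ∃ x ∈ π.Z, ∃ G ∈ π.Z, ZFSet.IsFunc (kset K) x G ∧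
      ∃ A ∈ π.val (nU i), ∀ ξ ∈ A, rkz (ap (s n) ξ) = ap (π.hat G) ξ := by
    intro n
    obtain ⟨x, hx, -, h2⟩ := exists_bd hG (hρ n) (fun ξ hξ => by
      rw [ap_gr hξ]
      exact isOrdinal_rkz _)
    obtain ⟨G, hGZ, hGf, A, hA, h3⟩ := rep0 (i := i) hG (hρ n) hx h2
    refine ⟨x, hx, G, hGZ, hGf, A, hA, fun ξ hξ => ?_⟩
    rw [← h3 ξ hξ, ap_gr (base_sub hG hA hξ)]
  choose x hx G hGZ hGf A hA h2 using h1
  have h3 : ∀ n, ∀ᶠ a in (U : Filter K), ∀ y ∈ x (n + 1), ∀ y' ∈ x n,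
      pair (cK a) y ∈ G (n + 1) → pair (cK a) y' ∈ G n → y ∈ y' := by
    intro n
    by_contra h4
    rw [← Ultrafilter.eventually_not] at h4
    let Q : ZFSet.{0} → Prop := fun z => ∃ y ∈ x (n + 1), ∃ y' ∈ x n,
      pair z y ∈ G (n + 1) ∧ pair z y' ∈ G n ∧ y ∉ y'
    have hx1 := hx (n + 1)
    have hx0 := hx n
    have hG1 := hGZ (n + 1)
    have hG0 := hGZ n
    have hQ : Dfn π.Z Set.univ fun w : Fin 1 → ZFSet.{0} => Q (w 0) := by
      (repeat' first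
        | assumption
        | exact DfnF.proj _
        | exact DfnF.const' (by first | assumption | trivial) (by first | assumption | trivial)
        | apply Dfn.not | apply Dfn.and | apply Dfn.or | apply Dfn.imp | apply Dfn.iff
        | apply hBu.bex | apply hBu.ball | apply Dfn.ex | apply Dfn.all
        | apply Dfn.eq | apply Dfn.mem | apply hBu.pair')
    obtain ⟨B, hB1, h5⟩ := frc_large π (hG.nu i) (π.sep_Z hG.k hQ) (by
      filter_upwards [h4] with a ha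
      push Not at ha
      obtain ⟨y, hy, y', hy', h6, h7, h8⟩ := ha
      exact ZFSet.mem_sep.2 ⟨cK_kset a, y, hy, y', hy', h6, h7, h8⟩)
    obtain ⟨C, hC, h6⟩ := of_ae hG (hs n).2.2
    obtain ⟨D, hD, h7⟩ := frc_inter π (hG.nu i) (hA n) (hA (n + 1))
    obtain ⟨E, hE, h8⟩ := frc_inter π (hG.nu i) hB1 hC
    obtain ⟨ξ, h9, h10⟩ := meet2 hG hD hE
    obtain ⟨z, hz, hzZ, rfl⟩ := π.mem_hat.1 (h5 _ (h8 _ h10).1)
    obtain ⟨hzk, y, hy, y', hy', h11, h12, h13⟩ := ZFSet.mem_sep.1 hz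
    obtain ⟨w, hw, hwZ, h14, h15, -⟩ := π.hat_ap hG.k hx1 hG1 (hGf (n + 1)) hzZ hzk
    obtain ⟨w', hw', hwZ', h14', h15', -⟩ := π.hat_ap hG.k hx0 hG0 (hGf n) hzZ hzk
    have e1 : y = w := fun_unique (hGf (n + 1)) h11 h14
    have e2 : y' = w' := fun_unique (hGf n) h12 h14'
    subst e1
    subst e2
    apply h13
    rw [← π.hat_mem_hat hwZ hwZ', ← h15, ← h15', ← h2 n _ (h7 _ h9).1,
      ← h2 (n + 1) _ (h7 _ h9).2]
    exact rkz_lt (h6 _ (h8 _ h10).2)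
  obtain ⟨a, ha⟩ := (sigma_U hG.hU h3).exists
  choose y hy _ using fun n => (hGf n).2 (cK a) (cK_kset a)
  have hyx : ∀ n, y n ∈ x n := fun n => (ZFSet.pair_mem_prod.1 ((hGf n).1 (hy n))).2
  have h4 := wellFounded_iff_isEmpty_descending_chain.1 ZFSet.mem_wf
  exact h4.false ⟨y, fun n => ha n _ (hyx (n + 1)) _ (hyx n) (hy (n + 1)) (hy n)⟩

theorem good_two : Two π.W (π.hat (kset K)) (uu π) :=
  ⟨π.isZFC_W, good_meas hG, good_wf hG⟩

theorem good_twin : Twin π.W (π.hat (kset K)) (uu π) π.V := by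
  classical
  have hW := π.isZF_W
  have hB := hW.base
  have hV := π.isZF_V
  have hBV := hV.base
  have hk := kW' hG
  have hkV := π.of_hat_mem_V hG.k
  refine ⟨?_, ?_, ?_, ?_⟩
  · intro i f hf ho
    obtain ⟨x, hx, hxo, h1⟩ := exists_bd hG hf ho
    obtain ⟨G, hGZ, hGf, A, hA, h2⟩ := rep0 (i := i) hG hf hx h1
    have hGV := π.of_hat_mem_V hGZ
    refine ⟨π.hat G, π.V_subset_W hGV, hGV, fun ξ hξ => ?_, ae_of hG ?_ hA h2⟩
    · obtain ⟨z, hz, hzZ, rfl⟩ := π.mem_hat.1 hξ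
      obtain ⟨w, hw, hwZ, -, h3, -⟩ := π.hat_ap hG.k hx hGZ hGf hzZ hz
      rw [h3]
      exact hxo.mem ((π.hat_mem_hat hwZ hx).2 hw)
    · refine hW.sep_mem (Q := fun ξ => ap f ξ = ap (π.hat G) ξ) ?_ hk
      exact Dfn.eq (hW.ap' (DfnF.const hf) (DfnF.proj 0))
        (hW.ap' (DfnF.const (π.V_subset_W hGV)) (DfnF.proj 0))
  · intro f _ hfV g _ hgV
    refine V_agree hG ?_ fun z hz => (ZFSet.mem_sep.1 hz).1
    refine hV.sep_mem (Q := fun ξ => ap f ξ ∈ ap g ξ) ?_ hkV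
    exact Dfn.mem (hV.ap' (DfnF.const hfV) (DfnF.proj 0))
      (hV.ap' (DfnF.const hgV) (DfnF.proj 0))
  · intro α hα ho
    have hαV := π.ord_V ho hα
    refine hV.im_mem (h := fun u => pair u α) hkV ?_
    exact hBV.pair' (DfnF.proj 0) (DfnF.const hαV)
  · refine ⟨π.val nX, π.val_mem_W hG.nx, fun z hz => ?_, fun F hF => ?_⟩
    · obtain ⟨a, ha, -, rfl⟩ := (mem_nX π).1 hz
      exact (π.hat_mem_hat ha hG.k).2 (cK_kset a)
    · have hS : ZFSet.sep (fun p => sn p ∈ ap F (fs p))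
          (ZFSet.prod (π.hat (kset K)) (π.hat (kset K))) ∈ π.W := by
        refine hW.sep_mem (Q := fun p => sn p ∈ ap F (fs p)) ?_ (hW.prod_mem hk hk)
        exact Dfn.mem (hW.sn' (DfnF.proj 0)) (hW.ap' (DfnF.const hF) (hW.fs' (DfnF.proj 0)))
      obtain ⟨τ, hτ, hτ'⟩ := hS
      obtain ⟨g, hg, A0, hA0, A1, hA1, h1⟩ := frc_diff π hG.hU (hG.nu false) (hG.nu true) hG.nx
        hG.k (π.funs_Z hG.k hG.k) hτ
      obtain ⟨G, hG1, hGZ, rfl⟩ := π.mem_hat.1 hg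
      rw [ZFSet.mem_funs] at hG1
      have hGV := π.of_hat_mem_V hGZ
      have hval : ∀ ξ ∈ π.hat (kset K), ap (π.hat G) ξ ∈ π.hat (kset K) ∧
          pair ξ (ap (π.hat G) ξ) ∈ π.hat G := by
        intro ξ hξ
        obtain ⟨z, hz, hzZ, rfl⟩ := π.mem_hat.1 hξ
        obtain ⟨w, hw, hwZ, -, h3, h4⟩ := π.hat_ap hG.k hG.k hGZ hG1 hzZ hz
        rw [h3]
        exact ⟨(π.hat_mem_hat hwZ hG.k).2 hw, h4⟩
      have hτ2 : ∀ ξ ∈ π.hat (kset K), (pair ξ (ap (π.hat G) ξ) ∈ π.val τ ↔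
          ap (π.hat G) ξ ∈ ap F ξ) := by
        intro ξ hξ
        rw [hτ', ZFSet.mem_sep, sn_pair, fs_pair, ZFSet.pair_mem_prod]
        exact ⟨fun h => h.2, fun h => ⟨⟨hξ, (hval ξ hξ).1⟩, h⟩⟩
      have hX1 : ZFSet.sep (fun ξ => ap (π.hat G) ξ ∈ π.val nX) (π.hat (kset K)) ∈ π.W := by
        refine hW.sep_mem (Q := fun ξ => ap (π.hat G) ξ ∈ π.val nX) ?_ hk
        exact Dfn.mem (hW.ap' (DfnF.const (π.V_subset_W hGV)) (DfnF.proj 0))
          (DfnF.const (π.val_mem_W hG.nx))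
      have hX2 : ZFSet.sep (fun ξ => ap (π.hat G) ξ ∈ ap F ξ) (π.hat (kset K)) ∈ π.W := by
        refine hW.sep_mem (Q := fun ξ => ap (π.hat G) ξ ∈ ap F ξ) ?_ hk
        exact Dfn.mem (hW.ap' (DfnF.const (π.V_subset_W hGV)) (DfnF.proj 0))
          (hW.ap' (DfnF.const hF) (DfnF.proj 0))
      refine ⟨π.hat G, π.V_subset_W hGV, hGV, fun ξ hξ => (hval ξ hξ).1, fun hiff => ?_⟩
      rcases h1 with ⟨h2, h3⟩ | ⟨h2, h3⟩
      · have h4 := hiff.1 (ae_of hG hX1 hA0 fun ξ hξ => by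
          obtain ⟨h5, h6⟩ := hval ξ (base_sub hG hA0 hξ)
          exact h2 ξ hξ _ h5 h6)
        obtain ⟨C, hC, h5⟩ := of_ae hG h4
        obtain ⟨z, hz1, hz2⟩ := meet2 hG hC hA1
        have hzk := base_sub hG hA1 hz2
        exact h3 z hz2 _ (hval z hzk).1 (hval z hzk).2 ((hτ2 z hzk).2 (h5 z hz1))
      · have h4 := hiff.2 (ae_of hG hX2 hA1 fun ξ hξ => by
          have hξk := base_sub hG hA1 hξ
          exact (hτ2 ξ hξk).1 (h3 ξ hξ _ (hval ξ hξk).1 (hval ξ hξk).2))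
        obtain ⟨C, hC, h5⟩ := of_ae hG h4
        obtain ⟨z, hz1, hz2⟩ := meet2 hG hC hA0
        have hzk := base_sub hG hA0 hz2
        exact h2 z hz2 _ (hval z hzk).1 (hval z hzk).2 (h5 z hz1)

end KP

end Pool.Agent.W868
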