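import Pool.Agent.W868.KP.Choose

/-!
# The ultrapower of a transitive model by a normal ultrafilter of the model, and its collapse
-/

set_option autoImplicit false
set_option linter.unreachableTactic false
set_option linter.unusedTactic false
set_option linter.unusedSectionVars false

namespace Pool.Agent.W868.KP

open ZFSet (pair)

/-- `R` holds almost everywhere. -/
def Ae (k u : ZFSet.{0}) (R : ZFSet.{0} → Prop) : Prop := ZFSet.sep R k ∈ u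

/-- In `W`, `u` is a normal ultrafilter on the ordinal `k`. -/
structure IsMeas (W : Set ZFSet.{0}) (k u : ZFSet.{0}) : Prop where
  kW : k ∈ W
  uW : u ∈ W
  kord : k.IsOrdinal
  om : ZFSet.omega ∈ k
  sub : ∀ A ∈ u, A ⊆ k
  up : ∀ A ∈ u, ∀ B ∈ W, A ⊆ B → B ⊆ k → B ∈ u
  inter : ∀ A ∈ u, ∀ B ∈ u, A ∩ B ∈ u
  ultra : ∀ A ∈ W, A ⊆ k → (A ∉ u ↔ k \ A ∈ u)
  large : ∀ α ∈ k, Ae k u fun ξ => α ∈ ξ
  norm : ∀ f ∈ W, (Ae k u fun ξ => ap f ξ ∈ ξ) → ∃ β ∈ k, Ae k u fun ξ => ap f ξ = β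

/-- The relation of the ultrapower. -/
def Er (W : Set ZFSet.{0}) (k u g f : ZFSet.{0}) : Prop :=
  g ∈ W ∧ f ∈ W ∧ Ae k u fun ξ => ap g ξ ∈ ap f ξ

/-- The values of a function on `k`, with the empty set. -/
noncomputable def vals (k f : ZFSet.{0}) : ZFSet.{0} :=
  insert ∅ (ZFSet.sUnion (im (fun ξ => ap f ξ) k))

/-- A set of predecessors for the relation of the ultrapower. -/
noncomputable def prE (W : Set ZFSet.{0}) (k u f : ZFSet.{0}) : ZFSet.{0} :=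
  ZFSet.sep (fun g => Ae k u fun ξ => ap g ξ ∈ ap f ξ) (pwW W (ZFSet.prod k (vals k f)))

open Classical in
/-- The collapse of the ultrapower. -/
noncomputable def cu (W : Set ZFSet.{0}) (k u : ZFSet.{0}) : ZFSet.{0} → ZFSet.{0} :=
  if h : WellFounded fun g f => g ∈ prE W k u f then
    wfF (prE W k u) h fun _ g => im sn g else id

theorem mem_prE {W : Set ZFSet.{0}} {k u f g : ZFSet.{0}} : g ∈ prE W k u f ↔
    g ∈ W ∧ g ⊆ ZFSet.prod k (vals k f) ∧ Ae k u fun ξ => ap g ξ ∈ ap f ξ := by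
  rw [prE, ZFSet.mem_sep, mem_pwW, and_assoc]

section

variable {W : Set ZFSet.{0}} {k u : ZFSet.{0}}

theorem sep_congr {R S : ZFSet.{0} → Prop} (h : ∀ ξ ∈ k, R ξ ↔ S ξ) :
    ZFSet.sep R k = ZFSet.sep S k := by
  ext z
  rw [ZFSet.mem_sep, ZFSet.mem_sep]
  exact and_congr_right fun hz => h z hz

theorem Ae.congr {R S : ZFSet.{0} → Prop} (h : Ae k u R) (h' : ∀ ξ ∈ k, R ξ ↔ S ξ) :
    Ae k u S := by
  rwa [Ae, ← sep_congr h']

theorem IsMeas.mono (hu : IsMeas W k u) {R S : ZFSet.{0} → Prop} (hS : ZFSet.sep S k ∈ W)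
    (h : Ae k u R) (h' : ∀ ξ ∈ k, R ξ → S ξ) : Ae k u S := by
  refine hu.up _ h _ hS (fun z hz => ?_) fun z hz => (ZFSet.mem_sep.1 hz).1
  rw [ZFSet.mem_sep] at hz ⊢
  exact ⟨hz.1, h' z hz.1 hz.2⟩

theorem IsMeas.and (hu : IsMeas W k u) {R S : ZFSet.{0} → Prop}
    (h : Ae k u R) (h' : Ae k u S) : Ae k u fun ξ => R ξ ∧ S ξ := by
  have h1 := hu.inter _ h _ h'
  have h2 : ZFSet.sep R k ∩ ZFSet.sep S k = ZFSet.sep (fun ξ => R ξ ∧ S ξ) k := by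
    ext z
    simp only [ZFSet.mem_inter, ZFSet.mem_sep]
    tauto
  rwa [h2] at h1

theorem IsMeas.not (hu : IsMeas W k u) {R : ZFSet.{0} → Prop} (hR : ZFSet.sep R k ∈ W) :
    ¬ Ae k u R ↔ Ae k u fun ξ => ¬ R ξ := by
  have h1 := hu.ultra _ hR fun z hz => (ZFSet.mem_sep.1 hz).1
  have h2 : k \ ZFSet.sep R k = ZFSet.sep (fun ξ => ¬ R ξ) k := by
    ext z
    simp only [ZFSet.mem_sdiff, ZFSet.mem_sep]
    tauto
  rw [h2] at h1
  exact h1

theorem IsMeas.ktop (hu : IsMeas W k u) : k ∈ u :=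
  hu.up _ (hu.large _ hu.om) _ hu.kW (hu.sub _ (hu.large _ hu.om)) fun _ h => h

theorem IsMeas.all (hu : IsMeas W k u) {R : ZFSet.{0} → Prop} (h : ∀ ξ ∈ k, R ξ) :
    Ae k u R := by
  have h1 : ZFSet.sep R k = k := by
    ext z
    rw [ZFSet.mem_sep]
    exact ⟨fun h => h.1, fun hz => ⟨hz, h z hz⟩⟩
  rw [Ae, h1]
  exact hu.ktop

theorem IsMeas.ex (hu : IsMeas W k u) (hW : IsZF W) {R : ZFSet.{0} → Prop} (h : Ae k u R) :
    ∃ ξ ∈ k, R ξ := by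
  by_contra h1
  push Not at h1
  have h2 : ZFSet.sep R k = ∅ := by
    rw [ZFSet.eq_empty]
    intro z hz
    rw [ZFSet.mem_sep] at hz
    exact h1 z hz.1 hz.2
  rw [Ae, h2] at h
  have h3 := (hu.ultra ∅ hW.empty_mem fun z hz => absurd hz (ZFSet.notMem_empty z)).2 (by
    have h4 : k \ ∅ = k := by
      ext z
      simp
    rw [h4]
    exact hu.ktop)
  exact h3 h

variable (hW : IsZF W) (hu : IsMeas W k u)

include hW hu

theorem sepW {R : ZFSet.{0} → Prop} (hR : Dfn W W fun w : Fin 1 → ZFSet.{0} => R (w 0)) :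
    ZFSet.sep R k ∈ W := hW.sep_mem hR hu.kW

theorem Ae' {n : ℕ} {R : ZFSet.{0} → (Fin n → ZFSet.{0}) → Prop}
    (hR : Dfn W W fun w : Fin (n + 1) → ZFSet.{0} => R (w 0) (Fin.tail w)) :
    Dfn W W fun v => Ae k u fun ξ => R ξ v :=
  Dfn.mem (hW.sep' (Q := R) (DfnF.const hu.kW) hR) (DfnF.const hu.uW)

theorem ap_mem {f a : ZFSet.{0}} (hf : f ∈ W) (ha : a ∈ W) : ap f a ∈ W :=
  (hW.ap' (DfnF.const hf) (DfnF.const ha)).1 Fin.elim0 fun i => i.elim0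

theorem vals' {n : ℕ} {F : (Fin n → ZFSet.{0}) → ZFSet.{0}} (hF : DfnF W W F) :
    DfnF W W fun v => vals k (F v) := by
  have hB := hW.base
  refine hB.insert' (DfnF.const hW.empty_mem) (hB.sUnion' (hW.im' (h := fun ξ v => ap (F v) ξ)
    (DfnF.const hu.kW) ?_))
  exact hW.ap' hF.tail (DfnF.proj 0)

theorem prE' {n : ℕ} {F : (Fin n → ZFSet.{0}) → ZFSet.{0}} (hF : DfnF W W F) :
    DfnF W W fun v => prE W k u (F v) := by
  refine hW.sep' (Q := fun g v => Ae k u fun ξ => ap g ξ ∈ ap (F v) ξ) (hW.pwW' (hW.prod'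
    (DfnF.const hu.kW) (vals' hW hu hF))) ?_
  refine Ae' hW hu (R := fun ξ w => ap (w 0) ξ ∈ ap (F (Fin.tail w)) ξ) ?_
  exact Dfn.mem (hW.ap' (DfnF.proj 1) (DfnF.proj 0)) (hW.ap' hF.tail.tail (DfnF.proj 0))

/-- Replacing a function by one with values in the right set. -/
theorem exists_fit {f g : ZFSet.{0}} (h : Er W k u g f) : ∃ g' ∈ prE W k u f,
    Ae k u fun ξ => ap g ξ = ap g' ξ := by
  classical
  obtain ⟨hg, hf, h1⟩ := h
  have hB := hW.base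
  let F : ZFSet.{0} → ZFSet.{0} := fun ξ => if ap g ξ ∈ ap f ξ then ap g ξ else ∅
  have hF : DfnF W W fun w : Fin 1 → ZFSet.{0} => F (w 0) := by
    refine DfnF.ite (Q := fun w : Fin 1 → ZFSet.{0} => ap g (w 0) ∈ ap f (w 0)) ?_ ?_ ?_
    · exact Dfn.mem (hW.ap' (DfnF.const hg) (DfnF.proj 0)) (hW.ap' (DfnF.const hf) (DfnF.proj 0))
    · exact hW.ap' (DfnF.const hg) (DfnF.proj 0)
    · exact DfnF.const hW.empty_mem
  have hgr : gr F k ∈ W := hW.im_mem (h := fun u => pair u (F u)) hu.kW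
    (hB.pair' (DfnF.proj 0) hF)
  have h2 : ∀ ξ ∈ k, ap g ξ ∈ ap f ξ → ap (gr F k) ξ = ap g ξ := by
    intro ξ hξ h3
    rw [ap_gr hξ]
    exact if_pos h3
  have hs1 : Dfn W W fun w : Fin 1 → ZFSet.{0} => ap (gr F k) (w 0) ∈ ap f (w 0) :=
    Dfn.mem (hW.ap' (DfnF.const hgr) (DfnF.proj 0)) (hW.ap' (DfnF.const hf) (DfnF.proj 0))
  have hs2 : Dfn W W fun w : Fin 1 → ZFSet.{0} => ap g (w 0) = ap (gr F k) (w 0) :=
    Dfn.eq (hW.ap' (DfnF.const hg) (DfnF.proj 0)) (hW.ap' (DfnF.const hgr) (DfnF.proj 0))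
  refine ⟨gr F k, mem_prE.2 ⟨hgr, fun p hp => ?_, ?_⟩, ?_⟩
  · obtain ⟨ξ, hξ, rfl⟩ := mem_gr.1 hp
    refine ZFSet.pair_mem_prod.2 ⟨hξ, ?_⟩
    by_cases h3 : ap g ξ ∈ ap f ξ
    · have : F ξ = ap g ξ := if_pos h3
      rw [this, vals, ZFSet.mem_insert_iff, ZFSet.mem_sUnion]
      exact Or.inr ⟨_, mem_im.2 ⟨ξ, hξ, rfl⟩, h3⟩
    · have : F ξ = ∅ := if_neg h3
      rw [this, vals, ZFSet.mem_insert_iff]
      exact Or.inl rfl
  · refine hu.mono (sepW hW hu hs1) h1 fun ξ hξ h3 => ?_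
    rw [h2 ξ hξ h3]
    exact h3
  · exact hu.mono (sepW hW hu hs2) h1 fun ξ hξ h3 => (h2 ξ hξ h3).symm

variable (hwf : WellFounded (Er W k u))

include hwf

theorem wf_prE : WellFounded fun g f => g ∈ prE W k u f := by
  have h1 : ∀ f, f ∈ W → Acc (fun g f => g ∈ prE W k u f) f := by
    intro f
    induction f using hwf.induction with
    | _ f ih =>
      intro hf
      refine Acc.intro _ fun g hg => ?_
      obtain ⟨h2, -, h3⟩ := mem_prE.1 hg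
      exact ih g ⟨h2, hf, h3⟩ h2
  exact ⟨fun f => Acc.intro _ fun g hg => h1 g (mem_prE.1 hg).1⟩

theorem mem_cu' {f y : ZFSet.{0}} : y ∈ cu W k u f ↔ ∃ g ∈ prE W k u f, y = cu W k u g := by
  have h := wf_prE hW hu hwf
  have h1 : cu W k u = wfF (prE W k u) h fun _ g => im sn g := by
    rw [cu, dif_pos h]
  rw [h1, wfF_eq, mem_im]
  constructor
  · rintro ⟨p, hp, rfl⟩
    obtain ⟨g, hg, rfl⟩ := mem_gr.1 hp
    exact ⟨g, hg, sn_pair _ _⟩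
  · rintro ⟨g, hg, rfl⟩
    exact ⟨_, mem_gr.2 ⟨g, hg, rfl⟩, (sn_pair _ _).symm⟩

theorem cu' {n : ℕ} {F : (Fin n → ZFSet.{0}) → ZFSet.{0}} (hF : DfnF W W F) :
    DfnF W W fun v => cu W k u (F v) := by
  have h := wf_prE hW hu hwf
  have h1 : cu W k u = wfF (prE W k u) h fun _ g => im sn g := by
    rw [cu, dif_pos h]
  refine DfnF.comp1 (f := cu W k u) ?_ hF
  refine hW.wfrec (pr := prE W k u) (G := fun _ g => im sn g) h ?_ ?_ fun z => ?_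
  · exact prE' hW hu (DfnF.proj 0)
  · exact hW.im' (h := fun p _ => sn p) (DfnF.proj 1) (hW.sn' (DfnF.proj 0))
  · rw [h1, wfF_eq]

theorem cu_mem {f : ZFSet.{0}} (hf : f ∈ W) : cu W k u f ∈ W :=
  (cu' hW hu hwf (DfnF.const hf)).1 Fin.elim0 fun i => i.elim0

theorem dfn_apeq {f g : ZFSet.{0}} (hf : f ∈ W) (hg : g ∈ W) :
    Dfn W W fun w : Fin 1 → ZFSet.{0} => ap f (w 0) = ap g (w 0) :=
  Dfn.eq (hW.ap' (DfnF.const hf) (DfnF.proj 0)) (hW.ap' (DfnF.const hg) (DfnF.proj 0))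

theorem dfn_apmem {f g : ZFSet.{0}} (hf : f ∈ W) (hg : g ∈ W) :
    Dfn W W fun w : Fin 1 → ZFSet.{0} => ap f (w 0) ∈ ap g (w 0) :=
  Dfn.mem (hW.ap' (DfnF.const hf) (DfnF.proj 0)) (hW.ap' (DfnF.const hg) (DfnF.proj 0))

theorem cu_congr : ∀ f ∈ W, ∀ g ∈ W, (Ae k u fun ξ => ap f ξ = ap g ξ) →
    cu W k u f = cu W k u g := by
  intro f
  induction f using hwf.induction with
  | _ f ih =>
    intro hf g hg h
    ext y
    rw [mem_cu' hW hu hwf, mem_cu' hW hu hwf]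
    constructor
    · rintro ⟨e, he, rfl⟩
      obtain ⟨h1, -, h2⟩ := mem_prE.1 he
      have h3 : Er W k u e g := by
        refine ⟨h1, hg, hu.mono (sepW hW hu (dfn_apmem hW hu hwf h1 hg)) (hu.and h h2) ?_⟩
        rintro ξ - ⟨h4, h5⟩
        rwa [← h4]
      obtain ⟨e', he', h4⟩ := exists_fit hW hu h3
      exact ⟨e', he', ih e ⟨h1, hf, h2⟩ h1 e' (mem_prE.1 he').1 h4⟩
    · rintro ⟨e, he, rfl⟩
      obtain ⟨h1, -, h2⟩ := mem_prE.1 he
      have h3 : Er W k u e f := by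
        refine ⟨h1, hf, hu.mono (sepW hW hu (dfn_apmem hW hu hwf h1 hf)) (hu.and h h2) ?_⟩
        rintro ξ - ⟨h4, h5⟩
        rwa [h4]
      obtain ⟨e', he', h4⟩ := exists_fit hW hu h3
      obtain ⟨h5, -, h6⟩ := mem_prE.1 he'
      refine ⟨e', he', (ih e' ⟨h5, hf, h6⟩ h5 e h1 ?_).symm⟩
      exact h4.congr fun ξ _ => eq_comm

theorem mem_cu {f y : ZFSet.{0}} (hf : f ∈ W) : y ∈ cu W k u f ↔
    ∃ g ∈ W, (Ae k u fun ξ => ap g ξ ∈ ap f ξ) ∧ y = cu W k u g := by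
  rw [mem_cu' hW hu hwf]
  constructor
  · rintro ⟨g, hg, rfl⟩
    obtain ⟨h1, -, h2⟩ := mem_prE.1 hg
    exact ⟨g, h1, h2, rfl⟩
  · rintro ⟨g, hg, h1, rfl⟩
    obtain ⟨e, he, h2⟩ := exists_fit hW hu ⟨hg, hf, h1⟩
    exact ⟨e, he, cu_congr hW hu hwf g hg e (mem_prE.1 he).1 h2⟩

end

section

variable {W : Set ZFSet.{0}} {k u : ZFSet.{0}} (hC : IsZFC W) (hu : IsMeas W k u)
  (hwf : WellFounded (Er W k u))

include hC hu hwf

/-- Functions with given properties almost everywhere. -/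
theorem exists_sel {R : ZFSet.{0} → ZFSet.{0} → Prop}
    (hR : Dfn W W fun w : Fin 2 → ZFSet.{0} => R (w 0) (w 1))
    (h : Ae k u fun ξ => ∃ y ∈ W, R y ξ) : ∃ h ∈ W, Ae k u fun ξ => R (ap h ξ) ξ := by
  have hW := hC.toIsZF
  obtain ⟨f, hf, -, -, h1⟩ := hC.choose (x := ZFSet.sep (fun ξ => ∃ y ∈ W, R y ξ) k)
    (hW.trans _ hu.uW _ h) hR fun z hz => (ZFSet.mem_sep.1 hz).2
  refine ⟨f, hf, hu.mono ?_ h fun ξ hξ h2 => h1 ξ (ZFSet.mem_sep.2 ⟨hξ, h2⟩)⟩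
  exact sepW hW hu (Dfn.comp2 (Q := R) hR (hW.ap' (DfnF.const hf) (DfnF.proj 0)) (DfnF.proj 0))

theorem cu_inj : ∀ f ∈ W, ∀ g ∈ W, cu W k u f = cu W k u g →
    Ae k u fun ξ => ap f ξ = ap g ξ := by
  have hW := hC.toIsZF
  have hB := hW.base
  intro f
  induction f using hwf.induction with
  | _ f ih =>
    intro hf g hg h
    by_contra h1
    rw [hu.not (sepW hW hu (dfn_apeq hW hu hwf hf hg))] at h1
    have key : ∀ a ∈ W, ∀ b ∈ W, (Ae k u fun ξ => ∃ y ∈ W, y ∈ ap a ξ ∧ y ∉ ap b ξ) →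
        ∃ h ∈ W, (Ae k u fun ξ => ap h ξ ∈ ap a ξ) ∧ ¬ Ae k u fun ξ => ap h ξ ∈ ap b ξ := by
      intro a ha b hb h2
      have hd : Dfn W W fun w : Fin 2 → ZFSet.{0} => w 0 ∈ ap a (w 1) ∧ w 0 ∉ ap b (w 1) := by
        apply Dfn.and
        · exact Dfn.mem (DfnF.proj 0) (hW.ap' (DfnF.const ha) (DfnF.proj 1))
        · exact (Dfn.mem (DfnF.proj 0) (hW.ap' (DfnF.const hb) (DfnF.proj 1))).not
      obtain ⟨e, he, h3⟩ := exists_sel hC hu hwf hd h2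
      refine ⟨e, he, hu.mono (sepW hW hu (dfn_apmem hW hu hwf he ha)) h3 fun _ _ h => h.1, ?_⟩
      intro h4
      obtain ⟨ξ, -, h5, h6⟩ := hu.ex hW (hu.and h3 h4)
      exact h5.2 h6
    have hd : ∀ a ∈ W, ∀ b ∈ W, ZFSet.sep (fun ξ => ∃ y ∈ W, y ∈ ap a ξ ∧ y ∉ ap b ξ) k ∈ W := by
      intro a ha b hb
      refine sepW hW hu ?_
      apply Dfn.ex
      apply Dfn.and
      · exact Dfn.mem (DfnF.proj 0) (hW.ap' (DfnF.const ha) (DfnF.proj 1))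
      · exact (Dfn.mem (DfnF.proj 0) (hW.ap' (DfnF.const hb) (DfnF.proj 1))).not
    by_cases h2 : Ae k u fun ξ => ∃ y ∈ W, y ∈ ap f ξ ∧ y ∉ ap g ξ
    · obtain ⟨e, he, h3, h4⟩ := key f hf g hg h2
      have h5 : cu W k u e ∈ cu W k u g := by
        rw [← h]
        exact (mem_cu hW hu hwf hf).2 ⟨e, he, h3, rfl⟩
      obtain ⟨e', he', h6, h7⟩ := (mem_cu hW hu hwf hg).1 h5
      have h8 := ih e ⟨he, hf, h3⟩ he e' he' h7
      refine h4 (hu.mono (sepW hW hu (dfn_apmem hW hu hwf he hg)) (hu.and h8 h6) ?_)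
      rintro ξ - ⟨h9, h10⟩
      rwa [h9]
    · rw [hu.not (hd f hf g hg)] at h2
      have h3 : Ae k u fun ξ => ∃ y ∈ W, y ∈ ap g ξ ∧ y ∉ ap f ξ := by
        refine hu.mono (hd g hg f hf) (hu.and h1 h2) ?_
        rintro ξ hξ ⟨h4, h5⟩
        push Not at h5
        by_contra h6
        push Not at h6
        have hξW := hW.trans _ hu.kW _ hξ
        apply h4
        ext y
        constructor
        · exact fun hy => h5 y (hW.trans _ (ap_mem hW hu hf hξW) _ hy) hy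
        · exact fun hy => h6 y (hW.trans _ (ap_mem hW hu hg hξW) _ hy) hy
      obtain ⟨e, he, h4, h5⟩ := key g hg f hf h3
      have h6 : cu W k u e ∈ cu W k u f := by
        rw [h]
        exact (mem_cu hW hu hwf hg).2 ⟨e, he, h4, rfl⟩
      obtain ⟨e', he', h7, h8⟩ := (mem_cu hW hu hwf hf).1 h6
      have h9 := ih e' ⟨he', hf, h7⟩ he' e he h8.symm
      refine h5 (hu.mono (sepW hW hu (dfn_apmem hW hu hwf he hf)) (hu.and h9 h7) ?_)
      rintro ξ - ⟨h10, h11⟩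
      rwa [← h10]

theorem cu_eq_iff {f g : ZFSet.{0}} (hf : f ∈ W) (hg : g ∈ W) :
    cu W k u f = cu W k u g ↔ Ae k u fun ξ => ap f ξ = ap g ξ :=
  ⟨cu_inj hC hu hwf f hf g hg, cu_congr hC.toIsZF hu hwf f hf g hg⟩

theorem cu_mem_iff {f g : ZFSet.{0}} (hf : f ∈ W) (hg : g ∈ W) :
    cu W k u f ∈ cu W k u g ↔ Ae k u fun ξ => ap f ξ ∈ ap g ξ := by
  have hW := hC.toIsZF
  rw [mem_cu hW hu hwf hg]
  constructor
  · rintro ⟨e, he, h1, h2⟩
    have h3 := cu_inj hC hu hwf f hf e he h2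
    refine hu.mono (sepW hW hu (dfn_apmem hW hu hwf hf hg)) (hu.and h3 h1) ?_
    rintro ξ - ⟨h4, h5⟩
    rwa [h4]
  · exact fun h => ⟨f, hf, h, rfl⟩

end

end Pool.Agent.W868.KP
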