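import Pool.Agent.W868.KP.Cl

/-!
# The two models satisfy ZF
-/

set_option autoImplicit false
set_option linter.unreachableTactic false
set_option linter.unusedTactic false
set_option linter.unusedSectionVars false

namespace Pool.Agent.W868.KP

open ZFSet (pair)

variable {W : Set ZFSet.{0}} {k : ZFSet.{0}} {u : Bool → ZFSet.{0}} (h2 : Two W k u)

include h2

theorem closure' {P : ZFSet.{0}} (hP : P ∈ W) {ψ : Fml ZFSet.{0} 1} (hψ : ψ.Over {a | a ∈ P})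
    (hb : Bdd W k u P ψ) (i : Bool) (hPM : ∀ a ∈ P, a ∈ MM W k u i) :
    ∃ y ∈ MM W k u i, ∀ w, w ∈ y ↔ w ∈ MM W k u i ∧ Sat (MM W k u i) id ψ ![w] := by
  have h3 : gr (fun a => a) P ∈ W := h2.grW hP (DfnF.proj 0)
  have h4 : ∀ a ∈ P, ap (gr (fun a => a) P) a = a := fun a ha => ap_gr ha
  obtain ⟨y, hy, h5⟩ := closure h2 hP hψ hb i h3 fun a ha => by
    rw [h4 a ha]
    exact hPM a ha
  refine ⟨y, hy, fun w => ?_⟩
  rw [h5, sat_congrI (S := {a | a ∈ P}) (I := fun a => ap (gr (fun a => a) P) a) (J := id)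
    (fun a ha => h4 a ha) ψ hψ]

theorem pairing_MM (i : Bool) (x : ZFSet.{0}) (hx : x ∈ MM W k u i) (y : ZFSet.{0})
    (hy : y ∈ MM W k u i) : ({x, y} : ZFSet.{0}) ∈ MM W k u i := by
  have hW := h2.zf
  have hxW := MM_subset h2 i hx
  have hyW := MM_subset h2 i hy
  have hP : ({x, y} : ZFSet.{0}) ∈ W := hW.pairing x hxW y hyW
  let ψ : Fml ZFSet.{0} 1 := .neg (.and (.neg (.eq (Sum.inl 0) (Sum.inr x)))
    (.neg (.eq (Sum.inl 0) (Sum.inr y))))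
  have hs : ∀ (C : Set ZFSet.{0}) (I : ZFSet.{0} → ZFSet.{0}) (w : ZFSet.{0}),
      Sat C I ψ ![w] ↔ w = I x ∨ w = I y := by
    intro C I w
    simp only [ψ, Sat, Sum.elim_inl, Sum.elim_inr, Matrix.cons_val_zero]
    tauto
  have ho : ψ.Over {a | a ∈ ({x, y} : ZFSet.{0})} := by
    refine ⟨⟨TOver.inl 0, tOver_inr.2 ?_⟩, TOver.inl 0, tOver_inr.2 ?_⟩
    · exact ZFSet.mem_pair.2 (Or.inl rfl)
    · exact ZFSet.mem_pair.2 (Or.inr rfl)
  obtain ⟨z, hz, h3⟩ := closure' h2 hP ho (fun i p hp _ => ⟨{ap p x, ap p y},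
    hW.pairing _ (h2.apW hp hxW) _ (h2.apW hp hyW), fun w _ hw => ZFSet.mem_pair.2
      ((hs _ _ _).1 hw)⟩) i (fun a ha => by
      rcases ZFSet.mem_pair.1 ha with rfl | rfl
      exacts [hx, hy])
  have h4 : z = {x, y} := by
    ext w
    rw [h3, hs, ZFSet.mem_pair]
    constructor
    · exact fun h => h.2
    · rintro (rfl | rfl)
      exacts [⟨hx, Or.inl rfl⟩, ⟨hy, Or.inr rfl⟩]
  exact h4 ▸ hz

theorem union_MM (i : Bool) (x : ZFSet.{0}) (hx : x ∈ MM W k u i) :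
    ZFSet.sUnion x ∈ MM W k u i := by
  have hW := h2.zf
  have hxW := MM_subset h2 i hx
  have hP : ({x} : ZFSet.{0}) ∈ W := hW.single_mem hxW
  let ψ : Fml ZFSet.{0} 1 := .ex (.and (.mem (Sum.inl 0) (Sum.inr x))
    (.mem (Sum.inl 1) (Sum.inl 0)))
  have hs : ∀ (C : Set ZFSet.{0}) (I : ZFSet.{0} → ZFSet.{0}) (w : ZFSet.{0}),
      Sat C I ψ ![w] ↔ ∃ z ∈ C, z ∈ I x ∧ w ∈ z := by
    intro C I w
    rfl
  have ho : ψ.Over {a | a ∈ ({x} : ZFSet.{0})} :=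
    ⟨⟨TOver.inl 0, tOver_inr.2 (ZFSet.mem_singleton.2 rfl)⟩, TOver.inl _, TOver.inl _⟩
  obtain ⟨z, hz, h3⟩ := closure' h2 hP ho (fun i p hp _ => ⟨ZFSet.sUnion (ap p x),
    hW.union _ (h2.apW hp hxW), fun w _ hw => by
      obtain ⟨z, -, hz, hw⟩ := (hs _ _ _).1 hw
      exact ZFSet.mem_sUnion.2 ⟨z, hz, hw⟩⟩) i (fun a ha => by
      rw [ZFSet.mem_singleton.1 ha]
      exact hx)
  have h4 : z = ZFSet.sUnion x := by
    ext w
    rw [h3, hs, ZFSet.mem_sUnion]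
    constructor
    · rintro ⟨-, z, -, hz, hw⟩
      exact ⟨z, hz, hw⟩
    · rintro ⟨z, hz, hw⟩
      have hzM := trans_MM h2 i x hx z hz
      exact ⟨trans_MM h2 i z hzM w hw, z, hzM, hz, hw⟩
  exact h4 ▸ hz

theorem power_MM (i : Bool) (x : ZFSet.{0}) (hx : x ∈ MM W k u i) :
    ∃ y ∈ MM W k u i, ∀ z, z ∈ y ↔ z ∈ MM W k u i ∧ z ⊆ x := by
  have hW := h2.zf
  have hxW := MM_subset h2 i hx
  have hP : ({x} : ZFSet.{0}) ∈ W := hW.single_mem hxW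
  let ψ : Fml ZFSet.{0} 1 := .neg (.ex (.and (.mem (Sum.inl 0) (Sum.inl 1))
    (.neg (.mem (Sum.inl 0) (Sum.inr x)))))
  have hs : ∀ (i : Bool) (I : ZFSet.{0} → ZFSet.{0}) (w : ZFSet.{0}), w ∈ MM W k u i →
      (Sat (MM W k u i) I ψ ![w] ↔ w ⊆ I x) := by
    intro i I w hw
    have h3 : Sat (MM W k u i) I ψ ![w] ↔ ¬ ∃ z ∈ MM W k u i, z ∈ w ∧ z ∉ I x := Iff.rfl
    rw [h3]
    constructor
    · intro h4 z hz
      by_contra h5
      exact h4 ⟨z, trans_MM h2 i w hw z hz, hz, h5⟩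
    · rintro h4 ⟨z, -, hz, h5⟩
      exact h5 (h4 hz)
  have ho : ψ.Over {a | a ∈ ({x} : ZFSet.{0})} :=
    ⟨⟨TOver.inl _, TOver.inl _⟩, TOver.inl _, tOver_inr.2 (ZFSet.mem_singleton.2 rfl)⟩
  obtain ⟨z, hz, h3⟩ := closure' h2 hP ho (fun i p hp _ => ⟨pwW W (ap p x),
    hW.pwW_mem (h2.apW hp hxW), fun w hwM hw =>
      mem_pwW.2 ⟨MM_subset h2 i hwM, (hs _ _ _ hwM).1 hw⟩⟩) i (fun a ha => by
      rw [ZFSet.mem_singleton.1 ha]
      exact hx)
  refine ⟨z, hz, fun w => ?_⟩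
  rw [h3]
  exact and_congr_right fun hw => hs i id w hw

theorem separation_MM (i : Bool) (φ : Fml ZFSet.{0} 1) (hφ : φ.Over (MM W k u i))
    (x : ZFSet.{0}) (hx : x ∈ MM W k u i) :
    ∃ y ∈ MM W k u i, ∀ z, z ∈ y ↔ z ∈ x ∧ Sat (MM W k u i) id φ ![z] := by
  have hW := h2.zf
  have hxW := MM_subset h2 i hx
  obtain ⟨P, hP, hPM, hPφ⟩ := exists_over hW (MM_subset h2 i) φ hφ
  have hP' : insert x P ∈ W := hW.insert_mem hxW hP
  let ψ : Fml ZFSet.{0} 1 := .and φ (.mem (Sum.inl 0) (Sum.inr x))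
  have hs : ∀ (C : Set ZFSet.{0}) (I : ZFSet.{0} → ZFSet.{0}) (w : ZFSet.{0}),
      Sat C I ψ ![w] ↔ Sat C I φ ![w] ∧ w ∈ I x := by
    intro C I w
    rfl
  have ho : ψ.Over {a | a ∈ insert x P} := by
    refine ⟨Fml.Over.mono (φ := φ) (fun a ha => ZFSet.mem_insert_of_mem _ ha) hPφ,
      TOver.inl 0, tOver_inr.2 (ZFSet.mem_insert _ _)⟩
  obtain ⟨z, hz, h3⟩ := closure' h2 hP' ho (fun i p hp _ => ⟨ap p x,
    h2.apW hp hxW, fun w _ hw => ((hs _ _ _).1 hw).2⟩) i (fun a ha => by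
      rcases ZFSet.mem_insert_iff.1 ha with rfl | ha
      exacts [hx, hPM a ha])
  refine ⟨z, hz, fun w => ?_⟩
  rw [h3, hs]
  constructor
  · rintro ⟨-, h4, h5⟩
    exact ⟨h5, h4⟩
  · rintro ⟨h4, h5⟩
    exact ⟨trans_MM h2 i x hx w h4, h5, h4⟩

theorem replacement_MM (i : Bool) (φ : Fml ZFSet.{0} 2) (hφ : φ.Over (MM W k u i))
    (x : ZFSet.{0}) (hx : x ∈ MM W k u i)
    (hfun : ∀ z ∈ x, ∃! w, w ∈ MM W k u i ∧ Sat (MM W k u i) id φ ![z, w]) :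
    ∃ y ∈ MM W k u i, ∀ w, w ∈ y ↔ w ∈ MM W k u i ∧ ∃ z ∈ x, Sat (MM W k u i) id φ ![z, w] := by
  have hW := h2.zf
  have hB := hW.base
  have hxW := MM_subset h2 i hx
  obtain ⟨P, hP, hPM, hPφ⟩ := exists_over hW (MM_subset h2 i) φ hφ
  have hP' : insert x P ∈ W := hW.insert_mem hxW hP
  have hPφ' : φ.Over {a | a ∈ insert x P} :=
    Fml.Over.mono (φ := φ) (fun a ha => ZFSet.mem_insert_of_mem _ ha) hPφ
  have hPφW : φ.Over W := Fml.Over.mono (φ := φ) (fun a ha => hW.trans _ hP _ ha) hPφ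
  let A : Fml ZFSet.{0} 3 := φ.subst ![Sum.inl 1, Sum.inl 0]
  let B : Fml ZFSet.{0} 4 := φ.subst ![Sum.inl 2, Sum.inl 0]
  let Θ : Fml ZFSet.{0} 1 := .neg (.ex (.and (.mem (Sum.inl 0) (Sum.inr x))
    (.neg (.ex (.and A (.neg (.ex (.and B (.neg (.eq (Sum.inl 0) (Sum.inl 1)))))))))))
  let ψ : Fml ZFSet.{0} 1 := .and (.ex (.and (.mem (Sum.inl 0) (Sum.inr x)) φ)) Θ
  have hA : ∀ (C : Set ZFSet.{0}) (I : ZFSet.{0} → ZFSet.{0}) (w z w' : ZFSet.{0}),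
      Sat C I A (Fin.cons w' (Fin.cons z ![w])) ↔ Sat C I φ ![z, w'] := by
    intro C I w z w'
    rw [sat_subst]
    have h3 : (fun l => Sum.elim (Fin.cons w' (Fin.cons z ![w]) : Fin 3 → ZFSet.{0}) I
        ((![Sum.inl 1, Sum.inl 0] : Fin 2 → Fin 3 ⊕ ZFSet.{0}) l)) = ![z, w'] := by
      funext l
      fin_cases l <;> rfl
    rw [h3]
  have hB' : ∀ (C : Set ZFSet.{0}) (I : ZFSet.{0} → ZFSet.{0}) (w z w' w'' : ZFSet.{0}),
      Sat C I B (Fin.cons w'' (Fin.cons w' (Fin.cons z ![w]))) ↔ Sat C I φ ![z, w''] := by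
    intro C I w z w' w''
    rw [sat_subst]
    have h3 : (fun l => Sum.elim (Fin.cons w'' (Fin.cons w' (Fin.cons z ![w])) :
        Fin 4 → ZFSet.{0}) I ((![Sum.inl 2, Sum.inl 0] : Fin 2 → Fin 4 ⊕ ZFSet.{0}) l)) =
        ![z, w''] := by
      funext l
      fin_cases l <;> rfl
    rw [h3]
  have hΘ : ∀ (C : Set ZFSet.{0}) (I : ZFSet.{0} → ZFSet.{0}) (w : ZFSet.{0}),
      Sat C I Θ ![w] ↔ ∀ z ∈ C, z ∈ I x → ∃ w' ∈ C, Sat C I φ ![z, w'] ∧
        ∀ w'' ∈ C, Sat C I φ ![z, w''] → w'' = w' := by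
    intro C I w
    have h3 : Sat C I Θ ![w] ↔ ¬ ∃ z ∈ C, z ∈ I x ∧ ¬ ∃ w' ∈ C,
        Sat C I A (Fin.cons w' (Fin.cons z ![w])) ∧ ¬ ∃ w'' ∈ C,
          Sat C I B (Fin.cons w'' (Fin.cons w' (Fin.cons z ![w]))) ∧ ¬ w'' = w' := Iff.rfl
    rw [h3]
    simp only [hA, hB']
    push Not
    rfl
  have hs : ∀ (C : Set ZFSet.{0}) (I : ZFSet.{0} → ZFSet.{0}) (w : ZFSet.{0}),
      Sat C I ψ ![w] ↔ (∃ z ∈ C, z ∈ I x ∧ Sat C I φ ![z, w]) ∧ Sat C I Θ ![w] := by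
    intro C I w
    rfl
  have ho : ψ.Over {a | a ∈ insert x P} := by
    have hx' : TOver {a | a ∈ insert x P} (Sum.inr x : Fin 2 ⊕ ZFSet.{0}) :=
      tOver_inr.2 (ZFSet.mem_insert _ _)
    refine ⟨⟨⟨TOver.inl 0, hx'⟩, hPφ'⟩, ⟨⟨TOver.inl 0, hx'⟩, ?_, ?_, TOver.inl _, TOver.inl _⟩⟩
    · refine over_subst φ _ (fun l => ?_) hPφ'
      fin_cases l
      exacts [TOver.inl _, TOver.inl _]
    · refine over_subst φ _ (fun l => ?_) hPφ'
      fin_cases l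
      exacts [TOver.inl _, TOver.inl _]
  have hb : Bdd W k u (insert x P) ψ := by
    intro i p hp hpP
    by_cases h3 : ∀ z ∈ MM W k u i, z ∈ ap p x → ∃ w' ∈ MM W k u i,
        Sat (MM W k u i) (fun a => ap p a) φ ![z, w'] ∧
        ∀ w'' ∈ MM W k u i, Sat (MM W k u i) (fun a => ap p a) φ ![z, w''] → w'' = w'
    · have hpx : ap p x ∈ MM W k u i := hpP x (ZFSet.mem_insert _ _)
      have hd : Dfn W W fun w : Fin 2 → ZFSet.{0} => w 0 ∈ MM W k u i ∧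
          Sat (MM W k u i) (fun a => ap p a) φ ![w 1, w 0] := by
        refine (h2.MMd i (DfnF.proj 0)).and ?_
        have h4 := dfn_satI (dfn_MM h2 i) (MM_subset h2 i) φ hPφW (m := 2)
          (fun a _ => ap p a) (fun a ha => DfnF.const (h2.apW hp ha))
          ![fun w => w 1, fun w => w 0] (fun l => by
            fin_cases l
            · exact DfnF.proj 1
            · exact DfnF.proj 0)
        refine h4.congr fun w _ => ?_
        have h5 : (fun l => (![fun w : Fin 2 → ZFSet.{0} => w 1, fun w => w 0] :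
            Fin 2 → (Fin 2 → ZFSet.{0}) → ZFSet.{0}) l w) = ![w 1, w 0] := by
          funext l
          fin_cases l <;> rfl
        rw [h5]
      obtain ⟨Y, hY, h4⟩ := hW.collect (h2.apW hp hxW) (Q := fun w z => w ∈ MM W k u i ∧
        Sat (MM W k u i) (fun a => ap p a) φ ![z, w]) hd fun z hz => by
          obtain ⟨w', h5, h6, -⟩ := h3 z (trans_MM h2 i _ hpx z hz) hz
          exact ⟨w', MM_subset h2 i h5, h5, h6⟩
      refine ⟨Y, hY, fun w hw hw' => ?_⟩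
      obtain ⟨⟨z, hz, h5, h6⟩, -⟩ := (hs _ _ _).1 hw'
      obtain ⟨w', h7, h8, h9⟩ := h3 z hz h5
      obtain ⟨w1, h10, h11, h12⟩ := h4 z h5
      have h13 : w = w1 := (h9 w hw h6).trans (h9 w1 h11 h12).symm
      rwa [h13]
    · refine ⟨∅, hW.empty_mem, fun w _ hw' => ?_⟩
      exact absurd ((hΘ _ _ _).1 ((hs _ _ _).1 hw').2) h3
  obtain ⟨y, hy, h3⟩ := closure' h2 hP' ho hb i (fun a ha => by
      rcases ZFSet.mem_insert_iff.1 ha with rfl | ha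
      exacts [hx, hPM a ha])
  refine ⟨y, hy, fun w => ?_⟩
  rw [h3, hs, hΘ]
  constructor
  · rintro ⟨h4, ⟨z, -, h5, h6⟩, -⟩
    exact ⟨h4, z, h5, h6⟩
  · rintro ⟨h4, z, h5, h6⟩
    refine ⟨h4, ⟨z, trans_MM h2 i x hx z h5, h5, h6⟩, fun z' _ hz' => ?_⟩
    obtain ⟨w', ⟨h7, h8⟩, h9⟩ := hfun z' hz'
    exact ⟨w', h7, h8, fun w'' h10 h11 => h9 w'' ⟨h10, h11⟩⟩

theorem isZF_MM (i : Bool) : IsZF (MM W k u i) where
  trans := trans_MM h2 i
  pairing := pairing_MM h2 i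
  union := union_MM h2 i
  infinity := ord_MM h2 h2.zf.infinity isOrdinal_omega
  power := power_MM h2 i
  separation := separation_MM h2 i
  replacement := replacement_MM h2 i

/-- The embedding of one model into the other one. -/
noncomputable def em (W : Set ZFSet.{0}) (k : ZFSet.{0}) (u : Bool → ZFSet.{0}) (i : Bool)
    (x : ZFSet.{0}) : ZFSet.{0} := cu W k (u i) (gr (fun _ => x) k)

theorem em_MM (i : Bool) {x : ZFSet.{0}} (hx : x ∈ MM W k u (!i)) :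
    em W k u i x ∈ MM W k u i := by
  refine cu_MM h2 (h2.cW (MM_subset h2 _ hx)) ((h2.meas i).all fun ξ hξ => ?_)
  rwa [ap_const h2 hξ]

/-- The collapse of the constant functions is elementary. -/
theorem elem_em (i : Bool) {n : ℕ} (φ : Fml ZFSet.{0} n) (hφ : φ.Over ∅)
    (v : Fin n → ZFSet.{0}) (hv : ∀ j, v j ∈ MM W k u (!i)) :
    Sat (MM W k u (!i)) id φ v ↔ Sat (MM W k u i) id φ fun j => em W k u i (v j) := by
  have hW := h2.zf
  have h3 := los h2 i (S := ∅) (h := ∅) hW.empty_mem (Set.empty_subset _)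
    (fun a ha => absurd ha (Set.notMem_empty a)) φ hφ (fun j => gr (fun _ => v j) k)
    fun j => ⟨h2.cW (MM_subset h2 _ (hv j)), (h2.meas i).all fun ξ hξ => by
      rw [ap_const h2 hξ]
      exact hv j⟩
  have h4 : ∀ ξ ∈ k, (Sat (MM W k u (!i)) (fun a => ap (ap ∅ a) ξ) φ
      (fun j => ap (gr (fun _ => v j) k) ξ) ↔ Sat (MM W k u (!i)) id φ v) := by
    intro ξ hξ
    have h5 : (fun j => ap (gr (fun _ => v j) k) ξ) = v := funext fun j => ap_const h2 hξ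
    rw [h5]
    exact sat_congrI (S := ∅) (fun a ha => absurd ha (Set.notMem_empty a)) φ hφ v
  have h6 : Sat (MM W k u i) (fun a => cu W k (u i) (ap ∅ a)) φ
      (fun j => cu W k (u i) (gr (fun _ => v j) k)) ↔
      Sat (MM W k u i) id φ fun j => em W k u i (v j) :=
    sat_congrI (S := ∅) (fun a ha => absurd ha (Set.notMem_empty a)) φ hφ _
  rw [← h6, h3]
  constructor
  · exact fun h => (h2.meas i).all fun ξ hξ => (h4 ξ hξ).2 h
  · intro h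
    obtain ⟨ξ, hξ, h7⟩ := (h2.meas i).ex hW h
    exact (h4 ξ hξ).1 h7

end Pool.Agent.W868.KP
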